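import Pool.Agent.Q170.UZ.PlK
import Pool.Agent.Q14.UZ.SPR
import Pool.Agent.Q14.UZ.TAT
import Pool.Agent.Q26.UZ.REL
import Pool.Agent.Q26.UZ.COMB

/-!
# The criterion with three places
-/

set_option autoImplicit false
set_option linter.unusedSectionVars false

open UpperHalfPlane H294ZP Polynomial IsDedekindDomain NumberField

namespace Pool.Agent.Q170.UZ

open Pool.Agent.Y226 Pool.Agent.Y226.ZG Pool.Agent.Y226.ZM Pool.Agent.Y226.ZU Pool.Agent.Y92.ZX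
open Pool.Agent.Q170.FP

/-- `t` is near the hypersurface `P = 0` and not near `E = 0` at a place of a number field with
residue field of at most `B` elements and characteristic larger than `Q` -/
def Near1 {n r : ℕ} (f g : Fin n → MvPolynomial (Fin r) QA) (P E : MvPolynomial (Fin r) QA)
    (Q B : ℕ) (Γ : Set ℂ) (t : Fin r → ℂ) : Prop :=
  ∃ (K : Type) (_ : Field K) (_ : NumberField K) (σ : K →+* ℂ) (v : HeightOneSpectrum (𝓞 K))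
    (p : ℕ) (s : Fin r → K), (∀ l, σ (s l) = t l) ∧ Q < p ∧ Nat.card (𝓞 K ⧸ v.asIdeal) ≤ B ∧
    AtP f g P E σ v p s ∧ Γ ⊆ intAt σ v

/-- no atypical points, and finite intersections with all proper special subvarieties -/
def NoAt (Γ : Set ℂ) {n : ℕ} (S : Set (Fin n → ℂ)) : Prop :=
  (∀ (r' : ℕ) (Z : SV Γ n r'), r' + 2 ≤ n → ∀ x ∈ S, x ∉ Z.locus) ∧
  ∀ (r' : ℕ) (Z : SV Γ n r'), r' < n → {x | x ∈ S ∧ x ∈ Z.locus}.Finite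

/-- The criterion with three places. -/
theorem crit3 (n r : ℕ) (κ : Type) [Finite κ]
    (d₀ : ℕ) (F : κ → MvPolynomial (Fin n × Bool) (MvPolynomial (Fin r) QA)) (t₀ : Fin r → ℂ)
    (P : MvPolynomial (Fin r) QA) (hP0 : P ≠ 0)
    (hP : ∀ f, MvPolynomial.eval₂Hom rA t₀ f = 0 → P ∣ f)
    (hF : GM d₀ (MvPolynomial.eval₂Hom rA t₀) F) (f g : Fin n → MvPolynomial (Fin r) QA)
    (hf : ∀ i, MvPolynomial.eval₂Hom rA t₀ (f i) ≠ 0)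
    (hg : ∀ i, MvPolynomial.eval₂Hom rA t₀ (g i) ≠ 0) (w : Fin n → ℕ) (hw : ∀ i, 0 < w i)
    (hMA : MA (MvPolynomial.eval₂Hom rA t₀) F f g w)
    (hMB : MB (MvPolynomial.eval₂Hom rA t₀) F f g w) :
    ∃ (Q₁ : ℕ) (E₁ : MvPolynomial (Fin r) QA), MvPolynomial.eval₂Hom rA t₀ E₁ ≠ 0 ∧ ∀ B₁ : ℕ,
    ∃ (Q₂ : ℕ) (E₂ : MvPolynomial (Fin r) QA), MvPolynomial.eval₂Hom rA t₀ E₂ ≠ 0 ∧ ∀ B₂ : ℕ,
    ∃ (Q₃ : ℕ) (E₃ : MvPolynomial (Fin r) QA), MvPolynomial.eval₂Hom rA t₀ E₃ ≠ 0 ∧ ∀ B₃ : ℕ,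
    ∀ (Γ : Set ℂ) (t : Fin r → ℂ), Near1 f g P E₁ Q₁ B₁ Γ t → Near1 f g P E₂ Q₂ B₂ Γ t →
      Near1 f g P E₃ Q₃ B₃ Γ t → NoAt Γ (memH F f g P w t) := by
  have key := placeK Q14.UZ.t_SPR Q14.UZ.t_TAT Q26.UZ.t_REL n r κ d₀ F t₀ P hP0 hP hF f g hf hg w
    hw hMA hMB
  obtain ⟨Q₁, E₁, hE₁, h₁⟩ := key 0
  refine ⟨Q₁, E₁, hE₁, fun B₁ => ?_⟩
  obtain ⟨G₁, hG₁⟩ := h₁ B₁
  obtain ⟨Q₂, E₂, hE₂, h₂⟩ := key G₁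
  refine ⟨Q₂, E₂, hE₂, fun B₂ => ?_⟩
  obtain ⟨G₂, hG₂⟩ := h₂ B₂
  obtain ⟨Q₃, E₃, hE₃, h₃⟩ := key (max G₁ G₂)
  refine ⟨Q₃, E₃, hE₃, fun B₃ => ?_⟩
  obtain ⟨G₃, hG₃⟩ := h₃ B₃
  rintro Γ t ⟨K₁, _, _, σ₁, v₁, p₁, s₁, hs₁, hp₁, hc₁, hA₁, hΓ₁⟩
    ⟨K₂, _, _, σ₂, v₂, p₂, s₂, hs₂, hp₂, hc₂, hA₂, hΓ₂⟩
    ⟨K₃, _, _, σ₃, v₃, p₃, s₃, hs₃, hp₃, hc₃, hA₃, hΓ₃⟩
  have e₁ : (fun l => σ₁ (s₁ l)) = t := funext hs₁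
  have e₂ : (fun l => σ₂ (s₂ l)) = t := funext hs₂
  have e₃ : (fun l => σ₃ (s₃ l)) = t := funext hs₃
  obtain ⟨f₁, m₁⟩ := hG₁ K₁ σ₁ v₁ p₁ s₁ hp₁ hc₁ hA₁ Γ hΓ₁
  obtain ⟨-, m₂⟩ := hG₂ K₂ σ₂ v₂ p₂ s₂ hp₂ hc₂ hA₂ Γ hΓ₂
  obtain ⟨-, m₃⟩ := hG₃ K₃ σ₃ v₃ p₃ s₃ hp₃ hc₃ hA₃ Γ hΓ₃
  refine ⟨fun r' Z hr x hx hxZ => ?_, fun r' Z hr => ?_⟩
  swap
  · have := f₁ r' Z hr
    rw [e₁] at this
    exact this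
  obtain ⟨b₁, hb₁⟩ := m₁ r' Z hr x (by rw [e₁]; exact hx) hxZ
  obtain ⟨b₂, hb₂⟩ := m₂ r' Z hr x (by rw [e₂]; exact hx) hxZ
  obtain ⟨b₃, hb₃⟩ := m₃ r' Z hr x (by rw [e₃]; exact hx) hxZ
  have hmono : ∀ {G G' : ℕ} {x x' : ℂ}, G ≤ G' → Iso G x x' → Iso G' x x' := by
    rintro G G' x x' h ⟨N, hN0, hN, hΨ⟩
    exact ⟨N, hN0, hN.trans h, hΨ⟩
  exact Q26.UZ.t_COMB n r' Z.cls hr (fun j l => Iso G₁ (x j) (x l))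
    (fun j l => Iso (max G₁ G₂) (x j) (x l)) (fun j l h => hmono (le_max_left _ _) h) b₁ b₂ b₃
    hb₁.one hb₂.one hb₃.one (fun i hi => ⟨hb₁.const i hi, hb₂.const i hi, hb₃.const i hi⟩)
    hb₁.good (fun j l c hjl hj hl h h' => hmono (le_max_right _ _) (hb₂.good j l c hjl hj hl h h'))
    hb₂.b1 hb₃.b1 hb₃.b2 hb₃.b3

end Pool.Agent.Q170.UZ
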