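import Pool.Agent.Q170.UZ.NoRel2
import Pool.Agent.Q170.FP.Gen
import Pool.Agent.Q170.FP.Main

/-!
# The local theorem at one place of a number field
-/

set_option autoImplicit false
set_option linter.unusedSectionVars false

open UpperHalfPlane H294ZP Polynomial IsDedekindDomain NumberField

namespace Pool.Agent.Q170.UZ

open Pool.Agent.Y226 Pool.Agent.Y226.ZG Pool.Agent.Y226.ZM Pool.Agent.Y226.ZU Pool.Agent.Y92.ZX
open Pool.Agent.Q170.FP

/-- isogenous with bounded degree -/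
def Iso (G : ℕ) (x x' : ℂ) : Prop := ∃ N, 0 < N ∧ N ≤ G ∧ PsiE ιZ (mP N) (mD N) x x' = 0

/-- the information at one place -/
structure PC {n r' : ℕ} (cls : Fin n → Option (Fin r')) (G G' : ℕ) (x : Fin n → ℂ)
    (bad : Fin n → Prop) : Prop where
  one : ∀ j l, bad j → bad l → j = l
  const : ∀ i, cls i = none → bad i
  good : ∀ j l c, j ≠ l → cls j = some c → cls l = some c → ¬ bad j → ¬ bad l → Iso G (x j) (x l)
  b1 : ∀ a j l, bad a → j ≠ l → j ≠ a → l ≠ a → ¬ Iso G' (x j) (x l)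
  b2 : ∀ a j l, bad a → j ≠ l → j ≠ a → l ≠ a → Iso G' (x j) (x a) → ¬ Iso G' (x l) (x a)
  b3 : (∀ a, ¬ bad a) → ∀ j l j' l', j ≠ l → j' ≠ l' → Iso G' (x j) (x l) →
    Iso G' (x j') (x l') → (j = j' ∧ l = l') ∨ (j = l' ∧ l = j')

theorem MA.descent {A 𝒦 L : Type} [CommRing A] [Field 𝒦] [Field L] {n : ℕ} {κ : Type}
    {π : A →+* 𝒦} {i : 𝒦 →+* L} {F : κ → MvPolynomial (Fin n × Bool) A} {f g : Fin n → A}
    {w : Fin n → ℕ} (h : MA (i.comp π) F f g w) : MA π F f g w := by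
  intro y hy hy0 b hb j l j' l' hjl hjl' h1 h2
  have key : ∀ m, (i.comp π) (f m) / (i.comp π) (g m) * i (y m) =
      i (π (f m) / π (g m) * y m) := by
    intro m
    rw [map_mul, map_div₀]
    rfl
  refine h (fun m => i (y m)) ?_ (fun m => (map_ne_zero i).2 (hy0 m)) b hb j l j' l' hjl hjl' ?_ ?_
  · intro k
    rw [chv_map i none y]
    have h3 := congrArg i (hy k)
    rw [map_zero, MvPolynomial.eval₂_comp_left] at h3
    exact h3
  · rw [key, key, ← map_pow, ← map_pow, h1]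
  · rw [key, key, ← map_pow, ← map_pow, h2]

theorem MB.descent {A 𝒦 L : Type} [CommRing A] [Field 𝒦] [Field L] {n : ℕ} {κ : Type}
    {π : A →+* 𝒦} {i : 𝒦 →+* L} {F : κ → MvPolynomial (Fin n × Bool) A} {f g : Fin n → A}
    {w : Fin n → ℕ} (h : MB (i.comp π) F f g w) : MB π F f g w := by
  intro c a hc y hy hya hy0 b hb j l hjl hja hla h1
  have key : ∀ m, (i.comp π) (f m) / (i.comp π) (g m) * i (y m) =
      i (π (f m) / π (g m) * y m) := by
    intro m
    rw [map_mul, map_div₀]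
    rfl
  refine h c a hc (fun m => i (y m)) ?_ (by rw [hya, map_zero])
    (fun m hm => (map_ne_zero i).2 (hy0 m hm)) b hb j l hjl hja hla ?_
  · intro k
    rw [chv_map i c y]
    have h3 := congrArg i (hy k)
    rw [map_zero, MvPolynomial.eval₂_comp_left] at h3
    exact h3
  · rw [key, key, ← map_pow, ← map_pow, h1]

/-- the residue field is not smaller than `p` -/
theorem p_le_card {K : Type} [Field K] [NumberField K] (v : HeightOneSpectrum (𝓞 K)) {p : ℕ}
    (hp : p.Prime) (hpv : (p : 𝓞 K) ∈ v.asIdeal) : p ≤ Nat.card (𝓞 K ⧸ v.asIdeal) := by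
  have hfin : Finite (𝓞 K ⧸ v.asIdeal) := Ring.HasFiniteQuotients.finiteQuotient v.ne_bot
  have : Fintype (𝓞 K ⧸ v.asIdeal) := Fintype.ofFinite _
  have hprime : v.asIdeal.IsPrime := v.isPrime
  have hdom : IsDomain (𝓞 K ⧸ v.asIdeal) := Ideal.Quotient.isDomain _
  have hp0 : ((p : ℕ) : 𝓞 K ⧸ v.asIdeal) = 0 := by
    have h1 := Ideal.Quotient.eq_zero_iff_mem.2 hpv
    rw [map_natCast] at h1
    exact h1
  haveI : Fact p.Prime := ⟨hp⟩
  have : CharP (𝓞 K ⧸ v.asIdeal) p := (CharP.charP_iff_prime_eq_zero hp).2 hp0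
  rw [Nat.card_eq_fintype_card]
  have h2 : p ∣ Fintype.card (𝓞 K ⧸ v.asIdeal) :=
    (CharP.cast_eq_zero_iff (𝓞 K ⧸ v.asIdeal) p _).1 (Nat.cast_card_eq_zero _)
  exact Nat.le_of_dvd Fintype.card_pos h2

/-- the hypotheses at one place of a number field -/
structure AtP {n r : ℕ} (f g : Fin n → MvPolynomial (Fin r) QA) (P E : MvPolynomial (Fin r) QA)
    {K : Type} [Field K] [NumberField K] (σ : K →+* ℂ) (v : HeightOneSpectrum (𝓞 K)) (p : ℕ)
    (s : Fin r → K) : Prop where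
  prime : p.Prime
  lies : (p : 𝓞 K) ∈ v.asIdeal
  unr : (p : 𝓞 K) ∉ v.asIdeal ^ 2
  int : ∀ l, v.valuation K (s l) ≤ 1
  hP : ∃ a : K, σ a = MvPolynomial.eval₂ rA (fun l => σ (s l)) P ∧ a ≠ 0 ∧ v.valuation K a < 1
  hE : ∃ b : K, σ b = MvPolynomial.eval₂ rA (fun l => σ (s l)) E ∧ v.valuation K b = 1
  hu : ∀ i, ∃ u : K, σ u = MvPolynomial.eval₂ rA (fun l => σ (s l)) (f i) /
    MvPolynomial.eval₂ rA (fun l => σ (s l)) (g i) ∧ v.valuation K u = 1

/-- The local theorem at one place of a number field. -/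
theorem placeK (hSPR : S_SPR) (hTAT : S_TAT) (hREL : S_REL) (n r : ℕ) (κ : Type) [Finite κ]
    (d₀ : ℕ) (F : κ → MvPolynomial (Fin n × Bool) (MvPolynomial (Fin r) QA)) (t₀ : Fin r → ℂ)
    (P : MvPolynomial (Fin r) QA) (hP0 : P ≠ 0)
    (hP : ∀ f, MvPolynomial.eval₂Hom rA t₀ f = 0 → P ∣ f)
    (hF : GM d₀ (MvPolynomial.eval₂Hom rA t₀) F) (f g : Fin n → MvPolynomial (Fin r) QA)
    (hf : ∀ i, MvPolynomial.eval₂Hom rA t₀ (f i) ≠ 0)
    (hg : ∀ i, MvPolynomial.eval₂Hom rA t₀ (g i) ≠ 0) (w : Fin n → ℕ) (hw : ∀ i, 0 < w i)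
    (hMA : MA (MvPolynomial.eval₂Hom rA t₀) F f g w)
    (hMB : MB (MvPolynomial.eval₂Hom rA t₀) F f g w) (G' : ℕ) :
    ∃ (Q : ℕ) (E : MvPolynomial (Fin r) QA), MvPolynomial.eval₂Hom rA t₀ E ≠ 0 ∧ ∀ B : ℕ,
    ∃ G : ℕ, ∀ (K : Type) [Field K] [NumberField K] (σ : K →+* ℂ) (v : HeightOneSpectrum (𝓞 K))
      (p : ℕ) (s : Fin r → K), Q < p → Nat.card (𝓞 K ⧸ v.asIdeal) ≤ B → AtP f g P E σ v p s →
    ∀ (Γ : Set ℂ), Γ ⊆ intAt σ v →
    (∀ (r' : ℕ) (Z : SV Γ n r'), r' < n →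
      {x | x ∈ memH F f g P w (fun l => σ (s l)) ∧ x ∈ Z.locus}.Finite) ∧
    ∀ (r' : ℕ) (Z : SV Γ n r'), r' + 2 ≤ n →
    ∀ x ∈ memH F f g P w (fun l => σ (s l)), x ∈ Z.locus →
      ∃ bad : Fin n → Prop, PC Z.cls G G' x bad := by
  classical
  obtain ⟨𝒦, _, _, _, i, π, hiπ, halg⟩ := exists_field t₀
  have hval : ∀ f, i (π f) = MvPolynomial.eval₂Hom rA t₀ f := fun f => by
    rw [← hiπ]
    rfl
  have hπP : ∀ f, π f = 0 → P ∣ f := fun f hf => hP f (by rw [← hval, hf, map_zero])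
  have hπ0 : ∀ f, π f ≠ 0 → MvPolynomial.eval₂Hom rA t₀ f ≠ 0 := fun f hf => by
    rw [← hval]
    exact (map_ne_zero i).2 hf
  have hπ0' : ∀ f, MvPolynomial.eval₂Hom rA t₀ f ≠ 0 → π f ≠ 0 := fun f hf h0 => hf (by
    rw [← hval, h0, map_zero])
  rw [← hiπ] at hMA hMB hF
  obtain ⟨Q₁, E₁, hE₁, hplace⟩ := placeC n r (∑ i, w i) κ d₀ F 𝒦 π halg P hP0 hπP
    (GM_descent π i F hF)
  obtain ⟨Q₂, E₂, hE₂, hnr⟩ := noRel hSPR hTAT hREL F f g w hw hF.hom π P hπP
    (fun i => hπ0' _ (hg i)) hMA.descent hMB.descent G'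
  choose Dn hDn using nr_large
  -- the polynomials
  let J := Bool ⊕ (Fin n × Bool)
  let e : J → MvPolynomial (Fin r) QA := Sum.elim (fun b => if b then E₁ else E₂)
    (fun q => if q.2 then f q.1 else g q.1)
  let S : Finset QA := Finset.univ.biUnion fun j => (e j).support.image (e j).coeff
  have he0 : ∀ j, MvPolynomial.eval₂Hom rA t₀ (e j) ≠ 0 := by
    rintro (b | ⟨i, b⟩)
    · cases b
      · exact hπ0 _ hE₂
      · exact hπ0 _ hE₁
    · cases b
      · exact hg i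
      · exact hf i
  refine ⟨Q₁ + Q₂ + S.sup Dn, ∏ j, e j, ?_, ?_⟩
  · rw [map_prod]
    exact Finset.prod_ne_zero_iff.2 fun j _ => he0 j
  intro B
  -- the bounds for all primes
  have key : ∀ p : ℕ, ∃ G : ℕ, p.Prime → Q₁ + Q₂ + S.sup Dn < p →
      ∀ (K : Type) [Field K] [NumberField K] (σ : K →+* ℂ)
      (v : HeightOneSpectrum (𝓞 K)) (s : Fin r → K), Nat.card (𝓞 K ⧸ v.asIdeal) ≤ B →
      AtP f g P (∏ j, e j) σ v p s →
      ∀ (Γ : Set ℂ), Γ ⊆ intAt σ v →
      (∀ (r' : ℕ) (Z : SV Γ n r'), r' < n →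
        {x | x ∈ memH F f g P w (fun l => σ (s l)) ∧ x ∈ Z.locus}.Finite) ∧
      ∀ (r' : ℕ) (Z : SV Γ n r'), r' + 2 ≤ n →
      ∀ x ∈ memH F f g P w (fun l => σ (s l)), x ∈ Z.locus →
        ∃ bad : Fin n → Prop, PC Z.cls G G' x bad := by
    intro p
    by_cases hp : p.Prime ∧ Q₁ + Q₂ + S.sup Dn < p
    swap
    · exact ⟨0, fun h1 h2 => absurd ⟨h1, h2⟩ hp⟩
    obtain ⟨hp, hQp⟩ := hp
    haveI hpf : Fact p.Prime := ⟨hp⟩
    obtain ⟨C, _, _, _, _, _, k, _, _, _, red, 𝕜, _, _, _, ρ, ι, hp0, hp1, hker, hρs, hι, hK⟩ :=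
      nfU p
    obtain ⟨G, hG⟩ := hplace C p k red 𝕜 ρ ι hker hp0 hp1 hρs hι (by omega)
      (TT C p (p ^ B.factorial))
    refine ⟨G, fun _ _ => ?_⟩
    intro K _ _ σ v s hcard hAt Γ hΓ
    obtain ⟨-, hpv, hpv2, hs, ⟨a, ha, ha0, hav⟩, ⟨b, hb, hbv⟩, hu⟩ := hAt
    choose u hu1 hu2 using hu
    obtain ⟨φ, σ', hσ', hNr, -, hvaln, hapx⟩ := hK K σ v hpv hpv2
    have hapxB := hapx B hcard
    let sQ : Fin r → QA := fun l => σ' (s l)
    have hrAσ : ∀ f : MvPolynomial (Fin r) QA,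
        rA (MvPolynomial.eval sQ f) = MvPolynomial.eval₂ rA (fun l => σ (s l)) f := by
      intro f
      have h2 := MvPolynomial.eval₂_comp_left rA (RingHom.id QA) sQ f
      rw [RingHom.comp_id] at h2
      refine h2.trans ?_
      congr 1
      funext l
      exact hσ' (s l)
    have haQ : MvPolynomial.eval sQ P = σ' a := rA.injective (by rw [hrAσ, hσ', ha])
    have hbQ : MvPolynomial.eval sQ (∏ j, e j) = σ' b := rA.injective (by rw [hrAσ, hσ', hb])
    have hsN : ∀ l, φ (sQ l) ∈ Nr C p := fun l => hNr _ (hs l)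
    have hs1 : ∀ l, ‖φ (sQ l)‖ ≤ 1 := fun l => Nr_le (hsN l)
    have hnone : ∀ x : K, v.valuation K x = 1 → ‖φ (σ' x)‖ = 1 := by
      intro x hx
      rw [hvaln x 0 (by rw [hx, WithZero.exp_zero]), neg_zero, zpow_zero]
    obtain ⟨e', he', hve⟩ := exists_exp v ha0 hav
    have hPs : ‖φ (MvPolynomial.eval sQ P)‖ < 1 := by
      rw [haQ, hvaln _ _ hve, neg_neg]
      have h3 : ‖(p : C)‖ ^ (e' : ℤ) = ‖(p : C)‖ ^ e' := zpow_natCast _ _
      rw [h3]
      exact pow_lt_one₀ (norm_nonneg _) hp1 he'.ne'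
    have hPne : MvPolynomial.eval sQ P ≠ 0 := by
      rw [haQ]
      exact (map_ne_zero σ').2 ha0
    have hint : ∀ j m, ‖φ ((e j).coeff m)‖ ≤ 1 := by
      intro j m
      by_cases h0 : (e j).coeff m = 0
      · rw [h0, map_zero, norm_zero]
        exact zero_le_one
      · have h2 : (e j).coeff m ∈ S := by
          simp only [S, Finset.mem_biUnion, Finset.mem_univ, true_and, Finset.mem_image]
          exact ⟨j, m, MvPolynomial.mem_support_iff.2 h0, rfl⟩
        have h3 : Dn ((e j).coeff m) ≤ S.sup Dn := Finset.le_sup h2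
        exact Nr_le (hDn _ p (by omega) C φ hp1)
    have hej : ∀ j, ‖φ (MvPolynomial.eval sQ (e j))‖ = 1 := by
      intro j
      refine one_of_prod Finset.univ (fun j => φ (MvPolynomial.eval sQ (e j)))
        (fun j _ => norm_eval_le φ (e j) (hint j) sQ hs1) ?_ j (Finset.mem_univ j)
      rw [← map_prod, ← map_prod, hbQ]
      exact hnone b hbv
    have hE₁s : ‖φ (MvPolynomial.eval sQ E₁)‖ = 1 := hej (Sum.inl true)
    have hE₂s : ‖φ (MvPolynomial.eval sQ E₂)‖ = 1 := hej (Sum.inl false)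
    have hfs : ∀ i, ‖φ (MvPolynomial.eval sQ (f i))‖ = 1 := fun i => hej (Sum.inr (i, true))
    have hgs : ∀ i, ‖φ (MvPolynomial.eval sQ (g i))‖ = 1 := fun i => hej (Sum.inr (i, false))
    -- the scaling factors
    let lam : Fin n → QA := fun i => MvPolynomial.eval sQ (f i) /
      (MvPolynomial.eval sQ P ^ w i * MvPolynomial.eval sQ (g i))
    have hlam : ∀ i, lam i = σ' (u i / a ^ w i) := by
      intro i
      apply rA.injective
      show rA (_ / _) = _
      rw [map_div₀, map_mul, map_pow, hrAσ, hrAσ, hrAσ, hσ', map_div₀, map_pow, hu1, ha, div_div,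
        mul_comm (MvPolynomial.eval₂ rA (fun l => σ (s l)) P ^ w i)]
    have hvlam : ∀ i, v.valuation K (u i / a ^ w i) = WithZero.exp ((w i * e' : ℕ) : ℤ) := by
      intro i
      rw [map_div₀, map_pow, hu2 i, hve, ← WithZero.exp_nsmul, one_div, ← WithZero.exp_neg]
      congr 1
      push_cast
      simp
    have hvlam2 : ∀ i, v.valuation K (u i / a ^ w i * (p : K) ^ (w i * e')) ≤ 1 := by
      intro i
      rw [map_mul, map_pow, hvlam, val_p hpv hpv2, ← WithZero.exp_nsmul, ← WithZero.exp_add]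
      simp
    have hlamp : ∀ i, φ (lam i) * (p : C) ^ (w i * e') =
        φ (σ' (u i / a ^ w i * (p : K) ^ (w i * e'))) := by
      intro i
      rw [hlam, map_mul, map_mul, map_pow, map_pow, map_natCast, map_natCast]
    have hVF0 : ∀ y ∈ VS F (fun l => σ (s l)),
        y ∈ VF (fun t => MvPolynomial.map (MvPolynomial.eval sQ) (F t)) := by
      intro y hy t
      have hrσ : rA.comp (MvPolynomial.eval sQ) =
          MvPolynomial.eval₂Hom rA (fun l => σ (s l)) := by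
        refine MvPolynomial.ringHom_ext ?_ ?_
        · intro r
          simp
        · intro l
          simp [sQ, hσ']
      rw [MvPolynomial.eval₂_map, hrσ]
      exact hy t
    have hlamσ : ∀ i, MvPolynomial.eval₂ rA (fun l => σ (s l)) (f i) /
        (MvPolynomial.eval₂ rA (fun l => σ (s l)) P ^ w i *
          MvPolynomial.eval₂ rA (fun l => σ (s l)) (g i)) = rA (lam i) := by
      intro i
      show _ = rA (_ / _)
      rw [map_div₀, map_mul, map_pow, hrAσ, hrAσ, hrAσ]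
    obtain ⟨hfinZ, hmain⟩ := hG φ sQ hsN (fun l => hapxB (s l) (hs l)) hPs hE₁s w
      (fun i => ⟨hw i, Finset.single_le_sum (f := w) (fun _ _ => Nat.zero_le _)
        (Finset.mem_univ i)⟩) e' he' lam (fun i => ⟨by rw [hlam]; exact hvaln _ _ (hvlam i),
        by rw [hlamp]; exact hNr _ (hvlam2 i), by rw [hlamp]; exact hapxB _ (hvlam2 i)⟩) Γ (by
        intro γ hγ
        obtain ⟨c, hc, hcγ⟩ := hΓ hγ
        exact ⟨σ' c, by rw [hσ', hcγ], Nr_le (hNr c hc)⟩)
    refine ⟨fun r' Z hr => ?_, ?_⟩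
    · refine ((hfinZ r' Z hr).image fun y i => rA (lam i) * y i).subset ?_
      rintro x ⟨⟨y, hy, hxy⟩, hxZ⟩
      have hxfun : x = fun i => rA (lam i) * y i := funext fun i => by rw [hxy i, hlamσ]
      rw [hxfun] at hxZ
      exact ⟨y, ⟨hVF0 y hy, hxZ⟩, hxfun.symm⟩
    intro r' Z hr x hx hxZ
    obtain ⟨y, hy, hxy⟩ := hx
    have hVF := hVF0 y hy
    have hxlam : ∀ i, x i = rA (lam i) * y i := by
      intro i
      rw [hxy i, hlamσ]
    have hxfun : x = fun i => rA (lam i) * y i := funext hxlam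
    rw [hxfun] at hxZ
    obtain ⟨Y, hY, hob, hconst, hgood⟩ := hmain r' Z hr y hVF hxZ
    have hYF : ∀ t, MvPolynomial.eval (chv none Y)
        (MvPolynomial.map (MvPolynomial.eval sQ) (F t)) = 0 := by
      intro t
      apply rA.injective
      have h1 := hVF t
      have h2 : (fun i => rA (Y i)) = y := funext hY
      rw [← h2] at h1
      have h3 : chv none (fun i => rA (Y i)) = fun q => rA (chv none Y q) := chv_map rA none Y
      rw [h3] at h1
      rw [map_zero, ← h1, MvPolynomial.eval_eq', map_sum, MvPolynomial.eval₂_eq']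
      refine Finset.sum_congr rfl fun m _ => ?_
      rw [map_mul, map_prod]
      simp only [map_pow]
    have hNR := hnr C p (by omega) hp1 φ sQ hs1 hPne hPs hE₂s hfs hgs
      (fun i => lam i * Y i) Y (fun i => rfl) hYF hob
    have hxi : ∀ i, x i = rA (lam i * Y i) := by
      intro i
      rw [hxlam, map_mul, hY]
    refine ⟨fun i => ‖φ (Y i)‖ ≠ 1, ?_, hconst, ?_, ?_, ?_, ?_⟩
    · intro j l hj hl
      by_contra hjl
      rcases hob j l hjl with h | h
      · exact hj h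
      · exact hl h
    · intro j l c hjl hcj hcl hj hl
      rw [not_not] at hj hl
      rw [hxi, hxi]
      exact hgood j l c hjl hcj hcl hj hl
    · intro a j l ha hjl hja hla
      rw [hxi, hxi]
      exact hNR.b1 a j l ha hjl hja hla
    · intro a j l ha hjl hja hla
      rw [hxi, hxi, hxi]
      exact hNR.b2 a j l ha hjl hja hla
    · intro hall j l j' l' hjl hjl'
      rw [hxi, hxi, hxi, hxi]
      exact hNR.b3 (fun i => by
        have := hall i
        rwa [not_not] at this) j l j' l' hjl hjl'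
  choose G hG using key
  refine ⟨∑ p ∈ Finset.range (B + 1), G p, ?_⟩
  intro K _ _ σ v p s hQp hcard hAt Γ hΓ
  have hpB : p ≤ B := (p_le_card v hAt.prime hAt.lies).trans hcard
  obtain ⟨hfinZ, hmain⟩ := hG p hAt.prime hQp K σ v s hcard hAt Γ hΓ
  refine ⟨hfinZ, ?_⟩
  intro r' Z hr x hx hxZ
  obtain ⟨bad, hPC⟩ := hmain r' Z hr x hx hxZ
  have hle : G p ≤ ∑ p ∈ Finset.range (B + 1), G p :=
    Finset.single_le_sum (f := G) (fun _ _ => Nat.zero_le _) (Finset.mem_range.2 (by omega))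
  refine ⟨bad, hPC.one, hPC.const, ?_, hPC.b1, hPC.b2, hPC.b3⟩
  intro j l c hjl hcj hcl hj hl
  obtain ⟨N, hN0, hN, hΨ⟩ := hPC.good j l c hjl hcj hcl hj hl
  exact ⟨N, hN0, hN.trans hle, hΨ⟩

end Pool.Agent.Q170.UZ
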