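import Pool.Agent.Q170.UZ.FamC

/-!
# Approximation of the coefficients of the members of a family
-/

set_option autoImplicit false
set_option linter.unusedSectionVars false

open UpperHalfPlane H294ZP Polynomial IsDedekindDomain NumberField

namespace Pool.Agent.Q170.UZ

open Pool.Agent.Y226 Pool.Agent.Y226.ZG Pool.Agent.Y226.ZM Pool.Agent.Y226.ZU Pool.Agent.Y92.ZX
open Pool.Agent.Q170.FP

section

variable {C : Type} [NormedField C] [IsUltrametricDist C]

/-- products of near numbers are near -/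
theorem prod_near {τ : Type} (S : Finset τ) (a b : τ → C) {δ : ℝ} (hδ : 0 ≤ δ)
    (ha : ∀ i, ‖a i‖ ≤ 1) (hb : ∀ i, ‖b i‖ ≤ 1) (h : ∀ i, ‖a i - b i‖ ≤ δ) :
    ‖∏ i ∈ S, a i - ∏ i ∈ S, b i‖ ≤ δ := by
  classical
  induction S using Finset.induction_on with
  | empty => simpa using hδ
  | insert i S hi ih =>
    rw [Finset.prod_insert hi, Finset.prod_insert hi]
    have e : a i * ∏ x ∈ S, a x - b i * ∏ x ∈ S, b x =
        (a i - b i) * ∏ x ∈ S, a x + b i * (∏ x ∈ S, a x - ∏ x ∈ S, b x) := by ring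
    rw [e]
    refine nadd_le (nmul_le' (h i) ?_) (nmul_le (hb i) ih)
    exact nprod_le _ _ fun j _ => ha j

/-- the roots of the minimal polynomial -/
noncomputable def rts (C : Type) [NormedField C] [CharZero C] (a : QA) : Finset C := by
  classical
  exact ((minpoly ℚ a).aroots C).toFinset

theorem mem_rts [CharZero C] (a : QA) (φ : QA →+* C) : φ a ∈ rts C a := by
  classical
  have halg : IsAlgebraic ℚ a := Algebra.IsAlgebraic.isAlgebraic _
  have hmin : minpoly ℚ a ≠ 0 := minpoly.ne_zero halg.isIntegral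
  unfold rts
  rw [Multiset.mem_toFinset, mem_aroots]
  refine ⟨hmin, ?_⟩
  have h1 : aeval (φ.toRatAlgHom a) (minpoly ℚ a) = 0 := by
    rw [aeval_algHom_apply, minpoly.aeval, map_zero]
  exact h1

/-- values of a polynomial are near a finite set -/
theorem apx_poly [CharZero C] {r : ℕ} (f : MvPolynomial (Fin r) QA) (T : Finset C) (δ : ℝ)
    (hδ : 0 ≤ δ) (hδ1 : δ ≤ 1) : ∃ Θ : Finset C, ∀ φ : QA →+* C,
    (∀ m, ‖φ (f.coeff m)‖ ≤ 1) → ∀ s : Fin r → QA, (∀ l, ‖φ (s l)‖ ≤ 1) →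
    (∀ l, ∃ θ ∈ T, ‖φ (s l) - θ‖ ≤ δ) →
    ∃ θ ∈ Θ, ‖φ (MvPolynomial.eval s f) - θ‖ ≤ δ := by
  classical
  let X := (m : f.support) → rts C (f.coeff m)
  let Y := Fin r → T
  let v : X × Y → C := fun q => ∑ m : f.support, (q.1 m : C) * ∏ l, (q.2 l : C) ^ (m : _ →₀ ℕ) l
  have hfin : (Set.range v).Finite := Set.finite_range v
  refine ⟨hfin.toFinset, ?_⟩
  intro φ hf s hs hsT
  choose θ hθ hθ' using hsT
  refine ⟨v (fun m => ⟨φ (f.coeff m), mem_rts _ φ⟩, fun l => ⟨θ l, hθ l⟩), by simp, ?_⟩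
  have hθ1 : ∀ l, ‖θ l‖ ≤ 1 := by
    intro l
    have e : θ l = φ (s l) - (φ (s l) - θ l) := by ring
    rw [e]
    exact nsub_le (hs l) ((hθ' l).trans hδ1)
  have e1 : φ (MvPolynomial.eval s f) =
      ∑ m : f.support, φ (f.coeff m) * ∏ l, φ (s l) ^ (m : _ →₀ ℕ) l := by
    rw [MvPolynomial.eval_eq', map_sum, ← Finset.sum_coe_sort]
    refine Finset.sum_congr rfl fun m _ => ?_
    rw [map_mul, map_prod]
    simp only [map_pow]
  rw [e1]
  simp only [v]
  rw [← Finset.sum_sub_distrib]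
  refine nsum_le _ _ hδ fun m _ => ?_
  rw [← mul_sub]
  refine nmul_le (hf _) (prod_near _ _ _ hδ (fun l => npow_le (hs l) _)
    (fun l => npow_le (hθ1 l) _) fun l => npow_sub_pow (hs l) (hθ1 l) (hθ' l) _)

end

/-- The coefficients of the models are near a finite set. -/
theorem apx_fam {n r : ℕ} {κ : Type} [Finite κ]
    (F : κ → MvPolynomial (Fin n × Bool) (MvPolynomial (Fin r) QA)) :
    ∃ Q δ : ℕ, ∀ (C : Type) [NormedField C] [IsUltrametricDist C] [CompleteSpace C] [CharZero C]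
      [IsAlgClosed C] (p : ℕ) [Fact p.Prime], Q < p → ‖(p : C)‖ < 1 → ∀ T : Finset C,
    ∃ Θ : Finset C, T ⊆ Θ ∧ ∀ (φ : QA →+* C) (s : Fin r → QA), (∀ l, ‖φ (s l)‖ ≤ 1) →
      (∀ l, ∃ θ ∈ T, ‖φ (s l) - θ‖ ≤ ‖(p : C)‖ ^ 2) →
      ∀ FN : κ → MvPolynomial (Fin n × Bool) (Nr C p),
      (∀ t, MvPolynomial.map (Nr C p).subtype (FN t) =
        MvPolynomial.map (φ.comp (MvPolynomial.eval s)) (F t)) → Apx Θ δ FN := by
  classical
  have := Fintype.ofFinite κ
  choose Dn hDn using nr_large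
  let S : Finset QA := Finset.univ.biUnion fun t : κ => (F t).support.biUnion fun m =>
    ((F t).coeff m).support.image ((F t).coeff m).coeff
  let δ : ℕ := ∑ t : κ, ∑ m ∈ (F t).support, ∑ q, m q
  refine ⟨S.sup Dn, δ, ?_⟩
  intro C _ _ _ _ _ p hpf hp hp1 T
  have hint : ∀ φ : QA →+* C, ∀ t m m', ‖φ (((F t).coeff m).coeff m')‖ ≤ 1 := by
    intro φ t m m'
    by_cases h0 : ((F t).coeff m).coeff m' = 0
    · rw [h0, map_zero, norm_zero]
      exact zero_le_one
    · have h1 : (F t).coeff m ≠ 0 := by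
        intro h
        rw [h, MvPolynomial.coeff_zero] at h0
        exact h0 rfl
      have h2 : ((F t).coeff m).coeff m' ∈ S := by
        simp only [S, Finset.mem_biUnion, Finset.mem_univ, true_and, Finset.mem_image]
        exact ⟨t, m, MvPolynomial.mem_support_iff.2 h1, m', MvPolynomial.mem_support_iff.2 h0, rfl⟩
      have h3 : Dn (((F t).coeff m).coeff m') ≤ S.sup Dn := Finset.le_sup h2
      exact Nr_le (hDn _ p (by omega) C φ hp1)
  have hp2 : ‖(p : C)‖ ^ 2 ≤ 1 := pow_le_one₀ (norm_nonneg _) hp1.le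
  choose Θ hΘ using fun q : κ × ((Fin n × Bool) →₀ ℕ) =>
    apx_poly (C := C) ((F q.1).coeff q.2) T (‖(p : C)‖ ^ 2) (sq_nonneg _) hp2
  let Θ' : Finset C := T ∪ {0} ∪ Finset.univ.biUnion fun t : κ => (F t).support.biUnion fun m =>
    Θ (t, m)
  refine ⟨Θ', fun x hx => by simp only [Θ', Finset.mem_union]; exact Or.inl (Or.inl hx), ?_⟩
  intro φ s hs hsT FN hFN
  have hcoef : ∀ t m, ((MvPolynomial.coeff m (FN t) : Nr C p) : C) =
      φ (MvPolynomial.eval s ((F t).coeff m)) := by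
    intro t m
    have h1 := congrArg (MvPolynomial.coeff m) (hFN t)
    rw [MvPolynomial.coeff_map, MvPolynomial.coeff_map] at h1
    exact h1
  constructor
  · intro t m hm q
    have h1 : m ∈ (F t).support := by
      rw [MvPolynomial.mem_support_iff] at hm ⊢
      intro h0
      apply hm
      apply Subtype.ext
      rw [hcoef, h0, map_zero, map_zero]
      rfl
    calc m q ≤ ∑ q, m q := Finset.single_le_sum (f := fun q => m q) (fun _ _ => Nat.zero_le _)
          (Finset.mem_univ q)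
      _ ≤ ∑ m ∈ (F t).support, ∑ q, m q :=
        Finset.single_le_sum (f := fun m : (Fin n × Bool) →₀ ℕ => ∑ q, m q)
          (fun _ _ => Nat.zero_le _) h1
      _ ≤ δ := Finset.single_le_sum (f := fun t : κ => ∑ m ∈ (F t).support, ∑ q, m q)
          (fun _ _ => Nat.zero_le _) (Finset.mem_univ t)
  · intro t m
    rw [hcoef]
    by_cases hm : (F t).coeff m = 0
    · refine ⟨0, by simp [Θ'], ?_⟩
      rw [hm, map_zero, map_zero, sub_zero, norm_zero]
      exact sq_nonneg _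
    · obtain ⟨θ, hθ, h1⟩ := hΘ (t, m) φ (hint φ t m) s hs hsT
      refine ⟨θ, ?_, h1⟩
      simp only [Θ', Finset.mem_union, Finset.mem_biUnion, Finset.mem_univ, true_and]
      exact Or.inr ⟨t, m, MvPolynomial.mem_support_iff.2 hm, hθ⟩

end Pool.Agent.Q170.UZ
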