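import Pool.Agent.Q170.UZ.NF

/-!
# The local theorem, uniformly for all models with coefficients in an unramified ring
-/

set_option autoImplicit false
set_option linter.unusedSectionVars false

open UpperHalfPlane H294ZP Polynomial

namespace Pool.Agent.Q170.UZ

open Pool.Agent.Y226 Pool.Agent.Y226.ZG Pool.Agent.Y92.ZX

/-- the data for the local theorem exist, with bounds -/
def Good {C : Type} [NormedField C] [IsUltrametricDist C] {p : ℕ} [Fact p.Prime] {𝕜 : Type}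
    [Field 𝕜] {n : ℕ} {κ : Type} (W B : ℕ) (ρ : Nr C p →+* 𝕜)
    (F : κ → MvPolynomial (Fin n × Bool) (Nr C p)) : Prop :=
  (∀ t, MHom (F t)) ∧ Cor ρ F ∧ ∃ (N M d D : ℕ) (𝓡 : RD 𝕜 n N W M d D), 0 < N ∧ N ≤ B ∧
    W * N + W ≤ M ∧ M ≤ B ∧ d ≤ B ∧ D ≤ B ∧ RDB 𝓡 B ∧ Mem ρ F 𝓡

section code

variable {C : Type} [NormedField C] [IsUltrametricDist C] {p : ℕ} [hpf : Fact p.Prime]
  {𝕜 : Type} [Field 𝕜] {n : ℕ}

/-- a monomial -/
noncomputable def mon {δ : ℕ} (m : Fin n × Bool → Fin (δ + 1)) : (Fin n × Bool) →₀ ℕ :=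
  Finsupp.equivFunOnFinite.symm fun q => (m q : ℕ)

/-- the class of a family of forms modulo the square of `p` -/
def code {κ : Type} (Θ : Finset C) (δ : ℕ) (F : κ → MvPolynomial (Fin n × Bool) (Nr C p)) :
    Set ((Fin n × Bool → Fin (δ + 1)) → Θ) :=
  {g | ∃ t, ∀ m, ‖((MvPolynomial.coeff (mon m) (F t) : Nr C p) : C) - (g m : C)‖ ≤ ‖(p : C)‖ ^ 2}

/-- all coefficients are near elements of `Θ`, and the degrees are bounded -/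
def Apx {κ : Type} (Θ : Finset C) (δ : ℕ) (F : κ → MvPolynomial (Fin n × Bool) (Nr C p)) : Prop :=
  (∀ t, ∀ m ∈ (F t).support, ∀ q, m q ≤ δ) ∧
    ∀ t m, ∃ θ ∈ Θ, ‖((MvPolynomial.coeff m (F t) : Nr C p) : C) - θ‖ ≤ ‖(p : C)‖ ^ 2

theorem code_near {κ κ₀ : Type} {Θ : Finset C} {δ : ℕ}
    {F : κ → MvPolynomial (Fin n × Bool) (Nr C p)}
    {F₀ : κ₀ → MvPolynomial (Fin n × Bool) (Nr C p)} (hF : Apx Θ δ F) (hF₀ : Apx Θ δ F₀)
    (h : code Θ δ F = code Θ δ F₀) (t₀ : κ₀) : ∃ t, ∀ m,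
      ‖((MvPolynomial.coeff m (F₀ t₀) : Nr C p) : C) -
        ((MvPolynomial.coeff m (F t) : Nr C p) : C)‖ ≤ ‖(p : C)‖ ^ 2 := by
  classical
  choose g hg hg' using fun m : Fin n × Bool → Fin (δ + 1) => hF₀.2 t₀ (mon m)
  have h1 : (fun m => (⟨g m, hg m⟩ : Θ)) ∈ code Θ δ F₀ := ⟨t₀, hg'⟩
  rw [← h] at h1
  obtain ⟨t, ht⟩ := h1
  refine ⟨t, fun m => ?_⟩
  by_cases hm : ∀ q, m q ≤ δ
  · obtain ⟨m', rfl⟩ : ∃ m' : Fin n × Bool → Fin (δ + 1), mon m' = m := by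
      refine ⟨fun q => ⟨m q, by have := hm q; omega⟩, ?_⟩
      ext q
      simp [mon]
    have e : ((MvPolynomial.coeff (mon m') (F₀ t₀) : Nr C p) : C) -
        ((MvPolynomial.coeff (mon m') (F t) : Nr C p) : C) =
        (((MvPolynomial.coeff (mon m') (F₀ t₀) : Nr C p) : C) - g m') -
        (((MvPolynomial.coeff (mon m') (F t) : Nr C p) : C) - g m') := by ring
    rw [e]
    exact nsub_le (hg' m') (ht m')
  · have e1 : MvPolynomial.coeff m (F₀ t₀) = 0 := by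
      rw [← MvPolynomial.notMem_support_iff]
      exact fun h' => hm (hF₀.1 t₀ m h')
    have e2 : MvPolynomial.coeff m (F t) = 0 := by
      rw [← MvPolynomial.notMem_support_iff]
      exact fun h' => hm (hF.1 t m h')
    rw [e1, e2, sub_self, norm_zero]
    exact sq_nonneg _

/-- equal reductions -/
theorem near_map {ρ : Nr C p →+* 𝕜} (hp1 : ‖(p : C)‖ < 1)
    (hρ0 : ∀ r : Nr C p, ρ r = 0 ↔ ‖(r : C)‖ < 1) {f g : MvPolynomial (Fin n × Bool) (Nr C p)}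
    (h : ∀ m, ‖((MvPolynomial.coeff m f : Nr C p) : C) -
        ((MvPolynomial.coeff m g : Nr C p) : C)‖ ≤ ‖(p : C)‖ ^ 2) :
    MvPolynomial.map ρ f = MvPolynomial.map ρ g := by
  ext m
  rw [MvPolynomial.coeff_map, MvPolynomial.coeff_map, ← sub_eq_zero, ← map_sub, hρ0]
  exact (h m).trans_lt (pow_lt_one₀ (norm_nonneg _) hp1 two_ne_zero)

theorem chI_eq {ρ : Nr C p →+* 𝕜} {κ κ₀ : Type} {F : κ → MvPolynomial (Fin n × Bool) (Nr C p)}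
    {F₀ : κ₀ → MvPolynomial (Fin n × Bool) (Nr C p)}
    (h1 : ∀ t₀, ∃ t, MvPolynomial.map ρ (F₀ t₀) = MvPolynomial.map ρ (F t))
    (h2 : ∀ t, ∃ t₀, MvPolynomial.map ρ (F t) = MvPolynomial.map ρ (F₀ t₀))
    (a : Option (Fin n)) : chI ρ F a = chI ρ F₀ a := by
  have key : ∀ f : MvPolynomial (Fin n × Bool) (Nr C p),
      MvPolynomial.eval₂ ((MvPolynomial.C : 𝕜 →+* MvPolynomial (Fin n) 𝕜).comp ρ)
        (chv a MvPolynomial.X) f =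
      MvPolynomial.eval₂ (MvPolynomial.C : 𝕜 →+* MvPolynomial (Fin n) 𝕜)
        (chv a MvPolynomial.X) (MvPolynomial.map ρ f) := fun f => by
    rw [MvPolynomial.eval₂_map]
  unfold chI
  congr 1
  ext x
  constructor
  · rintro ⟨t, rfl⟩
    obtain ⟨t₀, h⟩ := h2 t
    exact ⟨t₀, by
      show MvPolynomial.eval₂ _ _ _ = MvPolynomial.eval₂ _ _ _
      rw [key, key, h]⟩
  · rintro ⟨t₀, rfl⟩
    obtain ⟨t, h⟩ := h1 t₀
    exact ⟨t, by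
      show MvPolynomial.eval₂ _ _ _ = MvPolynomial.eval₂ _ _ _
      rw [key, key, h]⟩

end code

/-- The local theorem, uniformly for all models with coefficients near a finite set. -/
theorem unifC {C : Type} [NormedField C] [IsUltrametricDist C] [CompleteSpace C] [CharZero C]
    [IsAlgClosed C] {p : ℕ} [hpf : Fact p.Prime] {k 𝕜 : Type} [Field k] [CharP k p]
    [IsAlgClosed k] [Field 𝕜] (red : OO C →+* k) (hker : ∀ x : OO C, red x = 0 ↔ ‖(x : C)‖ < 1)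
    (hp0 : 0 < ‖(p : C)‖) (hp1 : ‖(p : C)‖ < 1) (ρ : Nr C p →+* 𝕜)
    (hρs : Function.Surjective ρ) (ι : 𝕜 →+* k) (hι : ∀ r : Nr C p, ι (ρ r) = red ⟨r, Nr_le r.2⟩)
    (n W B δ : ℕ) (hB : 0 < B)
    (hb : 16 * B ^ 2 * B ^ 2 + (16 * B ^ 2 + 2) + (B + 2) + W + 2 * B ^ 2 +
      (B * (B + 1) + 1) + (B ^ 2 + 1) < p) (Θ : Finset C) (pu : Cˣ) (hpu : (pu : C) = p) :
    ∃ G : ℕ, ∀ (κ : Type) (F : κ → MvPolynomial (Fin n × Bool) (Nr C p)), Good W B ρ F →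
    Apx Θ δ F → ∀ (w : Fin n → ℕ), (∀ i, 0 < w i ∧ w i ≤ W) → ∀ e : ℕ, 0 < e →
    ∀ Λ : Fin n → Cˣ, (∀ i, Λ i * pu ^ (w i * e) ∈ GG C p 0 le_rfl one_pos) →
    (∀ i, ∃ θ ∈ Θ, ‖((Λ i * pu ^ (w i * e) : Cˣ) : C) - θ‖ ≤ ‖(p : C)‖ ^ 2) →
    ∀ (φ : QA →+* C) (X : Fin n → QA) (x : Fin n → C),
    (∀ t, MvPolynomial.eval₂ (Nr C p).subtype (chv none x) (F t) = 0) →
    (∀ i, φ (X i) = Λ i * x i) →
    ∀ (r : ℕ) (cls : Fin n → Option (Fin r)), r + 2 ≤ n →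
    (∀ i, cls i = none → ‖φ (X i)‖ ≤ 1) →
    (∀ j l c, j ≠ l → cls j = some c → cls l = some c → ∃ (w w' : ℍ) (a b c' d' : ℤ),
      0 < a * d' - b * c' ∧ (w' : ℂ) * (c' * w + d') = a * w + b ∧ rA (X j) = jj w ∧
      rA (X l) = jj w') → (∀ i, cls i = none → ‖x i‖ ≠ 1) ∧
      ∀ j l : Fin n, j ≠ l → (∃ c, cls j = some c ∧ cls l = some c) → ‖x j‖ = 1 → ‖x l‖ = 1 →
      ∃ N' : ℕ, 0 < N' ∧ N' ≤ G ∧ PsiE ιZ (mP N') (mD N') (rA (X j)) (rA (X l)) = 0 := by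
  classical
  have hρ0 : ∀ r : Nr C p, ρ r = 0 ↔ ‖(r : C)‖ < 1 := by
    intro r
    rw [← map_eq_zero ι, hι, hker]
  -- the values of the first coefficient
  let Ξ : Finset C := ((minpoly ℚ (iA (cj 1))).aroots C).toFinset
  have hΞ : ∀ φ : QA →+* C, φ (iA (cj 1)) ∈ Ξ := by
    intro φ
    have halg : IsAlgebraic ℚ (iA (cj 1)) := Algebra.IsAlgebraic.isAlgebraic _
    have hmin : minpoly ℚ (iA (cj 1)) ≠ 0 := minpoly.ne_zero halg.isIntegral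
    rw [Multiset.mem_toFinset, mem_aroots]
    refine ⟨hmin, ?_⟩
    have h1 : aeval (φ.toRatAlgHom (iA (cj 1))) (minpoly ℚ (iA (cj 1))) = 0 := by
      rw [aeval_algHom_apply, minpoly.aeval, map_zero]
    exact h1
  -- the classes
  let Cl := Set ((Fin n × Bool → Fin (δ + 1)) → Θ) × (Fin n → Θ) × (Fin n → Fin (W + 1)) ×
    Bool × Ξ
  have hCl : Finite Cl := inferInstance
  have key : ∀ c : Cl, ∃ G : ℕ, ∀ (κ : Type) (F : κ → MvPolynomial (Fin n × Bool) (Nr C p)),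
      Good W B ρ F → Apx Θ δ F → code Θ δ F = c.1 → ∀ (w : Fin n → ℕ),
      (∀ i, 0 < w i ∧ w i ≤ W) → (∀ i, (w i : ℕ) = c.2.2.1 i) → ∀ e : ℕ, 0 < e →
      (e = 1 ↔ c.2.2.2.1 = true) → ∀ Λ : Fin n → Cˣ,
      (∀ i, Λ i * pu ^ (w i * e) ∈ GG C p 0 le_rfl one_pos) →
      (∀ i, ‖((Λ i * pu ^ (w i * e) : Cˣ) : C) - (c.2.1 i : C)‖ ≤ ‖(p : C)‖ ^ 2) →
      ∀ (φ : QA →+* C), φ (iA (cj 1)) = c.2.2.2.2 → ∀ (X : Fin n → QA) (x : Fin n → C),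
      (∀ t, MvPolynomial.eval₂ (Nr C p).subtype (chv none x) (F t) = 0) →
      (∀ i, φ (X i) = Λ i * x i) →
      ∀ (r : ℕ) (cls : Fin n → Option (Fin r)), r + 2 ≤ n →
      (∀ i, cls i = none → ‖φ (X i)‖ ≤ 1) →
      (∀ j l c, j ≠ l → cls j = some c → cls l = some c → ∃ (w w' : ℍ) (a b c' d' : ℤ),
        0 < a * d' - b * c' ∧ (w' : ℂ) * (c' * w + d') = a * w + b ∧ rA (X j) = jj w ∧
        rA (X l) = jj w') → (∀ i, cls i = none → ‖x i‖ ≠ 1) ∧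
        ∀ j l : Fin n, j ≠ l → (∃ c, cls j = some c ∧ cls l = some c) → ‖x j‖ = 1 → ‖x l‖ = 1 →
        ∃ N' : ℕ, 0 < N' ∧ N' ≤ G ∧ PsiE ιZ (mP N') (mD N') (rA (X j)) (rA (X l)) = 0 := by
    intro c
    by_cases hex : ∃ (κ₀ : Type) (F₀ : κ₀ → MvPolynomial (Fin n × Bool) (Nr C p))
        (w : Fin n → ℕ) (e₀ : ℕ) (Λ₀ : Fin n → Cˣ) (φ₀ : QA →+* C), Good W B ρ F₀ ∧
        Apx Θ δ F₀ ∧ code Θ δ F₀ = c.1 ∧ (∀ i, 0 < w i ∧ w i ≤ W) ∧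
        (∀ i, (w i : ℕ) = c.2.2.1 i) ∧ 0 < e₀ ∧ (e₀ = 1 ↔ c.2.2.2.1 = true) ∧
        (∀ i, Λ₀ i * pu ^ (w i * e₀) ∈ GG C p 0 le_rfl one_pos) ∧
        (∀ i, ‖((Λ₀ i * pu ^ (w i * e₀) : Cˣ) : C) - (c.2.1 i : C)‖ ≤ ‖(p : C)‖ ^ 2) ∧
        φ₀ (iA (cj 1)) = c.2.2.2.2
    · obtain ⟨κ₀, F₀, w₀, e₀, Λ₀, φ₀, hG₀, hA₀, hc₀, hw₀, hwc₀, he₀, hec₀, hΛ₀, hΛc₀, hφ₀⟩ := hex
      obtain ⟨-, -, N, M, d, D, 𝓡, hN, hNB, hM, hMB, hdB, hDB, hRB, hmem₀⟩ := hG₀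
      have e1 : 16 * D ^ 2 * d ^ 2 ≤ 16 * B ^ 2 * B ^ 2 := by gcongr
      have e2 : 16 * d ^ 2 + 2 ≤ 16 * B ^ 2 + 2 := by gcongr
      have e3 : 2 * M ^ 2 ≤ 2 * B ^ 2 := by gcongr
      have e4 : B * (D + 1) + 1 ≤ B * (B + 1) + 1 := by gcongr
      obtain ⟨G, hG⟩ := locU red hker hp0 hp1 ρ hρs ι hι 𝓡 hRB (by omega) (by omega) (by omega)
        (by omega) (by omega) (by omega) (by omega) (by omega) hB hN hM F₀ hmem₀ w₀ hw₀ e₀ he₀ pu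
        hpu Λ₀ hΛ₀ φ₀
      refine ⟨G, ?_⟩
      intro κ F hGF hAF hcF w hw hwc e he hec Λ hΛ hΛc φ hφ X x hx hX r cls hr hcm hZ
      obtain ⟨hhom, hcor, -⟩ := hGF
      have hww : w = w₀ := by
        funext i
        rw [hwc, hwc₀]
      subst hww
      have hcode : code Θ δ F = code Θ δ F₀ := by rw [hcF, hc₀]
      have hnear := code_near hAF hA₀ hcode
      have hnear' := code_near hA₀ hAF hcode.symm
      have hchI := chI_eq (ρ := ρ) (F := F) (F₀ := F₀)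
        (fun t₀ => by
          obtain ⟨t, ht⟩ := hnear t₀
          exact ⟨t, near_map hp1 hρ0 ht⟩)
        (fun t => by
          obtain ⟨t₀, ht⟩ := hnear' t
          exact ⟨t₀, near_map hp1 hρ0 ht⟩)
      have hmem : Mem ρ F 𝓡 := by
        constructor
        · intro c' i s j h1 h2 h3
          rw [hchI]
          exact hmem₀.m1 c' i s j h1 h2 h3
        · intro c' v' w' h1 h2 h3 h4
          rw [hchI]
          exact hmem₀.m2 c' v' w' h1 h2 h3 h4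
      refine hG κ F hhom hcor hmem hnear e he (hec.trans hec₀.symm) Λ hΛ ?_ φ (hφ.trans hφ₀.symm)
        X x hx hX r cls hr hcm hZ
      intro i
      have e5 : ((Λ i * pu ^ (w i * e) : Cˣ) : C) - ((Λ₀ i * pu ^ (w i * e₀) : Cˣ) : C) =
          (((Λ i * pu ^ (w i * e) : Cˣ) : C) - (c.2.1 i : C)) -
          (((Λ₀ i * pu ^ (w i * e₀) : Cˣ) : C) - (c.2.1 i : C)) := by ring
      rw [e5]
      exact nsub_le (hΛc i) (hΛc₀ i)
    · refine ⟨0, ?_⟩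
      intro κ F hGF hAF hcF w hw hwc e he hec Λ hΛ hΛc φ hφ
      exact absurd ⟨κ, F, w, e, Λ, φ, hGF, hAF, hcF, hw, hwc, he, hec, hΛ, hΛc, hφ⟩ hex
  choose G hG using key
  obtain ⟨G', hG'⟩ := (Set.finite_range G).bddAbove
  refine ⟨G', ?_⟩
  intro κ F hGF hAF w hw e he Λ hΛ hΛc φ X x hx hX r cls hr hcm hZ
  choose θ hθ hθ' using hΛc
  let c : Cl := (code Θ δ F, fun i => ⟨θ i, hθ i⟩, fun i => ⟨w i, by have := (hw i).2; omega⟩,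
    decide (e = 1), ⟨φ (iA (cj 1)), hΞ φ⟩)
  obtain ⟨h1, h2⟩ := hG c κ F hGF hAF rfl w hw (fun i => rfl) e he
    (by simp [c]) Λ hΛ hθ' φ rfl X x hx hX r cls hr hcm hZ
  refine ⟨h1, fun j l hjl hc hj hl => ?_⟩
  obtain ⟨N', hN0, hN, hΨ⟩ := h2 j l hjl hc hj hl
  exact ⟨N', hN0, hN.trans (hG' ⟨c, rfl⟩), hΨ⟩

end Pool.Agent.Q170.UZ
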