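import Pool.Agent.Q170.UZ.Tame

/-!
# The local theorem, uniformly for all data near given ones

Adapted from `Pool.Agent.Y92.ZX.Core` (helper92, helper226).
-/

set_option autoImplicit false
set_option linter.unusedSectionVars false

open UpperHalfPlane H294ZP Polynomial

namespace Pool.Agent.Q170.UZ

open Pool.Agent.Y226 Pool.Agent.Y226.ZG Pool.Agent.Y92.ZX Pool.Agent.Y948.ZX

section near

variable {C : Type} [NormedField C] [IsUltrametricDist C] {p : ℕ} [hpf : Fact p.Prime]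
  {k 𝕜 : Type} [Field k] [Field 𝕜] {n N W M d D B : ℕ}

/-- The data `𝓛` are equal to the data `𝓛₀` modulo the square of `p`. -/
structure Near (𝓛 𝓛₀ : LB C p k 𝕜 n N W M d D B) : Prop where
  red : 𝓛.red = 𝓛₀.red
  ι : 𝓛.ι = 𝓛₀.ι
  𝓡 : 𝓛.𝓡 = 𝓛₀.𝓡
  Λ : ∀ (j l : Fin n) (A B₁ : ℕ), A ≤ W → B₁ ≤ W →
    𝓛.Λ l ^ B₁ * (𝓛.Λ j ^ A)⁻¹ ∈ GG C p 0 le_rfl one_pos →
    𝓛₀.Λ l ^ B₁ * (𝓛₀.Λ j ^ A)⁻¹ ∈ GG C p 0 le_rfl one_pos ∧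
    ‖((𝓛.Λ l ^ B₁ * (𝓛.Λ j ^ A)⁻¹ : Cˣ) : C) - ((𝓛₀.Λ l ^ B₁ * (𝓛₀.Λ j ^ A)⁻¹ : Cˣ) : C)‖ ≤
      ‖(p : C)‖ ^ 2
  κ : ∀ i, ‖𝓛.φ (iA (cj 1)) * ((p : C) * ((𝓛.Λ i : Cˣ) : C))⁻¹ -
    𝓛₀.φ (iA (cj 1)) * ((p : C) * ((𝓛₀.Λ i : Cˣ) : C))⁻¹‖ ≤ ‖(p : C)‖

variable {𝓛 𝓛₀ : LB C p k 𝕜 n N W M d D B}

theorem Near.exp (hN : Near 𝓛 𝓛₀) {κ κ₀ : Fin n → OO C}
    (hκ : ∀ i, ‖((κ i : OO C) : C) - κ₀ i‖ ≤ ‖(p : C)‖) {j l : Fin n} {A B₁ : ℕ} (hA : A ≤ W)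
    (hB : B₁ ≤ W) (hμ : 𝓛.Λ l ^ B₁ * (𝓛.Λ j ^ A)⁻¹ ∈ GG C p 0 le_rfl one_pos) {Y : Fin n → Cˣ}
    (hYj : ‖((Y j : Cˣ) : C)‖ = 1) (hYl : ‖((Y l : Cˣ) : C)‖ = 1) {z : Cˣ} (hz : ‖(z : C)‖ ≤ 1)
    (h : ‖((𝓛.Λ l ^ B₁ * (𝓛.Λ j ^ A)⁻¹ * (Y l ^ B₁ * (Y j ^ A)⁻¹) * z : Cˣ) : C) -
        (1 + p * (B₁ * (κ l * ((Y l : Cˣ) : C)⁻¹) - A * (κ j * ((Y j : Cˣ) : C)⁻¹)))‖ ≤
          ‖(p : C)‖ ^ 2) :
    ‖((𝓛₀.Λ l ^ B₁ * (𝓛₀.Λ j ^ A)⁻¹ * (Y l ^ B₁ * (Y j ^ A)⁻¹) * z : Cˣ) : C) -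
        (1 + p * (B₁ * (κ₀ l * ((Y l : Cˣ) : C)⁻¹) - A * (κ₀ j * ((Y j : Cˣ) : C)⁻¹)))‖ ≤
          ‖(p : C)‖ ^ 2 := by
  obtain ⟨-, hμ2⟩ := hN.Λ j l A B₁ hA hB hμ
  set μ := 𝓛.Λ l ^ B₁ * (𝓛.Λ j ^ A)⁻¹ with hμd
  set μ₀ := 𝓛₀.Λ l ^ B₁ * (𝓛₀.Λ j ^ A)⁻¹ with hμ₀d
  set F := Y l ^ B₁ * (Y j ^ A)⁻¹ with hFd
  have hF : ‖(F : C)‖ ≤ 1 := by
    rw [hFd]
    simp only [Units.val_mul, Units.val_inv_eq_inv_val, Units.val_pow_eq_pow_val, norm_mul,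
      norm_inv, norm_pow, hYj, hYl, one_pow, inv_one, mul_one]
    exact le_rfl
  have e : ((μ₀ * F * z : Cˣ) : C) -
        (1 + p * (B₁ * (κ₀ l * ((Y l : Cˣ) : C)⁻¹) - A * (κ₀ j * ((Y j : Cˣ) : C)⁻¹))) =
      (((μ * F * z : Cˣ) : C) -
        (1 + p * (B₁ * (κ l * ((Y l : Cˣ) : C)⁻¹) - A * (κ j * ((Y j : Cˣ) : C)⁻¹)))) -
        (((μ : Cˣ) : C) - μ₀) * (F * z) +
        p * (B₁ * ((κ l - κ₀ l) * ((Y l : Cˣ) : C)⁻¹) - A * ((κ j - κ₀ j) * ((Y j : Cˣ) : C)⁻¹)) := by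
    simp only [Units.val_mul]
    ring
  rw [e]
  refine nadd_le (nsub_le h (nmul_le' hμ2 ?_)) ?_
  · rw [norm_mul]
    exact mul_le_one₀ hF (norm_nonneg _) hz
  · rw [norm_mul, pow_two]
    refine mul_le_mul_of_nonneg_left ?_ (norm_nonneg _)
    have hi : ∀ i : Fin n, ‖((Y i : Cˣ) : C)‖ = 1 → ∀ c : ℕ,
        ‖(c : C) * (((κ i : OO C) - κ₀ i) * ((Y i : Cˣ) : C)⁻¹)‖ ≤ ‖(p : C)‖ := by
      intro i hi c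
      rw [norm_mul, norm_mul, norm_inv, hi, inv_one, mul_one]
      calc ‖(c : C)‖ * ‖((κ i : OO C) : C) - κ₀ i‖ ≤ 1 * ‖(p : C)‖ := by
            gcongr
            · exact nnat c
            · exact hκ i
        _ = ‖(p : C)‖ := one_mul _
    exact nsub_le (hi l hYl B₁) (hi j hYj A)

theorem Near.pb (hN : Near 𝓛 𝓛₀) {κ κ₀ : Fin n → OO C}
    (hκ : ∀ i, ‖((κ i : OO C) : C) - κ₀ i‖ ≤ ‖(p : C)‖) {Y : Fin n → Cˣ} {X : Fin n → QA}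
    {j l : Fin n} {A B₁ g' s : ℕ} {ζ' ε : Cˣ} (h : PB 𝓛 κ Y X j l A B₁ g' s ζ' ε)
    (hYj : ‖((Y j : Cˣ) : C)‖ = 1) (hYl : ‖((Y l : Cˣ) : C)‖ = 1) :
    PB 𝓛₀ κ₀ Y X j l A B₁ g' s ζ' ε where
  hA := h.hA
  hB := h.hB
  hAW := h.hAW
  hBW := h.hBW
  hg := h.hg
  hcop := h.hcop
  hζ := h.hζ
  hε := h.hε
  hμ := (hN.Λ j l A B₁ h.hAW h.hBW h.hμ).1
  hexp := hN.exp hκ h.hAW h.hBW h.hμ hYj hYl (by
    rw [Units.val_mul, norm_mul]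
    have h1 : ‖(ζ' : C)‖ ^ g' = 1 := by rw [← norm_pow, h.hζ.pow_eq_one, norm_one]
    have h2 : ‖(ζ' : C)‖ = 1 := (pow_eq_one_iff_of_nonneg (norm_nonneg _) h.hg.ne').1 h1
    have h3 : ‖(ε : C)‖ ^ p ^ s = 1 := by rw [← norm_pow, h.hε.pow_eq_one, norm_one]
    have h4 : ‖(ε : C)‖ = 1 := (pow_eq_one_iff_of_nonneg (norm_nonneg _)
      (pow_pos hpf.out.pos _).ne').1 h3
    rw [h2, h4, mul_one]) h.hexp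
  hrel := h.hrel

end near

/-- The numbers `κ`. -/
theorem exists_kappa {C : Type} [NormedField C] [IsUltrametricDist C] [CompleteSpace C]
    [CharZero C] [IsAlgClosed C] {p : ℕ} [hpf : Fact p.Prime]
    {k 𝕜 : Type} [Field k] [Field 𝕜] {n N W M d D B : ℕ} (𝓛 : LB C p k 𝕜 n N W M d D B) :
    ∃ κ : Fin n → OO C, (∀ i, (p : C) * κ i * 𝓛.Λ i = 𝓛.φ (iA (cj 1)) - 0) ∧
      ∀ i, ((κ i : OO C) : C) = 𝓛.φ (iA (cj 1)) * ((p : C) * ((𝓛.Λ i : Cˣ) : C))⁻¹ := by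
  have hp0 := 𝓛.hp0
  have hp1 := 𝓛.hp1
  have hpC : (p : C) ≠ 0 := norm_pos_iff.1 hp0
  have hΛpos : ∀ i, 0 < ‖((𝓛.Λ i : Cˣ) : C)‖ := fun i => norm_pos_iff.2 (𝓛.Λ i).ne_zero
  have hΛinv : ∀ i, ‖((𝓛.Λ i : Cˣ) : C)‖⁻¹ ≤ ‖(p : C)‖ := by
    intro i
    rw [Lam_norm 𝓛.hp0 𝓛.hpu (𝓛.hΛ i), inv_pow, inv_inv]
    exact pow_le_of_le_one (norm_nonneg _) 𝓛.hp1.le (Nat.mul_pos (𝓛.hw i).1 𝓛.he).ne'
  have hpL : ∀ i, 1 ≤ ‖(p : C) * ((𝓛.Λ i : Cˣ) : C)‖ := by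
    intro i
    have h1 := hΛinv i
    rw [inv_le_iff_one_le_mul₀ (hΛpos i)] at h1
    rw [norm_mul]
    exact h1
  have hpL0 : ∀ i, (p : C) * ((𝓛.Λ i : Cˣ) : C) ≠ 0 := fun i =>
    mul_ne_zero hpC (𝓛.Λ i).ne_zero
  refine ⟨fun i => ⟨𝓛.φ (iA (cj 1)) * ((p : C) * ((𝓛.Λ i : Cˣ) : C))⁻¹, ?_⟩, fun i => ?_,
    fun i => rfl⟩
  · rw [mem_OO]
    refine nmul_le (psi_norm 𝓛.φ (cj 1)) ?_
    rw [norm_inv]
    exact inv_le_one_of_one_le₀ (hpL i)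
  · show (p : C) * (𝓛.φ (iA (cj 1)) * ((p : C) * ((𝓛.Λ i : Cˣ) : C))⁻¹) * 𝓛.Λ i = _
    have := hpL0 i
    have h2 := (𝓛.Λ i).ne_zero
    field_simp
    ring

/-- The uniform local theorem. -/
def S_COREU : Prop := ∀ (C : Type) [NormedField C] [IsUltrametricDist C] [CompleteSpace C]
  [CharZero C] [IsAlgClosed C] (p : ℕ) [Fact p.Prime] (k 𝕜 : Type) [Field k] [CharP k p]
  [IsAlgClosed k] [Field 𝕜] (n N W M d D B : ℕ) (𝓛₀ : LB C p k 𝕜 n N W M d D B), ∃ G : ℕ,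
    ∀ 𝓛 : LB C p k 𝕜 n N W M d D B, Near 𝓛 𝓛₀ →
    ∀ (X : Fin n → QA) (x : Fin n → C), 𝓛.Pt x →
    ((∀ i, ‖x i‖ = 1) → PtB 𝓛₀.ρ 𝓛₀.𝓡 𝓛₀.ht 𝓛₀.rho x) → (∀ i, 𝓛.φ (X i) = 𝓛.Λ i * x i) →
    ∀ (r : ℕ) (cls : Fin n → Option (Fin r)), r + 2 ≤ n →
    (∀ i, cls i = none → ‖𝓛.φ (X i)‖ ≤ 1) →
    (∀ j l c, j ≠ l → cls j = some c → cls l = some c → ∃ (w w' : ℍ) (a b c' d' : ℤ),
      0 < a * d' - b * c' ∧ (w' : ℂ) * (c' * w + d') = a * w + b ∧ rA (X j) = jj w ∧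
      rA (X l) = jj w') → (∀ i, cls i = none → ‖x i‖ ≠ 1) ∧
      ∀ j l : Fin n, j ≠ l → (∃ c, cls j = some c ∧ cls l = some c) → ‖x j‖ = 1 → ‖x l‖ = 1 →
      ∃ N' : ℕ, 0 < N' ∧ N' ≤ G ∧ PsiE ιZ (mP N') (mD N') (rA (X j)) (rA (X l)) = 0

/-- The local theorem. -/
theorem coreU (hR : S_ROOT) (hW : S_WILD) (hWC : S_WILDCM) (hE : S_EXC) (hTa : S_TAMEB)
    (hO : S_ORD) : S_COREU := by
  classical
  intro C _ _ _ _ _ p hpf k 𝕜 _ _ _ _ n N W M d D B 𝓛₀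
  obtain ⟨κ₀, hκ₀, hκ₀v⟩ := exists_kappa 𝓛₀
  -- the tame sets
  let J := (Fin n × Fin n × Fin (W + 1) × Fin (W + 1)) × (Fin n × Fin n × Fin (W + 1) × Fin (W + 1))
  have hT : ∀ q : J, ∃ T : Set (Fin n → k), T.Finite ∧ (q.1.1 ≠ q.1.2.1 → q.2.1 ≠ q.2.2.1 →
      ¬ ((q.2.1 = q.1.1 ∧ q.2.2.1 = q.1.2.1) ∨ (q.2.1 = q.1.2.1 ∧ q.2.2.1 = q.1.1)) →
      0 < (q.1.2.2.1 : ℕ) → 0 < (q.1.2.2.2 : ℕ) → 0 < (q.2.2.2.2 : ℕ) →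
      𝓛₀.Λ q.1.2.1 ^ (q.1.2.2.2 : ℕ) * (𝓛₀.Λ q.1.1 ^ (q.1.2.2.1 : ℕ))⁻¹ ∈ GG C p 0 le_rfl one_pos →
      𝓛₀.Λ q.2.2.1 ^ (q.2.2.2.2 : ℕ) * (𝓛₀.Λ q.2.1 ^ (q.2.2.2.1 : ℕ))⁻¹ ∈ GG C p 0 le_rfl one_pos →
      ∀ (x : Fin n → C), PtB 𝓛₀.ρ 𝓛₀.𝓡 𝓛₀.ht 𝓛₀.rho x → ∀ (xO : Fin n → OO C)
      (Y : Fin n → Cˣ), (∀ i, (xO i : C) = x i) → (∀ i, (Y i : C) = xO i) →
      (∀ i, ‖(xO i : C)‖ = 1) →
      ∀ (ζ ζ' : Cˣ) (f f' : ℕ), 0 < f → (ζ : C) ^ p ^ f = ζ → 0 < f' → (ζ' : C) ^ p ^ f' = ζ' →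
      ‖((𝓛₀.Λ q.1.2.1 ^ (q.1.2.2.2 : ℕ) * (𝓛₀.Λ q.1.1 ^ (q.1.2.2.1 : ℕ))⁻¹ *
        (Y q.1.2.1 ^ (q.1.2.2.2 : ℕ) * (Y q.1.1 ^ (q.1.2.2.1 : ℕ))⁻¹) * ζ : Cˣ) : C) -
        (1 + p * ((q.1.2.2.2 : ℕ) * (κ₀ q.1.2.1 * ((Y q.1.2.1 : Cˣ) : C)⁻¹) -
          (q.1.2.2.1 : ℕ) * (κ₀ q.1.1 * ((Y q.1.1 : Cˣ) : C)⁻¹)))‖ ≤ ‖(p : C)‖ ^ 2 →
      ‖((𝓛₀.Λ q.2.2.1 ^ (q.2.2.2.2 : ℕ) * (𝓛₀.Λ q.2.1 ^ (q.2.2.2.1 : ℕ))⁻¹ *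
        (Y q.2.2.1 ^ (q.2.2.2.2 : ℕ) * (Y q.2.1 ^ (q.2.2.2.1 : ℕ))⁻¹) * ζ' : Cˣ) : C) -
        (1 + p * ((q.2.2.2.2 : ℕ) * (κ₀ q.2.2.1 * ((Y q.2.2.1 : Cˣ) : C)⁻¹) -
          (q.2.2.2.1 : ℕ) * (κ₀ q.2.1 * ((Y q.2.1 : Cˣ) : C)⁻¹)))‖ ≤ ‖(p : C)‖ ^ 2 →
      (fun i => 𝓛₀.red (xO i)) ∈ T) := by
    rintro ⟨⟨j, l, A, B₁⟩, ⟨j', l', A', B₁'⟩⟩
    by_cases h : j ≠ l ∧ j' ≠ l' ∧ ¬ ((j' = j ∧ l' = l) ∨ (j' = l ∧ l' = j)) ∧ 0 < (A : ℕ) ∧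
        0 < (B₁ : ℕ) ∧ 0 < (B₁' : ℕ) ∧
        𝓛₀.Λ l ^ (B₁ : ℕ) * (𝓛₀.Λ j ^ (A : ℕ))⁻¹ ∈ GG C p 0 le_rfl one_pos ∧
        𝓛₀.Λ l' ^ (B₁' : ℕ) * (𝓛₀.Λ j' ^ (A' : ℕ))⁻¹ ∈ GG C p 0 le_rfl one_pos
    · obtain ⟨h1, h2, h3, h4, h5, h6, h7, h8⟩ := h
      obtain ⟨T, hT, hT'⟩ := hTa C p k 𝕜 n N W M d D B 𝓛₀ κ₀ j l j' l' A B₁ A' B₁' h1 h2 h3 h4 h5 h6
        (Nat.lt_succ_iff.1 A.2) (Nat.lt_succ_iff.1 B₁.2) (Nat.lt_succ_iff.1 A'.2)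
        (Nat.lt_succ_iff.1 B₁'.2) h7 h8
      exact ⟨T, hT, fun _ _ _ _ _ _ _ _ => hT'⟩
    · exact ⟨∅, Set.finite_empty, fun h1 h2 h3 h4 h5 h6 h7 h8 =>
        absurd ⟨h1, h2, h3, h4, h5, h6, h7, h8⟩ h⟩
  choose T hTfin hTmem using hT
  set S : Set k := (⋃ q : Fin n × Bool × Fin n, ((fun y : (PowerSeries 𝕜)ˣ =>
      𝓛₀.ι (PowerSeries.coeff 0 (y : PowerSeries 𝕜))) '' {y | y ∈ 𝓛₀.𝓡.ys q.1 q.2.1 q.2.2})) ∪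
      ⋃ q : J × Fin n, (fun t : Fin n → k => t q.2) '' (T q.1) with hS
  have hSfin : S.Finite := by
    refine Set.Finite.union (Set.finite_iUnion fun q => Set.Finite.image _ ?_)
      (Set.finite_iUnion fun q => (hTfin q.1).image _)
    exact Multiset.finite_toSet _
  obtain ⟨G₁, hG₁⟩ := hO C p k 𝕜 n N W M d D B 𝓛₀ S hSfin
  refine ⟨W * W * (G₁ * p ^ 2) ^ 2, ?_⟩
  intro 𝓛 hNear X x hx hxB hX r cls hr hcm hZ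
  obtain ⟨κ, hκ, hκv⟩ := exists_kappa 𝓛
  have hκκ : ∀ i, ‖((κ i : OO C) : C) - κ₀ i‖ ≤ ‖(p : C)‖ := fun i => by
    rw [hκv, hκ₀v]
    exact hNear.κ i
  have hred := hNear.red
  have hp0 := 𝓛.hp0
  have hp1 := 𝓛.hp1
  have hpC : (p : C) ≠ 0 := norm_pos_iff.1 hp0
  have hΛpos : ∀ i, 0 < ‖((𝓛.Λ i : Cˣ) : C)‖ := fun i => norm_pos_iff.2 (𝓛.Λ i).ne_zero
  have hΛinv : ∀ i, ‖((𝓛.Λ i : Cˣ) : C)‖⁻¹ ≤ ‖(p : C)‖ := by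
    intro i
    rw [Lam_norm 𝓛.hp0 𝓛.hpu (𝓛.hΛ i), inv_pow, inv_inv]
    exact pow_le_of_le_one (norm_nonneg _) 𝓛.hp1.le (Nat.mul_pos (𝓛.hw i).1 𝓛.he).ne'
  have hXn : ∀ i, ‖𝓛.φ (X i)‖ = ‖((𝓛.Λ i : Cˣ) : C)‖ * ‖x i‖ := fun i => by
    rw [hX, norm_mul]
  have hbigp : ∀ i, ‖(p : C)‖ < ‖x i‖ → 1 < ‖𝓛.φ (X i)‖ := by
    intro i hi
    rw [hXn]
    have h1 := hΛinv i
    rw [inv_le_iff_one_le_mul₀ (hΛpos i)] at h1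
    have h2 := hΛpos i
    nlinarith
  -- the units
  have hYex : ∀ i, ∃ y : Cˣ, ‖x i‖ = 1 → (y : C) = x i := by
    intro i
    by_cases h : ‖x i‖ = 1
    · exact ⟨Units.mk0 (x i) (norm_pos_iff.1 (by rw [h]; exact one_pos)), fun _ => rfl⟩
    · exact ⟨1, fun h' => absurd h' h⟩
  choose Y hY using hYex
  have hYn : ∀ i, ‖x i‖ = 1 → ‖((Y i : Cˣ) : C)‖ = 1 := fun i hi => by rw [hY i hi]; exact hi
  have hgood1 : ∀ i, ‖x i‖ = 1 → 1 < ‖𝓛.φ (X i)‖ := fun i hi =>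
    hbigp i (by rw [hi]; exact hp1)
  have hnone : ∀ i, ‖x i‖ = 1 → cls i ≠ none := by
    intro i hi h
    exact absurd (hgood1 i hi) (not_lt.2 (hcm i h))
  -- information on pairs
  have hinfo : ∀ j l, j ≠ l → ‖x j‖ = 1 → ‖x l‖ = 1 → (∃ c, cls j = some c ∧ cls l = some c) →
      ∃ (A B₁ g' s : ℕ) (ζ' ε : Cˣ), PB 𝓛 κ Y X j l A B₁ g' s ζ' ε := by
    intro j l hjl hj hl ⟨c, hcj, hcl⟩
    obtain ⟨w, w', a, b, c', d', hdet, hrel, hw, hw'⟩ := hZ _ _ _ hjl hcj hcl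
    obtain ⟨A, B₁, g', s, ζ', ε, h1, h2, h3, h4, h5, h6, h7, h8, h9, h10, h11⟩ :=
      pair_info2 𝓛.φ 𝓛.hp0 𝓛.hp1 𝓛.hpu 𝓛.he (𝓛.hw j).1 (𝓛.hw l).1 (𝓛.hΛ j) (𝓛.hΛ l)
        (hκ j) (hκ l) (hYn j hj) (hYn l hl) (by rw [hX, hY j hj, add_zero])
        (by rw [hX, hY l hl, add_zero]) hdet hrel hw hw'
    refine ⟨A, B₁, g', s, ζ', ε, h1, h2, ?_, ?_, h5, h6, h7, h8, h9, h10, h11⟩
    · have h12 : A ∣ B₁ * 𝓛.w l := ⟨_, h4⟩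
      exact (Nat.le_of_dvd (𝓛.hw l).1 (h3.dvd_of_dvd_mul_left h12)).trans (𝓛.hw l).2
    · have h12 : B₁ ∣ A * 𝓛.w j := ⟨_, h4.symm⟩
      exact (Nat.le_of_dvd (𝓛.hw j).1 (h3.symm.dvd_of_dvd_mul_left h12)).trans (𝓛.hw j).2
  -- from the tame bound to the conclusion
  have hfin : ∀ j l, j ≠ l → ∀ (hj : ‖x j‖ = 1) (hl : ‖x l‖ = 1),
      𝓛.red ⟨x j, hj.le⟩ ∈ S → 𝓛.red ⟨x l, hl.le⟩ ∈ S →
      ∀ (A B₁ g' s : ℕ) (ζ' ε : Cˣ), PB 𝓛 κ Y X j l A B₁ g' s ζ' ε → s ≤ 2 →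
      ∃ N' : ℕ, 0 < N' ∧ N' ≤ W * W * (G₁ * p ^ 2) ^ 2 ∧
        PsiE ιZ (mP N') (mD N') (rA (X j)) (rA (X l)) = 0 := by
    intro j l hjl hj hl hSj hSl A B₁ g' s ζ' ε h hs
    have h1 := hG₁ κ₀ Y X j l A B₁ g' s ζ' ε (hNear.pb hκκ h (hYn j hj) (hYn l hl))
      ⟨x j, hj.le⟩ ⟨x l, hl.le⟩ (hY j hj).symm
      (hY l hl).symm (hYn j hj) (hYn l hl) (hred ▸ hSj) (hred ▸ hSl)
    refine ⟨A * B₁ * (g' * p ^ s) ^ 2, ?_, ?_, h.hrel⟩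
    · have h2 := hpf.out.pos
      have h3 := h.hA
      have h4 := h.hB
      have h5 := h.hg
      positivity
    · exact Nat.mul_le_mul (Nat.mul_le_mul h.hAW h.hBW) (Nat.pow_le_pow_left
        (Nat.mul_le_mul h1 (Nat.pow_le_pow_right hpf.out.pos hs)) 2)
  refine ⟨fun i hi h1 => hnone i h1 hi, fun J L hJL hJLc hJ1 hL1 => ?_⟩
  -- the combinatorics
  by_cases hall : ∀ i, ‖x i‖ = 1
  · obtain ⟨j, -, l, -, hjl, hc⟩ := coll cls Finset.univ (by simp; omega)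
      (fun x _ => hnone x (hall x))
    obtain ⟨j', hj', l', hl', hjl', hc'⟩ := coll cls (Finset.univ.erase l)
      (by rw [Finset.card_erase_of_mem (Finset.mem_univ l)]; simp; omega)
      (fun x _ => hnone x (hall x))
    have h1 := Finset.ne_of_mem_erase hj'
    have h2 := Finset.ne_of_mem_erase hl'
    have hne : ¬ ((j' = j ∧ l' = l) ∨ (j' = l ∧ l' = j)) := by
      rintro (⟨-, h⟩ | ⟨h, -⟩)
      · exact h2 h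
      · exact h1 h
    obtain ⟨A, B₁, g₁, s₁, ζ₁, ε₁, hP₁⟩ := hinfo j l hjl (hall j) (hall l) hc
    obtain ⟨A', B₁', g₂, s₂, ζ₂, ε₂, hP₂⟩ := hinfo j' l' hjl' (hall j') (hall l') hc'
    obtain ⟨rfl, rfl⟩ := no_wildB hW hx (hY j (hall j)) (hY l (hall l)) (hY j' (hall j'))
      (hY l' (hall l')) (hall j) (hall l) (hall j') (hall l') hjl hjl' hne hP₁ hP₂
    have hε₁ : ε₁ = 1 := Units.ext (by
      have := hP₁.hε.pow_eq_one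
      simpa using this)
    have hε₂ : ε₂ = 1 := Units.ext (by
      have := hP₂.hε.pow_eq_one
      simpa using this)
    obtain ⟨f₁, hf₁, hff₁⟩ := fixed_of_pow_eq_one (p := p) hP₁.hcop hP₁.hζ.pow_eq_one
    obtain ⟨f₂, hf₂, hff₂⟩ := fixed_of_pow_eq_one (p := p) hP₂.hcop hP₂.hζ.pow_eq_one
    have q₁ := hNear.pb hκκ hP₁ (hYn j (hall j)) (hYn l (hall l))
    have q₂ := hNear.pb hκκ hP₂ (hYn j' (hall j')) (hYn l' (hall l'))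
    have e₁ := q₁.hexp
    have e₂ := q₂.hexp
    rw [hε₁, mul_one] at e₁
    rw [hε₂, mul_one] at e₂
    have hTm := hTmem ((j, l, ⟨A, Nat.lt_succ_of_le hP₁.hAW⟩, ⟨B₁, Nat.lt_succ_of_le hP₁.hBW⟩),
      (j', l', ⟨A', Nat.lt_succ_of_le hP₂.hAW⟩, ⟨B₁', Nat.lt_succ_of_le hP₂.hBW⟩))
      hjl hjl' hne hP₁.hA hP₁.hB hP₂.hB q₁.hμ q₂.hμ x (hxB hall)
      (fun i => ⟨x i, (hall i).le⟩) Y
      (fun i => rfl) (fun i => hY i (hall i)) hall ζ₁ ζ₂ f₁ f₂ hf₁ hff₁ hf₂ hff₂ e₁ e₂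
    have hmemS : ∀ i, 𝓛.red ⟨x i, (hall i).le⟩ ∈ S := by
      intro i
      right
      rw [Set.mem_iUnion]
      exact ⟨(_, i), _, hTm, by rw [hred]⟩
    obtain ⟨A₂, B₂, g₃, s₃, ζ₃, ε₃, hP₃⟩ := hinfo J L hJL (hall J) (hall L) hJLc
    have hs₃ : s₃ = 0 := by
      by_cases h3 : (J = j ∧ L = l) ∨ (J = l ∧ L = j)
      · have h4 : ¬ ((J = j' ∧ L = l') ∨ (J = l' ∧ L = j')) := by
          rintro (⟨h5, h6⟩ | ⟨h5, h6⟩)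
          · rcases h3 with ⟨h7, h8⟩ | ⟨h7, h8⟩
            · exact hne (Or.inl ⟨h5.symm.trans h7, h6.symm.trans h8⟩)
            · exact hne (Or.inr ⟨h5.symm.trans h7, h6.symm.trans h8⟩)
          · rcases h3 with ⟨h7, h8⟩ | ⟨h7, h8⟩
            · exact hne (Or.inr ⟨h6.symm.trans h8, h5.symm.trans h7⟩)
            · exact hne (Or.inl ⟨h6.symm.trans h8, h5.symm.trans h7⟩)
        exact (no_wildB hW hx (hY j' (hall j')) (hY l' (hall l')) (hY J (hall J)) (hY L (hall L))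
          (hall j') (hall l') (hall J) (hall L) hjl' hJL h4 hP₂ hP₃).2
      · exact (no_wildB hW hx (hY j (hall j)) (hY l (hall l)) (hY J (hall J)) (hY L (hall L))
          (hall j) (hall l) (hall J) (hall L) hjl hJL h3 hP₁ hP₃).2
    exact hfin J L hJL (hall J) (hall L) (hmemS J) (hmemS L) A₂ B₂ g₃ s₃ ζ₃ ε₃ hP₃ (by omega)
  · push Not at hall
    obtain ⟨a, ha⟩ := hall
    have hg : ∀ j, j ≠ a → ‖x j‖ = 1 := fun j hj => (hx.ob j a hj).resolve_right ha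
    obtain ⟨s, z, e, hz, hC, heX, hn, hs, hroot⟩ := hR C p k 𝕜 n N W M d D B 𝓛 x hx a ha
    have hmemS : ∀ i (hi : ‖x i‖ = 1), i ≠ a → 𝓛.red ⟨x i, hi.le⟩ ∈ S := by
      intro i hi hia
      obtain ⟨y, hy, y', hyy, hxy⟩ := hroot i hia
      left
      rw [Set.mem_iUnion]
      refine ⟨(a, s, i), y, hNear.𝓡 ▸ hy, ?_⟩
      show 𝓛₀.ι (PowerSeries.coeff 0 (y : PowerSeries 𝕜)) = _
      rw [← hNear.ι]
      rw [← hyy, PowerSeries.coeff_map, 𝓛.hι]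
      symm
      apply red_congrB
      show ‖x i - ((PowerSeries.coeff 0 (y' : PowerSeries (Nr C p)) : Nr C p) : C)‖ < 1
      have h1 : ‖x i - e (y' : PowerSeries (Nr C p))‖ < 1 := by
        by_contra hcon
        push Not at hcon
        have h2 := one_le_pow₀ hcon (n := B)
        linarith
      have h2 := ev_sub_le (ψ := (Nr C p).subtype) (fun r => hC r) heX hn hz.le
        (y' : PowerSeries (Nr C p))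
      have e1 : x i - ((PowerSeries.coeff 0 (y' : PowerSeries (Nr C p)) : Nr C p) : C) =
          (x i - e (y' : PowerSeries (Nr C p))) + (e (y' : PowerSeries (Nr C p)) -
            (Nr C p).subtype (PowerSeries.coeff 0 (y' : PowerSeries (Nr C p)))) := by
        show _ = (x i - e (y' : PowerSeries (Nr C p))) + (e (y' : PowerSeries (Nr C p)) -
          ((PowerSeries.coeff 0 (y' : PowerSeries (Nr C p)) : Nr C p) : C))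
        ring
      rw [e1]
      exact nadd_lt h1 (h2.trans_lt hz)
    obtain ⟨j, l, hjl, hc, hja, hla, hjJ, hlL⟩ : ∃ j l : Fin n, j ≠ l ∧
        (∃ c, cls j = some c ∧ cls l = some c) ∧ j ≠ a ∧ l ≠ a ∧ j = J ∧ l = L :=
      ⟨J, L, hJL, hJLc, fun h => ha (h ▸ hJ1), fun h => ha (h ▸ hL1), rfl, rfl⟩
    rw [← hjJ, ← hlL]
    obtain ⟨A, B₁, g₁, s₁, ζ₁, ε₁, hP₁⟩ := hinfo j l hjl (hg j hja) (hg l hla) hc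
    have hG := hP₁.mem_GG (hYn j (hg j hja)) (hYn l (hg l hla))
    refine hfin j l hjl (hg j hja) (hg l hla) (hmemS j (hg j hja) hja)
      (hmemS l (hg l hla) hla) A B₁ g₁ s₁ ζ₁ ε₁ hP₁ ?_
    obtain ⟨y, hy, u, huy, hxy⟩ := hroot j hja
    obtain ⟨y', hy', u', huy', hxy'⟩ := hroot l hla
    by_cases hsmall : ‖z‖ ^ N ≤ ‖(p : C)‖
    · by_contra hs₁
      obtain ⟨t, rfl⟩ : ∃ t, s₁ = t + 1 := ⟨s₁ - 1, by omega⟩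
      exact hWC C p k 𝕜 n N W M d D B 𝓛 Y j l z e hz hC heX hn hsmall u u'
        (by rw [hY j (hg j hja)]; exact hxy) (by rw [hY l (hg l hla)]; exact hxy') A B₁ ε₁ t
        hP₁.hε hG
    · push Not at hsmall
      have hcls : cls a ≠ none := by
        intro hcls
        have h1 := hcm a hcls
        have h2 : ‖(p : C)‖ < ‖x a‖ := by
          rcases hs with ⟨-, -, h⟩ | ⟨h, -, -⟩
          · rw [← h, norm_pow]; exact hsmall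
          · exact 𝓛.hp1.trans h
        exact absurd (hbigp a h2) (not_lt.2 h1)
      have hnone' : ∀ x, cls x ≠ none := by
        intro i
        by_cases hi : i = a
        · rw [hi]; exact hcls
        · exact hnone i (hg i hi)
      obtain ⟨j', hj', l', hl', hjl', hc'⟩ := coll cls (Finset.univ.erase l)
        (by rw [Finset.card_erase_of_mem (Finset.mem_univ l)]; simp; omega)
        (fun x _ => hnone' x)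
      have h1 := Finset.ne_of_mem_erase hj'
      have h2 := Finset.ne_of_mem_erase hl'
      have hexc : ∀ m, m ≠ a → (∃ c, cls m = some c ∧ cls a = some c) → s₁ ≤ 2 := by
        intro m hma ⟨c, hcm', hca⟩
        by_contra hs₁
        obtain ⟨t, rfl⟩ : ∃ t, s₁ = t + 1 := ⟨s₁ - 1, by omega⟩
        obtain ⟨w, w', a', b', c', d', hdet, hrel, hw, hw'⟩ := hZ _ _ _ hma hcm' hca
        obtain ⟨y'', hy'', u'', huy'', hxy''⟩ := hroot m hma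
        have := hE C p k 𝕜 n N W M d D B 𝓛 x hx Y X hX a s z e hz hC heX hn hs hsmall j l m hja
          hla hma hjl y y' y'' hy hy' hy'' u u' u'' huy huy' huy'' hxy hxy' hxy''
          (hY j (hg j hja)) (hY l (hg l hla)) (hY m (hg m hma)) (hg j hja) (hg l hla) (hg m hma)
          A B₁ hP₁.hA hP₁.hB hP₁.hAW hP₁.hBW ε₁ t hP₁.hε hG w w' a' b' c' d' hdet hrel hw hw'
        omega
      by_cases hj'a : j' = a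
      · subst hj'a
        obtain ⟨c, hc1, hc2⟩ := hc'
        exact hexc l' hjl'.symm ⟨c, hc2, hc1⟩
      · by_cases hl'a : l' = a
        · subst hl'a
          obtain ⟨c, hc1, hc2⟩ := hc'
          exact hexc j' hjl' ⟨c, hc1, hc2⟩
        · obtain ⟨A', B₁', g₂, s₂, ζ₂, ε₂, hP₂⟩ := hinfo j' l' hjl' (hg j' hj'a) (hg l' hl'a) hc'
          have := (no_wildB hW hx (hY j (hg j hja)) (hY l (hg l hla)) (hY j' (hg j' hj'a))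
            (hY l' (hg l' hl'a)) (hg j hja) (hg l hla) (hg j' hj'a) (hg l' hl'a) hjl hjl' (by
              rintro (⟨-, h⟩ | ⟨h, -⟩)
              · exact h2 h
              · exact h1 h) hP₁ hP₂).1
          omega

/-- The uniform local theorem. -/
theorem coreU_all : S_COREU :=
  coreU Y151.ZX.root Y858.ZX.wild Y858.ZX.wildcm Y290.ZX.exc tameB Y945.ZX.ord

end Pool.Agent.Q170.UZ
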