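import Pool.Agent.Q170.UZ.Core
import Pool.Agent.Y427.ZX.Pt2

/-!
# Approximate zeros of a model

Adapted from `Pool.Agent.Y151.ZX.Eva` and `Pool.Agent.Y427.ZX.Pt2`: points with unit coordinates at
which the equations of the model are divisible by the square of `p`.
-/

set_option autoImplicit false
set_option linter.unusedSectionVars false

open Polynomial

namespace Pool.Agent.Q170.UZ

open Pool.Agent.Y226 Pool.Agent.Y226.ZG Pool.Agent.Y92.ZX Pool.Agent.Y151.ZX Pool.Agent.Y427.ZX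
open Pool.Agent.Y574.ZX

variable {C : Type} [NormedField C] [IsUltrametricDist C] {p : ℕ} [hpf : Fact p.Prime]
  {𝕜 : Type} [Field 𝕜] {ρ : Nr C p →+* 𝕜} {n : ℕ} {κ : Type}
  {F : κ → MvPolynomial (Fin n × Bool) (Nr C p)}

/-- values of integral polynomials at integral points -/
theorem eval_le {y : Fin n → C} (hy : ∀ i, ‖y i‖ ≤ 1) (f : MvPolynomial (Fin n) (Nr C p)) :
    ‖MvPolynomial.eval₂ (Nr C p).subtype y f‖ ≤ 1 := by
  rw [MvPolynomial.eval₂_eq']
  exact nsum_le _ _ zero_le_one fun m _ => nmul_le (Nr_le (MvPolynomial.coeff m f).2)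
    (nprod_le _ _ fun i _ => npow_le (hy i) _)

theorem eval_le' {y : Fin n → C} (hy : ∀ i, ‖y i‖ ≤ 1) (f : MvPolynomial (Fin n) (OO C)) :
    ‖MvPolynomial.eval₂ (OO C).subtype y f‖ ≤ 1 := by
  rw [MvPolynomial.eval₂_eq']
  exact nsum_le _ _ zero_le_one fun m _ => nmul_le (MvPolynomial.coeff m f).2
    (nprod_le _ _ fun i _ => npow_le (hy i) _)

/-- values of polynomials whose reduction is in the ideal of the reduction -/
theorem eva2 (hρ : Function.Surjective ρ) (hp0 : 0 < ‖(p : C)‖)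
    (hker : ∀ r : Nr C p, ρ r = 0 ↔ ‖(r : C)‖ < 1) (a : Option (Fin n))
    (f : MvPolynomial (Fin n) (Nr C p)) (hf : MvPolynomial.map ρ f ∈ chI ρ F a) :
    ∃ R' : MvPolynomial (Fin n) (OO C), ∀ y : Fin n → C, (∀ i, ‖y i‖ ≤ 1) →
    (∀ t, ‖MvPolynomial.eval₂ (Nr C p).subtype (chv a y) (F t)‖ ≤ ‖(p : C)‖ ^ 2) →
    ‖MvPolynomial.eval₂ (Nr C p).subtype y f -
      p * MvPolynomial.eval₂ (OO C).subtype y R'‖ ≤ ‖(p : C)‖ ^ 2 := by
  classical
  -- lifts of the elements of the ideal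
  have key : ∀ g : MvPolynomial (Fin n) 𝕜, g ∈ chI ρ F a →
      ∃ f' : MvPolynomial (Fin n) (Nr C p), MvPolynomial.map ρ f' = g ∧
        ∀ y : Fin n → C, (∀ i, ‖y i‖ ≤ 1) →
          (∀ t, ‖MvPolynomial.eval₂ (Nr C p).subtype (chv a y) (F t)‖ ≤ ‖(p : C)‖ ^ 2) →
          ‖MvPolynomial.eval₂ (Nr C p).subtype y f'‖ ≤ ‖(p : C)‖ ^ 2 := by
    intro g hg
    unfold chI at hg
    refine Submodule.span_induction ?_ ?_ ?_ ?_ hg
    · rintro _ ⟨t, rfl⟩
      refine ⟨MvPolynomial.eval₂ (MvPolynomial.C.comp (RingHom.id _)) (chv a MvPolynomial.X) (F t),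
        ?_, fun y _ hy => ?_⟩
      · have h := MvPolynomial.eval₂_comp_left (MvPolynomial.map ρ)
          ((MvPolynomial.C (R := Nr C p) (σ := Fin n)).comp (RingHom.id _))
          (chv a MvPolynomial.X) (F t)
        rw [h]
        congr 1
        · ext r
          simp
        · rw [Pool.Agent.Y151.ZX.map_chv]
          congr 1
          funext i
          simp
      · rw [ev_chart, RingHom.comp_id]
        exact hy t
    · exact ⟨0, map_zero _, fun y _ _ => by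
        rw [MvPolynomial.eval₂_zero, norm_zero]
        exact sq_nonneg _⟩
    · rintro g₁ g₂ - - ⟨f₁, h₁, e₁⟩ ⟨f₂, h₂, e₂⟩
      exact ⟨f₁ + f₂, by rw [map_add, h₁, h₂], fun y hy1 hy => by
        rw [MvPolynomial.eval₂_add]
        exact nadd_le (e₁ y hy1 hy) (e₂ y hy1 hy)⟩
    · rintro c g - ⟨f₁, h₁, e₁⟩
      obtain ⟨c', hc'⟩ := MvPolynomial.map_surjective ρ hρ c
      exact ⟨c' * f₁, by rw [map_mul, hc', h₁, smul_eq_mul], fun y hy1 hy => by
        rw [MvPolynomial.eval₂_mul, mul_comm]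
        exact nmul_le' (e₁ y hy1 hy) (eval_le hy1 c')⟩
  obtain ⟨f', hf', hf0⟩ := key _ hf
  set h := f - f' with hh
  have hmap : MvPolynomial.map ρ h = 0 := by rw [hh, map_sub, hf', sub_self]
  have hpne : (p : C) ≠ 0 := norm_pos_iff.1 hp0
  have hcoef : ∀ m, ‖((MvPolynomial.coeff m h : Nr C p) : C) / p‖ ≤ 1 := by
    intro m
    have h1 : ρ (MvPolynomial.coeff m h) = 0 := by
      rw [← MvPolynomial.coeff_map, hmap, MvPolynomial.coeff_zero]
    have h2 := Nr_gap (MvPolynomial.coeff m h).2 ((hker _).1 h1)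
    rw [norm_div]
    exact div_le_one_of_le₀ h2 (norm_nonneg _)
  let c : (Fin n →₀ ℕ) → OO C := fun m => ⟨((MvPolynomial.coeff m h : Nr C p) : C) / p, hcoef m⟩
  refine ⟨∑ m ∈ h.support, MvPolynomial.monomial m (c m), fun y hy1 hy => ?_⟩
  have e1 : MvPolynomial.eval₂ (Nr C p).subtype y f =
      MvPolynomial.eval₂ (Nr C p).subtype y h + MvPolynomial.eval₂ (Nr C p).subtype y f' := by
    have : f = h + f' := by rw [hh]; ring
    rw [this, MvPolynomial.eval₂_add]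
  have e3 : MvPolynomial.eval₂ (Nr C p).subtype y h = p * MvPolynomial.eval₂ (OO C).subtype y
      (∑ m ∈ h.support, MvPolynomial.monomial m (c m)) := by
    rw [MvPolynomial.eval₂_sum, Finset.mul_sum, MvPolynomial.eval₂_eq']
    refine Finset.sum_congr rfl fun m _ => ?_
    rw [MvPolynomial.eval₂_monomial, Finsupp.prod_fintype _ _ (fun i => pow_zero _)]
    have e2 : (OO C).subtype (c m) = ((MvPolynomial.coeff m h : Nr C p) : C) / p := rfl
    rw [e2, Subring.subtype_apply]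
    field_simp
  rw [e1, e3, add_sub_cancel_left]
  exact hf0 y hy1 hy

/-- approximate zeros satisfy the approximate relations -/
theorem ptB (hρ : Function.Surjective ρ) (hp0 : 0 < ‖(p : C)‖) (hp1 : ‖(p : C)‖ < 1)
    (hker : ∀ r : Nr C p, ρ r = 0 ↔ ‖(r : C)‖ < 1) {N W M d D : ℕ} (𝓡 : RD 𝕜 n N W M d D)
    (hM : Mem ρ F 𝓡) :
    ∃ (ht : (Fin n → ℤ) → (Fin n → ℤ) → (Nr C p)[X][X])
    (rho : (Fin n → ℤ) → (Fin n → ℤ) → MvPolynomial (Fin n × Bool) (OO C)),
    (∀ v w, Bv M v → Bv M w → LI v w →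
      (ht v w).map (mapRingHom ρ) = 𝓡.h v w ∧ BD d (ht v w)) ∧
    ∀ x : Fin n → C, (∀ i, ‖x i‖ = 1) →
      (∀ t, ‖MvPolynomial.eval₂ (Nr C p).subtype (chv none x) (F t)‖ ≤ ‖(p : C)‖ ^ 2) →
      PtB ρ 𝓡 ht rho x := by
  classical
  -- the lifts
  have hl : ∀ v w : Fin n → ℤ, ∃ h' : (Nr C p)[X][X], Bv M v → Bv M w → LI v w →
      h'.map (mapRingHom ρ) = 𝓡.h v w ∧ BD d h' := by
    intro v w
    by_cases h : Bv M v ∧ Bv M w ∧ LI v w
    · obtain ⟨h', h1, h2⟩ := exists_lift ρ hρ (𝓡.hBD v w h.1 h.2.1 h.2.2)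
      exact ⟨h', fun _ _ _ => ⟨h1, h2⟩⟩
    · exact ⟨0, fun a b c => absurd ⟨a, b, c⟩ h⟩
  choose ht hht using hl
  -- the relations between monomials
  have hPV : ∀ (v w : Fin n → ℤ), Bv M v → Bv M w → LI v w →
      MvPolynomial.map ρ (PV (ht v w) d v w) ∈ chI ρ F none := by
    intro v w hv hw hvw
    obtain ⟨e1, e2⟩ := hht v w hv hw hvw
    rw [map_PV, e1, ← hpol_eq]
    exact hM.m2 none v w hv hw hvw (fun i hi => absurd hi (by simp))
  have hrho : ∀ v w : Fin n → ℤ, ∃ R' : MvPolynomial (Fin n) (OO C), Bv M v → Bv M w →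
      LI v w → ∀ y : Fin n → C, (∀ i, ‖y i‖ ≤ 1) →
      (∀ t, ‖MvPolynomial.eval₂ (Nr C p).subtype (chv none y) (F t)‖ ≤ ‖(p : C)‖ ^ 2) →
      ‖MvPolynomial.eval₂ (Nr C p).subtype y (PV (ht v w) d v w) -
        p * MvPolynomial.eval₂ (OO C).subtype y R'‖ ≤ ‖(p : C)‖ ^ 2 := by
    intro v w
    by_cases h : Bv M v ∧ Bv M w ∧ LI v w
    · obtain ⟨R', hR'⟩ := eva2 hρ hp0 hker none _ (hPV v w h.1 h.2.1 h.2.2)
      exact ⟨R', fun _ _ _ => hR'⟩
    · exact ⟨0, fun a b c => absurd ⟨a, b, c⟩ h⟩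
  choose R' hR' using hrho
  refine ⟨ht, fun v w => MvPolynomial.rename (fun i => (i, false)) (R' v w) *
    (∏ i, MvPolynomial.X (i, true) ^ (-v i).toNat) ^ d *
    (∏ i, MvPolynomial.X (i, true) ^ (-w i).toNat) ^ d, hht, ?_⟩
  intro x hun hx
  have hne : ∀ i, x i ≠ 0 := by
    intro i
    rw [← norm_ne_zero_iff, hun i]
    exact one_ne_zero
  have hle : ∀ i, ‖x i‖ ≤ 1 := fun i => (hun i).le
  -- the relations between monomials
  have main : ∀ v w, Bv M v → Bv M w → LI v w →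
      ‖E2 (Nr C p).subtype (∏ i, x i ^ v i) (∏ i, x i ^ w i) (ht v w) -
      p * MvPolynomial.eval₂ (OO C).subtype (xx x)
        (MvPolynomial.rename (fun i => (i, false)) (R' v w) *
        (∏ i, MvPolynomial.X (i, true) ^ (-v i).toNat) ^ d *
        (∏ i, MvPolynomial.X (i, true) ^ (-w i).toNat) ^ d)‖ ≤ ‖(p : C)‖ ^ 2 := by
    intro v w hv hw hvw
    have h1 := hR' v w hv hw hvw x hle hx
    rw [PV_eval _ (hht v w hv hw hvw).2 (fun i _ => hne i) (fun i _ => hne i)] at h1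
    have e1 : (xx x ∘ fun i => (i, false)) = x := by
      funext i
      simp [xx]
    have e2 : ∀ v : Fin n → ℤ, MvPolynomial.eval₂ (OO C).subtype (xx x)
        (∏ i, MvPolynomial.X (i, true) ^ (-v i).toNat) = (∏ i, x i ^ (-v i).toNat)⁻¹ := by
      intro v
      rw [MvPolynomial.eval₂_prod, ← Finset.prod_inv_distrib]
      refine Finset.prod_congr rfl fun i _ => ?_
      rw [MvPolynomial.eval₂_pow, MvPolynomial.eval₂_X, ← inv_pow]
      simp [xx]
    have q0 : ∀ v : Fin n → ℤ, ‖∏ i, x i ^ (-v i).toNat‖ = 1 := by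
      intro v
      rw [norm_prod]
      exact Finset.prod_eq_one fun i _ => by rw [norm_pow, hun, one_pow]
    have q1 := q0 v
    have q2 := q0 w
    rw [MvPolynomial.eval₂_mul, MvPolynomial.eval₂_mul, MvPolynomial.eval₂_pow,
      MvPolynomial.eval₂_pow, e2, e2, MvPolynomial.eval₂_rename, e1]
    generalize MvPolynomial.eval₂ (OO C).subtype x (R' v w) = s at h1 ⊢
    generalize ∏ i, x i ^ (-v i).toNat = a at q1 h1 ⊢
    generalize ∏ i, x i ^ (-w i).toNat = b at q2 h1 ⊢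
    generalize E2 (Nr C p).subtype (∏ i, x i ^ v i) (∏ i, x i ^ w i) (ht v w) = e at h1 ⊢
    have ha : a ≠ 0 := norm_pos_iff.1 (by rw [q1]; exact one_pos)
    have hb : b ≠ 0 := norm_pos_iff.1 (by rw [q2]; exact one_pos)
    have h2 : e - p * (s * a⁻¹ ^ d * b⁻¹ ^ d) = (a ^ d * b ^ d * e - p * s) * (a⁻¹ ^ d * b⁻¹ ^ d) := by
      have q3 : a ^ d * a⁻¹ ^ d = 1 := by rw [← mul_pow, mul_inv_cancel₀ ha, one_pow]
      have q4 : b ^ d * b⁻¹ ^ d = 1 := by rw [← mul_pow, mul_inv_cancel₀ hb, one_pow]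
      calc e - p * (s * a⁻¹ ^ d * b⁻¹ ^ d) =
          (a ^ d * a⁻¹ ^ d) * (b ^ d * b⁻¹ ^ d) * e - p * (s * a⁻¹ ^ d * b⁻¹ ^ d) := by
            rw [q3, q4]; ring
        _ = _ := by ring
    rw [h2, norm_mul, norm_mul, norm_pow, norm_pow, norm_inv, norm_inv, q1, q2, inv_one, one_pow,
      mul_one, mul_one]
    exact h1
  refine ⟨?_, ?_, main⟩
  · -- the relations between two coordinates
    intro i j hij g' hg'
    have hmem : MvPolynomial.map ρ (E2 MvPolynomial.C (MvPolynomial.X i) (MvPolynomial.X j) g') ∈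
        chI ρ F none := by
      rw [map_E2X, hg']
      exact hM.m1 none i false j hij (Or.inl ⟨rfl, by simp⟩) (by simp)
    obtain ⟨R'', hR''⟩ := eva2 hρ hp0 hker none _ hmem
    have h2 := hR'' x hle hx
    rw [eval₂_E2, MvPolynomial.eval₂_X, MvPolynomial.eval₂_X] at h2
    have h3 : ‖(p : C) * MvPolynomial.eval₂ (OO C).subtype x R''‖ ≤ ‖(p : C)‖ :=
      nmul_le' le_rfl (eval_le' hle R'')
    have h4 := nadd_le (h2.trans (pow_le_of_le_one (norm_nonneg _) hp1.le two_ne_zero)) h3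
    rwa [sub_add_cancel] at h4
  · intro v w hv hw hvw
    have h2 := main v w hv hw hvw
    have hxx : ∀ q, ‖xx x q‖ ≤ 1 := by
      rintro ⟨i, b⟩
      cases b with
      | true => simp [xx, hun]
      | false => simp [xx, hun]
    have h3 : ∀ f : MvPolynomial (Fin n × Bool) (OO C),
        ‖(p : C) * MvPolynomial.eval₂ (OO C).subtype (xx x) f‖ ≤ ‖(p : C)‖ := by
      intro f
      refine nmul_le' le_rfl ?_
      rw [MvPolynomial.eval₂_eq']
      exact nsum_le _ _ zero_le_one fun m _ => nmul_le (MvPolynomial.coeff m f).2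
        (nprod_le _ _ fun i _ => npow_le (hxx i) _)
    have h4 := nadd_le (h2.trans (pow_le_of_le_one (norm_nonneg _) hp1.le two_ne_zero))
      (h3 (MvPolynomial.rename (fun i => (i, false)) (R' v w) *
        (∏ i, MvPolynomial.X (i, true) ^ (-v i).toNat) ^ d *
        (∏ i, MvPolynomial.X (i, true) ^ (-w i).toNat) ^ d))
    rwa [sub_add_cancel] at h4

end Pool.Agent.Q170.UZ
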