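import Pool.Agent.Q170.UZ.Cls
import Pool.Agent.Q170.FP.Loc

/-!
# Members of a family near the generic member over a hypersurface: models over the ring of almost
unramified elements (adapted from `Pool.Agent.Q170.FP.Loc`)
-/

set_option autoImplicit false
set_option linter.unusedSectionVars false

open UpperHalfPlane H294ZP Polynomial IsDedekindDomain NumberField

namespace Pool.Agent.Q170.UZ

open Pool.Agent.Y226 Pool.Agent.Y226.ZG Pool.Agent.Y226.ZM Pool.Agent.Y226.ZU Pool.Agent.Y92.ZX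
open Pool.Agent.Q170.FP

/-- general position over the algebraic numbers -/
def HG {n : ℕ} {κ : Type} (F' : κ → MvPolynomial (Fin n × Bool) QA) : Prop :=
  ∀ i j : Fin n, i ≠ j → ∃ (a b : ℕ) (g : ℕ → ℕ → QA), g 0 0 ≠ 0 ∧ g a 0 ≠ 0 ∧
      g 0 b ≠ 0 ∧ g a b ≠ 0 ∧ (∀ c : QA, ∃ v ≤ b, ∑ u ∈ Finset.range (a + 1), g u v * c ^ u ≠ 0) ∧
      bh i j a b g ∈ Ideal.span (Set.range F')

/-- The models. -/
theorem famC (n r W : ℕ) (κ : Type) [Finite κ] (d₀ : ℕ)
    (F : κ → MvPolynomial (Fin n × Bool) (MvPolynomial (Fin r) QA)) (𝒦 : Type) [Field 𝒦]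
    [IsAlgClosed 𝒦] [CharZero 𝒦] (π : MvPolynomial (Fin r) QA →+* 𝒦)
    (halg : ∀ x : 𝒦, ∃ E, π E ≠ 0 ∧ π.IsIntegralElem (π E * x))
    (P : MvPolynomial (Fin r) QA) (hP0 : P ≠ 0) (hP : ∀ f, π f = 0 → P ∣ f) (hF : GM d₀ π F) :
    ∃ (Q B : ℕ) (E : MvPolynomial (Fin r) QA), 0 < B ∧ π E ≠ 0 ∧
      16 * B ^ 2 * B ^ 2 + (16 * B ^ 2 + 2) + (B + 2) + W + 2 * B ^ 2 +
        (B * (B + 1) + 1) + (B ^ 2 + 1) ≤ Q ∧
    ∀ (C : Type) [NormedField C] [IsUltrametricDist C] [CompleteSpace C] [CharZero C]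
      [IsAlgClosed C] (p : ℕ) [Fact p.Prime] (k : Type) [Field k] [CharP k p] [IsAlgClosed k]
      (red : OO C →+* k) (𝕜 : Type) [Field 𝕜] [IsAlgClosed 𝕜] (ρ : Nr C p →+* 𝕜) (ι : 𝕜 →+* k),
      (∀ x : OO C, red x = 0 ↔ ‖(x : C)‖ < 1) → 0 < ‖(p : C)‖ → ‖(p : C)‖ < 1 →
      (∀ r : Nr C p, ι (ρ r) = red ⟨r, Nr_le r.2⟩) → Q < p →
    ∀ (φ : QA →+* C) (sQ : Fin r → QA), (∀ l, φ (sQ l) ∈ Nr C p) →
      ‖φ (MvPolynomial.eval sQ P)‖ < 1 → ‖φ (MvPolynomial.eval sQ E)‖ = 1 →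
    ∃ FN : κ → MvPolynomial (Fin n × Bool) (Nr C p),
      (∀ t, MvPolynomial.map (Nr C p).subtype (FN t) =
        MvPolynomial.map (φ.comp (MvPolynomial.eval sQ)) (F t)) ∧
      Good W B ρ FN ∧ HG fun t => MvPolynomial.map (MvPolynomial.eval sQ) (F t) := by
  classical
  obtain ⟨N, M, d, D, B₀, S₀, S₁, hN, hM, hS⟩ := datG W F π hF
  obtain ⟨E, hE, hES⟩ := common_den π halg S₁
  choose! q hq hq0 using hES
  choose Dn hDn using nr_large
  -- the algebraic numbers which have to be integral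
  obtain ⟨m₀, hm₀⟩ : ∃ m, P.coeff m ≠ 0 := by
    by_contra hcon
    push Not at hcon
    exact hP0 (MvPolynomial.ext _ _ fun m => by rw [hcon m, MvPolynomial.coeff_zero])
  let T : Finset QA := S₀ ∪ P.support.image P.coeff ∪ {(P.coeff m₀)⁻¹} ∪ E.support.image E.coeff ∪
    S₁.biUnion fun x => (q x).support.biUnion fun j =>
      ((q x).coeff j).support.image ((q x).coeff j).coeff
  set B := B₀ + N + M + d + D + 1 with hBdef
  refine ⟨16 * B ^ 2 * B ^ 2 + (16 * B ^ 2 + 2) + (B + 2) + W + 2 * B ^ 2 +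
    (B * (B + 1) + 1) + (B ^ 2 + 1) + T.sup Dn, B, E, by omega, hE, by omega, ?_⟩
  intro C _ _ _ _ _ p hpf k _ _ _ red 𝕜 _ _ ρ ι hker hp0 hp1 hι hDp φ sQ hsN hPs hEs
  have hρ0 : ∀ r : Nr C p, ρ r = 0 ↔ ‖(r : C)‖ < 1 := by
    intro r
    rw [← map_eq_zero ι, hι, hker]
  -- the ring of coefficients
  let R₀ : Subring QA := (Nr C p).comap φ
  have hRT : ∀ x ∈ T, x ∈ R₀ := by
    intro x hx
    have h1 : Dn x ≤ T.sup Dn := Finset.le_sup hx
    exact hDn x p (by omega) C φ hp1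
  have hRS : ∀ x ∈ S₀, x ∈ R₀ := fun x hx => hRT x (by simp [T, hx])
  have hcoef : ∀ (f : MvPolynomial (Fin r) QA), (∀ x ∈ f.support.image f.coeff, x ∈ T) →
      ∀ m, f.coeff m ∈ R₀ := by
    intro f hf m
    by_cases hm : m ∈ f.support
    · exact hRT _ (hf _ (Finset.mem_image_of_mem _ hm))
    · rw [MvPolynomial.notMem_support_iff.1 hm]
      exact zero_mem _
  have hRP : ∀ m, P.coeff m ∈ R₀ := hcoef P fun x hx => by
    simp only [T, Finset.mem_union]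
    tauto
  have hRE : ∀ m, E.coeff m ∈ R₀ := hcoef E fun x hx => by
    simp only [T, Finset.mem_union]
    tauto
  have hRq : ∀ x ∈ S₁, ∀ j m, ((q x).coeff j).coeff m ∈ R₀ := by
    intro x hx j
    by_cases hj : j ∈ (q x).support
    · refine hcoef _ fun y hy => ?_
      simp only [T, Finset.mem_union, Finset.mem_biUnion]
      exact Or.inr ⟨x, hx, j, hj, hy⟩
    · intro m
      rw [notMem_support_iff.1 hj, MvPolynomial.coeff_zero]
      exact zero_mem _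
  have hm₀R : (P.coeff m₀)⁻¹ ∈ R₀ := hRT _ (by simp [T])
  obtain ⟨FR, hFR, hHom, hdat0⟩ := hS R₀ hRS
  let φR : R₀ →+* Nr C p := (φ.comp R₀.subtype).codRestrict (Nr C p) fun x => x.2
  let sN : Fin r → Nr C p := fun l => ⟨φ (sQ l), hsN l⟩
  let θ : MvPolynomial (Fin r) R₀ →+* Nr C p := MvPolynomial.eval₂Hom φR sN
  let θQ : MvPolynomial (Fin r) R₀ →+* QA := MvPolynomial.eval₂Hom R₀.subtype sQ
  have hθφ : (Nr C p).subtype.comp θ = φ.comp θQ := by
    refine MvPolynomial.ringHom_ext ?_ ?_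
    · intro r
      simp only [θ, θQ, RingHom.comp_apply, MvPolynomial.eval₂Hom_C]
      rfl
    · intro l
      simp only [θ, θQ, RingHom.comp_apply, MvPolynomial.eval₂Hom_X']
      rfl
  have hθφ' : ∀ x, ((θ x : Nr C p) : C) = φ (θQ x) := fun x => congrArg (fun f => f x) hθφ
  have hθQ : ∀ x, θQ x = MvPolynomial.eval sQ (MvPolynomial.map R₀.subtype x) := by
    intro x
    rw [MvPolynomial.eval_map]
    rfl
  -- the point of the hypersurface
  let π₀ : MvPolynomial (Fin r) R₀ →+* 𝒦 := π.comp (MvPolynomial.map R₀.subtype)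
  have hπ₀ : ∀ x, π₀ x = π (MvPolynomial.map R₀.subtype x) := fun x => rfl
  have hkerθ : ∀ x, π₀ x = 0 → ρ (θ x) = 0 := by
    intro x hx
    obtain ⟨g, hg⟩ := hP _ hx
    have h1 := gauss_nr red hker φ P g (fun m => Nr_le (hRP m)) ⟨m₀, by
        refine le_antisymm (Nr_le (hRP m₀)) ?_
        have h2 : ‖φ (P.coeff m₀)⁻¹‖ ≤ 1 := Nr_le hm₀R
        rw [map_inv₀, norm_inv] at h2
        have h3 : 0 < ‖φ (P.coeff m₀)‖ := norm_pos_iff.2 ((map_ne_zero φ).2 hm₀)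
        by_contra hcon
        rw [not_le] at hcon
        have h4 := one_lt_inv₀ h3 |>.2 hcon
        linarith⟩ (fun m => by
        rw [← hg, MvPolynomial.coeff_map]
        exact Nr_le (x.coeff m).2)
    rw [hρ0, hθφ', hθQ, hg, map_mul, map_mul, norm_mul]
    exact (mul_le_of_le_one_right (norm_nonneg _)
      (norm_eval_le φ g h1 sQ fun l => Nr_le (hsN l))).trans_lt hPs
  let h₁ : π₀.range →+* 𝕜 := (π₀.rangeRestrict).liftOfSurjective π₀.rangeRestrict_surjective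
    ⟨ρ.comp θ, fun x hx => by
      rw [RingHom.mem_ker] at hx ⊢
      exact hkerθ x (congrArg Subtype.val hx)⟩
  have hh₁ : ∀ x, h₁ (π₀.rangeRestrict x) = ρ (θ x) := fun x =>
    RingHom.liftOfRightInverse_comp_apply _ _ _ _ x
  obtain ⟨E₀, hE₀⟩ := lift_sub R₀ E hRE
  have hhE : h₁ (π₀.rangeRestrict E₀) ≠ 0 := by
    rw [hh₁, Ne, hρ0, hθφ', hθQ, hE₀, hEs]
    exact lt_irrefl _
  obtain ⟨R, hRle, χ, hS₁R, hχ⟩ := ext_sub π₀.range h₁ (π₀.rangeRestrict E₀) hhE (S₁ : Set 𝒦) (by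
    intro x hx
    have hx' : x ∈ S₁ := hx
    have h1 := hq x hx'
    have h2 := hq0 x hx'
    -- lift the equation
    obtain ⟨q₀, hq₀, hq₀m⟩ : ∃ q₀ : (MvPolynomial (Fin r) R₀)[X],
        q₀.map (MvPolynomial.map R₀.subtype) = q x ∧ q₀.Monic := by
      have h3 : q x ∈ Polynomial.lifts (MvPolynomial.map R₀.subtype :
          MvPolynomial (Fin r) R₀ →+* MvPolynomial (Fin r) QA) := by
        rw [Polynomial.lifts_iff_coeff_lifts]
        intro j
        obtain ⟨f₀, hf₀⟩ := lift_sub R₀ ((q x).coeff j) (hRq x hx' j)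
        exact ⟨f₀, hf₀⟩
      obtain ⟨q₀, h4, -, h5⟩ := Polynomial.lifts_and_natDegree_eq_and_monic h3 h1
      exact ⟨q₀, h4, h5⟩
    refine ⟨q₀.map π₀.rangeRestrict, hq₀m.map _, ?_⟩
    rw [Polynomial.eval₂_map]
    have h6 : π₀.range.subtype.comp π₀.rangeRestrict = π₀ := RingHom.ext fun y => rfl
    rw [h6]
    have h7 : ((π₀.rangeRestrict E₀ : π₀.range) : 𝒦) = π E := by
      show π₀ E₀ = _
      rw [hπ₀, hE₀]
    rw [h7, ← h2, ← hq₀, Polynomial.eval₂_map])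
  let π₁ : MvPolynomial (Fin r) R₀ →+* R := (Subring.inclusion hRle).comp π₀.rangeRestrict
  have hπ₁ : ∀ x, (π₁ x : 𝒦) = π (MvPolynomial.map R₀.subtype x) := fun x => rfl
  have hdat : ∀ (𝕜' : Type) [Field 𝕜'] (χ' : R →+* 𝕜'),
      (∃ 𝓡 : RD 𝕜' n N W M d D, RDB 𝓡 B₀ ∧ Mem (χ'.comp π₁) FR 𝓡) ∧ CorG (χ'.comp π₁) FR :=
    fun 𝕜' _ χ' => hdat0 R hS₁R π₁ hπ₁ 𝕜' χ'
  obtain ⟨⟨𝓡, hRB, hMem⟩, hCor⟩ := hdat 𝕜 χ
  have hθ0' : ∀ x, ρ (θ x) = χ (π₁ x) := by
    intro x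
    rw [← hh₁]
    exact (hχ _).symm
  have hθ0 : ρ.comp θ = χ.comp π₁ := RingHom.ext hθ0'
  have hne1 : ∀ r : Nr C p, ρ r ≠ 0 → ‖(r : C)‖ = 1 := fun r hr =>
    le_antisymm (Nr_le r.2) (not_lt.1 fun h => hr ((hρ0 r).2 h))
  have hMem' : Mem ρ (fun t => MvPolynomial.map θ (FR t)) 𝓡 := by
    constructor
    · intro c i s' j hij h1 h2
      rw [chI_map, hθ0]
      exact hMem.m1 c i s' j hij h1 h2
    · intro c v' w' h1 h2 h3 h4
      rw [chI_map, hθ0]
      exact hMem.m2 c v' w' h1 h2 h3 h4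
  have hCor' : Cor ρ (fun t => MvPolynomial.map θ (FR t)) := by
    intro i j hij
    obtain ⟨a, b, g, h3, h4, h5, h6, -, h8⟩ := hCor i j hij
    exact ⟨a, b, fun u v => θ (g u v), by rw [hθ0']; exact h3, by rw [hθ0']; exact h4,
      by rw [hθ0']; exact h5, by rw [hθ0']; exact h6, bh_span_map θ h8⟩
  -- the model over `QA`
  set F' : κ → MvPolynomial (Fin n × Bool) QA := fun t =>
    MvPolynomial.map (MvPolynomial.eval sQ) (F t) with hF'
  have hF'R : ∀ t, F' t = MvPolynomial.map θQ (FR t) := by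
    intro t
    show MvPolynomial.map (MvPolynomial.eval sQ) (F t) = _
    rw [← hFR t, MvPolynomial.map_map]
    congr 1
    refine MvPolynomial.ringHom_ext ?_ ?_
    · intro r
      simp [θQ]
    · intro l
      simp [θQ]
  have hgen : HG F' := by
    intro i j hij
    obtain ⟨a, b, g, h3, h4, h5, h6, h7, h8⟩ := (hdat k (ι.comp χ)).2 i j hij
    have hn1 : ∀ x : MvPolynomial (Fin r) R₀, ((ι.comp χ).comp π₁) x ≠ 0 →
        ‖φ (θQ x)‖ = 1 := by
      intro x hx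
      rw [← hθφ']
      apply hne1
      rw [hθ0']
      intro h0
      apply hx
      rw [RingHom.comp_apply, RingHom.comp_apply, h0, map_zero]
    have hn0 : ∀ x : MvPolynomial (Fin r) R₀, ((ι.comp χ).comp π₁) x ≠ 0 →
        θQ x ≠ 0 := fun x hx h0 => by
      have := hn1 x hx
      rw [h0, map_zero, norm_zero] at this
      exact zero_ne_one this
    refine ⟨a, b, fun u v => θQ (g u v), hn0 _ h3, hn0 _ h4, hn0 _ h5, hn0 _ h6, ?_, ?_⟩
    · refine nonvert φ red hker (fun u v => by rw [← hθφ']; exact Nr_le (θ (g u v)).2)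
        (hn1 _ h6) ?_
      intro c
      obtain ⟨v', hv', hne⟩ := h7 c
      refine ⟨v', hv', ?_⟩
      convert hne using 3 with u hu
      have h9 : (⟨φ (θQ (g u v')), by rw [← hθφ']; exact Nr_le (θ (g u v')).2⟩ : OO C) =
          ⟨((θ (g u v') : Nr C p) : C), Nr_le (θ (g u v')).2⟩ := Subtype.ext (hθφ' _).symm
      rw [h9, ← hι, hθ0']
      rfl
    · have h9 : F' = fun t => MvPolynomial.map θQ (FR t) := funext hF'R
      rw [h9]
      exact bh_span_map θQ h8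
  refine ⟨fun t => MvPolynomial.map θ (FR t), ?_, ⟨fun t => (hHom t).map θ, hCor', N, M, d, D, 𝓡, hN,
    by omega, hM, by omega, by omega, by omega, hRB.mono (by omega), hMem'⟩, hgen⟩
  intro t
  have e1 : (Nr C p).subtype.comp θ =
      (φ.comp (MvPolynomial.eval sQ)).comp (MvPolynomial.map R₀.subtype) := by
    rw [hθφ]
    exact RingHom.ext fun x => congrArg φ (hθQ x)
  rw [MvPolynomial.map_map, e1, ← hFR t, MvPolynomial.map_map]

end Pool.Agent.Q170.UZ
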