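import Pool.Agent.Q170.UZ.Eva

/-!
# The local theorem for all models near a given one
-/

set_option autoImplicit false
set_option linter.unusedSectionVars false

open UpperHalfPlane H294ZP Polynomial

namespace Pool.Agent.Q170.UZ

open Pool.Agent.Y226 Pool.Agent.Y226.ZG Pool.Agent.Y92.ZX

section units

variable {C : Type} [NormedField C] [IsUltrametricDist C]

theorem inv_sub_inv_le {a b : C} (ha : ‖a‖ = 1) (hb : ‖b‖ = 1) {δ : ℝ} (h : ‖a - b‖ ≤ δ) :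
    ‖a⁻¹ - b⁻¹‖ ≤ δ := by
  have ha0 : a ≠ 0 := norm_pos_iff.1 (by rw [ha]; exact one_pos)
  have hb0 : b ≠ 0 := norm_pos_iff.1 (by rw [hb]; exact one_pos)
  have e : a⁻¹ - b⁻¹ = -((a - b) * (a⁻¹ * b⁻¹)) := by
    field_simp
    ring
  rw [e, norm_neg]
  refine nmul_le' h ?_
  rw [norm_mul, norm_inv, norm_inv, ha, hb, inv_one, one_mul]

/-- the unit part of a quotient of powers -/
theorem mu_eq {pu : Cˣ} {Λj Λl : Cˣ} {wj wl e A B₁ : ℕ} (h : B₁ * wl = A * wj) :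
    Λl ^ B₁ * (Λj ^ A)⁻¹ = (Λl * pu ^ (wl * e)) ^ B₁ * ((Λj * pu ^ (wj * e)) ^ A)⁻¹ := by
  have e1 : wl * e * B₁ = wj * e * A := by
    calc wl * e * B₁ = (B₁ * wl) * e := by ring
      _ = (A * wj) * e := by rw [h]
      _ = wj * e * A := by ring
  rw [mul_pow, mul_pow, ← pow_mul, ← pow_mul, e1, mul_inv]
  generalize pu ^ (wj * e * A) = z
  calc Λl ^ B₁ * (Λj ^ A)⁻¹ = Λl ^ B₁ * (Λj ^ A)⁻¹ * (z * z⁻¹) := by rw [mul_inv_cancel, mul_one]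
    _ = _ := by ac_rfl

end units

/-- The local theorem for all models near a given one. -/
theorem locU {C : Type} [NormedField C] [IsUltrametricDist C] [CompleteSpace C] [CharZero C]
    [IsAlgClosed C] {p : ℕ} [hpf : Fact p.Prime] {k 𝕜 : Type} [Field k] [CharP k p]
    [IsAlgClosed k] [Field 𝕜] (red : OO C →+* k) (hker : ∀ x : OO C, red x = 0 ↔ ‖(x : C)‖ < 1)
    (hp0 : 0 < ‖(p : C)‖) (hp1 : ‖(p : C)‖ < 1) (ρ : Nr C p →+* 𝕜)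
    (hρs : Function.Surjective ρ) (ι : 𝕜 →+* k) (hι : ∀ r : Nr C p, ι (ρ r) = red ⟨r, Nr_le r.2⟩)
    {n N W M d D B : ℕ} (𝓡 : RD 𝕜 n N W M d D) (hRB : RDB 𝓡 B)
    (b1 : 16 * D ^ 2 * d ^ 2 < p) (b2 : 16 * d ^ 2 + 2 < p) (b3 : N + 2 < p) (b4 : D + 2 < p)
    (b5 : W < p) (b6 : 2 * M ^ 2 < p) (b7 : B * (D + 1) + 1 < p) (b8 : B ^ 2 + 1 < p)
    (hB : 0 < B) (hN : 0 < N) (hM : W * N + W ≤ M)
    {κ₀ : Type} (F₀ : κ₀ → MvPolynomial (Fin n × Bool) (Nr C p)) (hmem₀ : Mem ρ F₀ 𝓡)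
    (w : Fin n → ℕ) (hw : ∀ i, 0 < w i ∧ w i ≤ W) (e₀ : ℕ) (he₀ : 0 < e₀) (pu : Cˣ)
    (hpu : (pu : C) = p) (Λ₀ : Fin n → Cˣ)
    (hΛ₀ : ∀ i, Λ₀ i * pu ^ (w i * e₀) ∈ GG C p 0 le_rfl one_pos) (φ₀ : QA →+* C) :
    ∃ G : ℕ, ∀ (κ : Type) (F : κ → MvPolynomial (Fin n × Bool) (Nr C p)), (∀ t, MHom (F t)) →
    Cor ρ F → Mem ρ F 𝓡 →
    (∀ t₀, ∃ t, ∀ m, ‖((MvPolynomial.coeff m (F₀ t₀) : Nr C p) : C) -
      ((MvPolynomial.coeff m (F t) : Nr C p) : C)‖ ≤ ‖(p : C)‖ ^ 2) →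
    ∀ e : ℕ, 0 < e → (e = 1 ↔ e₀ = 1) → ∀ Λ : Fin n → Cˣ,
    (∀ i, Λ i * pu ^ (w i * e) ∈ GG C p 0 le_rfl one_pos) →
    (∀ i, ‖((Λ i * pu ^ (w i * e) : Cˣ) : C) - ((Λ₀ i * pu ^ (w i * e₀) : Cˣ) : C)‖ ≤
      ‖(p : C)‖ ^ 2) →
    ∀ φ : QA →+* C, φ (iA (cj 1)) = φ₀ (iA (cj 1)) →
    ∀ (X : Fin n → QA) (x : Fin n → C),
    (∀ t, MvPolynomial.eval₂ (Nr C p).subtype (chv none x) (F t) = 0) →
    (∀ i, φ (X i) = Λ i * x i) →
    ∀ (r : ℕ) (cls : Fin n → Option (Fin r)), r + 2 ≤ n →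
    (∀ i, cls i = none → ‖φ (X i)‖ ≤ 1) →
    (∀ j l c, j ≠ l → cls j = some c → cls l = some c → ∃ (w w' : ℍ) (a b c' d' : ℤ),
      0 < a * d' - b * c' ∧ (w' : ℂ) * (c' * w + d') = a * w + b ∧ rA (X j) = jj w ∧
      rA (X l) = jj w') → (∀ i, cls i = none → ‖x i‖ ≠ 1) ∧
      ∀ j l : Fin n, j ≠ l → (∃ c, cls j = some c ∧ cls l = some c) → ‖x j‖ = 1 → ‖x l‖ = 1 →
      ∃ N' : ℕ, 0 < N' ∧ N' ≤ G ∧ PsiE ιZ (mP N') (mD N') (rA (X j)) (rA (X l)) = 0 := by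
  classical
  have hρ0 : ∀ r : Nr C p, ρ r = 0 ↔ ‖(r : C)‖ < 1 := by
    intro r
    rw [← map_eq_zero ι, hι, hker]
  obtain ⟨ht₀, rho₀, hht₀, hpt₀⟩ := ptB hρs hp0 hp1 hρ0 𝓡 hmem₀
  let 𝓛₀ : LB C p k 𝕜 n N W M d D B :=
    { φ := φ₀, red := red, hker := hker, hp0 := hp0, hp1 := hp1, ρ := ρ, hρs := hρs, ι := ι
      hι := hι, 𝓡 := 𝓡, h𝓡 := hRB, ht := ht₀, hht := hht₀, rho := rho₀
      Λ := Λ₀, w := w, hw := hw, e := e₀, he := he₀, pu := pu, hpu := hpu, hΛ := hΛ₀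
      b1 := b1, b2 := b2, b3 := b3, b4 := b4, b5 := b5, b6 := b6, b7 := b7, b8 := b8
      hB := hB, hN := hN, hM := hM }
  obtain ⟨G, hG⟩ := coreU_all C p k 𝕜 n N W M d D B 𝓛₀
  refine ⟨G, ?_⟩
  intro κ F hhom hcor hmem hF e he hee Λ hΛ hΛΛ φ hφ X x hx hX r cls hr hcm hZ
  obtain ⟨ht, rho, hht, hpt⟩ := (Y427.ZX.pt2 Y151.ZX.eva) C p 𝕜 ρ hρs hp0 hp1 hρ0 n κ F hhom
    hcor N W M d D 𝓡 hmem
  let 𝓛 : LB C p k 𝕜 n N W M d D B :=
    { φ := φ, red := red, hker := hker, hp0 := hp0, hp1 := hp1, ρ := ρ, hρs := hρs, ι := ι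
      hι := hι, 𝓡 := 𝓡, h𝓡 := hRB, ht := ht, hht := hht, rho := rho
      Λ := Λ, w := w, hw := hw, e := e, he := he, pu := pu, hpu := hpu, hΛ := hΛ
      b1 := b1, b2 := b2, b3 := b3, b4 := b4, b5 := b5, b6 := b6, b7 := b7, b8 := b8
      hB := hB, hN := hN, hM := hM }
  have hu : ∀ i, ‖((Λ i * pu ^ (w i * e) : Cˣ) : C)‖ = 1 := fun i => GG_norm (hΛ i)
  have hu₀ : ∀ i, ‖((Λ₀ i * pu ^ (w i * e₀) : Cˣ) : C)‖ = 1 := fun i => GG_norm (hΛ₀ i)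
  have hnear : Near 𝓛 𝓛₀ := by
    refine ⟨rfl, rfl, rfl, ?_, ?_⟩
    · intro j l A B₁ hA hB₁ hμ
      have hμ' : Λ l ^ B₁ * (Λ j ^ A)⁻¹ ∈ GG C p 0 le_rfl one_pos := hμ
      -- the exponents
      have hn := GG_norm hμ'
      have hnΛ : ∀ i, ‖((Λ i : Cˣ) : C)‖ = (‖(p : C)‖ ^ (w i * e))⁻¹ := by
        intro i
        have h1 := hu i
        rw [Units.val_mul, Units.val_pow_eq_pow_val, norm_mul, norm_pow, hpu] at h1
        exact eq_inv_of_mul_eq_one_left h1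
      have hww : B₁ * w l = A * w j := by
        rw [Units.val_mul, Units.val_inv_eq_inv_val, Units.val_pow_eq_pow_val,
          Units.val_pow_eq_pow_val, norm_mul, norm_inv, norm_pow, norm_pow, hnΛ, hnΛ, inv_pow,
          inv_pow, inv_inv, ← pow_mul, ← pow_mul] at hn
        have hp' : 0 < ‖(p : C)‖ ^ (w l * e * B₁) := pow_pos hp0 _
        have h2 : ‖(p : C)‖ ^ (w j * e * A) = ‖(p : C)‖ ^ (w l * e * B₁) := by
          field_simp at hn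
          exact hn
        have h3 := (pow_right_injective₀ hp0 hp1.ne) h2
        have h4 : e * (A * w j) = e * (B₁ * w l) := by
          calc e * (A * w j) = w j * e * A := by ring
            _ = w l * e * B₁ := h3
            _ = e * (B₁ * w l) := by ring
        exact (Nat.eq_of_mul_eq_mul_left he h4).symm
      have e1 := mu_eq (pu := pu) (Λj := Λ j) (Λl := Λ l) (e := e) hww
      have e2 := mu_eq (pu := pu) (Λj := Λ₀ j) (Λl := Λ₀ l) (e := e₀) hww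
      refine ⟨?_, ?_⟩
      · show Λ₀ l ^ B₁ * (Λ₀ j ^ A)⁻¹ ∈ GG C p 0 le_rfl one_pos
        rw [e2]
        exact mul_mem (pow_mem (hΛ₀ l) _) (inv_mem (pow_mem (hΛ₀ j) _))
      · show ‖((Λ l ^ B₁ * (Λ j ^ A)⁻¹ : Cˣ) : C) - ((Λ₀ l ^ B₁ * (Λ₀ j ^ A)⁻¹ : Cˣ) : C)‖ ≤ _
        rw [e1, e2, Units.val_mul, Units.val_mul, Units.val_inv_eq_inv_val,
          Units.val_inv_eq_inv_val, Units.val_pow_eq_pow_val, Units.val_pow_eq_pow_val,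
          Units.val_pow_eq_pow_val, Units.val_pow_eq_pow_val]
        have hpw : ∀ i (m : ℕ), ‖((Λ i * pu ^ (w i * e) : Cˣ) : C) ^ m‖ = 1 := fun i m => by
          rw [norm_pow, hu, one_pow]
        have hpw₀ : ∀ i (m : ℕ), ‖((Λ₀ i * pu ^ (w i * e₀) : Cˣ) : C) ^ m‖ = 1 := fun i m => by
          rw [norm_pow, hu₀, one_pow]
        have hd : ∀ i (m : ℕ), ‖((Λ i * pu ^ (w i * e) : Cˣ) : C) ^ m -
            ((Λ₀ i * pu ^ (w i * e₀) : Cˣ) : C) ^ m‖ ≤ ‖(p : C)‖ ^ 2 := fun i m =>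
          npow_sub_pow (hu i).le (hu₀ i).le (hΛΛ i) m
        exact nmul_sub_mul (hpw l B₁).le (by rw [norm_inv, hpw₀, inv_one]) (hd l B₁)
          (inv_sub_inv_le (hpw j A) (hpw₀ j A) (hd j A))
    · intro i
      show ‖φ (iA (cj 1)) * ((p : C) * ((Λ i : Cˣ) : C))⁻¹ -
        φ₀ (iA (cj 1)) * ((p : C) * ((Λ₀ i : Cˣ) : C))⁻¹‖ ≤ ‖(p : C)‖
      have hpC : (p : C) ≠ 0 := norm_pos_iff.1 hp0
      have hinv : ∀ (L : Cˣ) (m : ℕ), ((p : C) * (L : C))⁻¹ =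
          (p : C) ^ m * (p : C)⁻¹ * ((L * pu ^ m : Cˣ) : C)⁻¹ := by
        intro L m
        have hL : (L : C) ≠ 0 := L.ne_zero
        rw [Units.val_mul, Units.val_pow_eq_pow_val, hpu]
        field_simp
      rw [hinv (Λ i) (w i * e), hinv (Λ₀ i) (w i * e₀), hφ]
      set c := φ₀ (iA (cj 1)) with hc
      have hc1 : ‖c‖ ≤ 1 := psi_norm φ₀ (cj 1)
      set u := ((Λ i * pu ^ (w i * e) : Cˣ) : C) with hu'
      set u₀ := ((Λ₀ i * pu ^ (w i * e₀) : Cˣ) : C) with hu₀'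
      have hui : ‖u⁻¹‖ = 1 := by rw [norm_inv, hu', hu, inv_one]
      have hui₀ : ‖u₀⁻¹‖ = 1 := by rw [norm_inv, hu₀', hu₀, inv_one]
      by_cases h1 : e = 1
      · have h2 := hee.1 h1
        rw [h1, h2, mul_one]
        have e3 : c * ((p : C) ^ w i * (p : C)⁻¹ * u⁻¹) - c * ((p : C) ^ w i * (p : C)⁻¹ * u₀⁻¹) =
            c * (((p : C) ^ w i * (p : C)⁻¹) * (u⁻¹ - u₀⁻¹)) := by ring
        rw [e3]
        refine nmul_le hc1 (nmul_le ?_ ?_)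
        · obtain ⟨m, hm⟩ : ∃ m, w i = m + 1 := ⟨w i - 1, by have := (hw i).1; omega⟩
          rw [hm, pow_succ, mul_assoc, mul_inv_cancel₀ hpC, mul_one]
          exact npow_le hp1.le _
        · refine (inv_sub_inv_le (hu i) (hu₀ i) (hΛΛ i)).trans ?_
          exact pow_le_of_le_one (norm_nonneg _) hp1.le two_ne_zero
      · have h2 : e₀ ≠ 1 := fun h => h1 (hee.2 h)
        have hsm : ∀ (f : ℕ), 0 < f → f ≠ 1 → ‖(p : C) ^ (w i * f) * (p : C)⁻¹‖ ≤ ‖(p : C)‖ := by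
          intro f hf hf1
          obtain ⟨m, hm⟩ : ∃ m, w i * f = m + 2 := by
            have h3 := (hw i).1
            have h4 : 1 * 2 ≤ w i * f := Nat.mul_le_mul h3 (by omega)
            exact ⟨w i * f - 2, by omega⟩
          have e4 : (p : C) ^ (m + 2) * (p : C)⁻¹ = (p : C) ^ m * p := by
            rw [pow_add, pow_two, mul_assoc, mul_assoc, mul_inv_cancel₀ hpC, mul_one]
          rw [hm, e4]
          exact nmul_le (npow_le hp1.le _) le_rfl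
        refine nsub_le (nmul_le hc1 (nmul_le' (hsm e he h1) hui.le))
          (nmul_le hc1 (nmul_le' (hsm e₀ he₀ h2) hui₀.le))
  refine hG 𝓛 hnear X x (hpt x hx) ?_ hX r cls hr hcm hZ
  intro hun
  refine hpt₀ x hun fun t₀ => ?_
  obtain ⟨t, ht'⟩ := hF t₀
  have hxx : ∀ q, ‖chv (none : Option (Fin n)) x q‖ ≤ 1 := by
    rintro ⟨i, b⟩
    cases b with
    | true => simp [chv]
    | false => simp [chv, hun]
  have e1 : MvPolynomial.eval₂ (Nr C p).subtype (chv none x) (F₀ t₀) =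
      MvPolynomial.eval₂ (Nr C p).subtype (chv none x) (F₀ t₀ - F t) := by
    rw [MvPolynomial.eval₂_sub, hx t, sub_zero]
  rw [e1, MvPolynomial.eval₂_eq']
  refine nsum_le _ _ (sq_nonneg _) fun m _ => nmul_le' ?_ (nprod_le _ _ fun i _ =>
    npow_le (hxx i) _)
  have h3 := ht' m
  rw [MvPolynomial.coeff_sub]
  exact h3

end Pool.Agent.Q170.UZ
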