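import Pool.Agent.Q170.UZ.Loc

/-!
# One local field for all number fields, and approximation modulo the square of `p`
-/

set_option autoImplicit false
set_option linter.unusedSectionVars false

open UpperHalfPlane H294ZP Polynomial IsDedekindDomain NumberField

namespace Pool.Agent.Q170.UZ

open Pool.Agent.Y226 Pool.Agent.Y226.ZG Pool.Agent.Y226.ZM Pool.Agent.Y226.ZU Pool.Agent.Y92.ZX
open Pool.Agent.Y61.ZX

/-- the numbers `a + p b`, where `a` and `b` are fixed by the `P`-th power -/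
noncomputable def TT (C : Type) [Field C] (p P : ℕ) : Finset C := by
  classical
  exact (((X ^ P - X : C[X]).roots.toFinset) ×ˢ ((X ^ P - X : C[X]).roots.toFinset)).image
    fun q => q.1 + p * q.2

theorem mem_TT {C : Type} [Field C] {p P : ℕ} (hP : 1 < P) {a b : C} (ha : a ^ P = a)
    (hb : b ^ P = b) : a + p * b ∈ TT C p P := by
  classical
  have h0 : (X ^ P - X : C[X]) ≠ 0 := by
    have hm : (X ^ P - X : C[X]).Monic := by
      apply monic_X_pow_sub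
      rw [degree_X]
      exact_mod_cast hP
    exact hm.ne_zero
  unfold TT
  rw [Finset.mem_image]
  refine ⟨(a, b), ?_, rfl⟩
  rw [Finset.mem_product]
  constructor
  · rw [Multiset.mem_toFinset, mem_roots h0, IsRoot.def]
    simp [ha]
  · rw [Multiset.mem_toFinset, mem_roots h0, IsRoot.def]
    simp [hb]

section approx

variable {C : Type} [NormedField C] [IsUltrametricDist C] [IsAlgClosed C] {p : ℕ}
  [hpf : Fact p.Prime]

/-- Approximation modulo the square of `p` in an unramified ring. -/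
theorem approx (hp0 : 0 < ‖(p : C)‖) (hp1 : ‖(p : C)‖ < 1) {m : ℕ} (hm : 0 < m) (S : Set C)
    (hS : ∀ x ∈ S, ‖x‖ ≤ 1 ∧ ‖x ^ p ^ m - x‖ ≤ ‖(p : C)‖ ∧ (x - x ^ p ^ m) / p ∈ S) {x : C}
    (hx : x ∈ S) : ∃ θ ∈ TT C p (p ^ m), ‖x - θ‖ ≤ ‖(p : C)‖ ^ 2 := by
  have hpC : (p : C) ≠ 0 := norm_pos_iff.1 hp0
  have h1P : 1 < p ^ m := Nat.one_lt_pow hm.ne' hpf.out.one_lt
  have hteich : ∀ y ∈ S, ∃ a, a ^ p ^ m = a ∧ ‖y - a‖ ≤ ‖(p : C)‖ := by
    intro y hy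
    obtain ⟨h1, h2, -⟩ := hS y hy
    obtain ⟨a, ha, hlt⟩ := exists_fixed hm (h2.trans_lt hp1)
    exact ⟨a, ha, Nr_gap (sub_mem ⟨h1, m, hm, h2⟩ (Nr_of_fixed hm ha)) hlt⟩
  obtain ⟨a, ha, hxa⟩ := hteich x hx
  obtain ⟨b, hb, hxb⟩ := hteich _ (hS x hx).2.2
  refine ⟨a + p * b, mem_TT h1P ha hb, ?_⟩
  have ha1 : ‖a‖ ≤ 1 := Nr_le (Nr_of_fixed hm ha)
  have hxa1 : ‖x - a‖ ≤ 1 := hxa.trans hp1.le
  obtain ⟨r, hr, he⟩ := nadd_pow_prime hpf.out (x := a) (y := x - a) ha1 hxa1 m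
  rw [add_sub_cancel, ha] at he
  have e : x - (a + p * b) = (x - a) ^ p ^ m + p * a * (x - a) * r +
      p * ((x - x ^ p ^ m) / p - b) := by
    have e2 : (p : C) * ((x - x ^ p ^ m) / p - b) = x - x ^ p ^ m - p * b := by
      rw [mul_sub, mul_div_cancel₀ _ hpC]
    rw [e2, he]
    ring
  rw [e]
  refine nadd_le (nadd_le ?_ ?_) ?_
  · rw [norm_pow]
    calc ‖x - a‖ ^ p ^ m ≤ ‖x - a‖ ^ 2 := pow_le_pow_of_le_one (norm_nonneg _) hxa1 h1P
      _ ≤ ‖(p : C)‖ ^ 2 := by gcongr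
  · refine nmul_le' ?_ hr
    rw [norm_mul, pow_two]
    refine mul_le_mul ?_ hxa (norm_nonneg _) (norm_nonneg _)
    exact nmul_le' le_rfl ha1
  · rw [norm_mul, pow_two]
    exact mul_le_mul_of_nonneg_left hxb (norm_nonneg _)

end approx

/-- One local field for all number fields. -/
theorem nfU (p : ℕ) [hpf : Fact p.Prime] : ∃ (C : Type) (_ : NormedField C)
    (_ : IsUltrametricDist C) (_ : CompleteSpace C)
    (_ : CharZero C) (_ : IsAlgClosed C) (k : Type) (_ : Field k) (_ : CharP k p)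
    (_ : IsAlgClosed k) (red : OO C →+* k) (𝕜 : Type) (_ : Field 𝕜) (_ : IsAlgClosed 𝕜)
    (_ : CharP 𝕜 p) (ρ : Nr C p →+* 𝕜) (ι : 𝕜 →+* k),
    0 < ‖(p : C)‖ ∧ ‖(p : C)‖ < 1 ∧
    (∀ x : OO C, red x = 0 ↔ ‖(x : C)‖ < 1) ∧ Function.Surjective ρ ∧
    (∀ r : Nr C p, ι (ρ r) = red ⟨r, Nr_le r.2⟩) ∧
    ∀ (K : Type) [Field K] [NumberField K] (σ : K →+* ℂ) (v : HeightOneSpectrum (𝓞 K)),
    (p : 𝓞 K) ∈ v.asIdeal → (p : 𝓞 K) ∉ v.asIdeal ^ 2 →
    ∃ (φ : QA →+* C) (σ' : K →+* QA), (∀ x, rA (σ' x) = σ x) ∧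
    (∀ x : K, v.valuation K x ≤ 1 → φ (σ' x) ∈ Nr C p) ∧
    (∀ x : 𝓞 K, ‖φ (σ' (algebraMap (𝓞 K) K x))‖ < 1 ↔ x ∈ v.asIdeal) ∧
    (∀ (x : K) (m : ℤ), v.valuation K x = WithZero.exp m → ‖φ (σ' x)‖ = ‖(p : C)‖ ^ (-m)) ∧
    ∀ q : ℕ, Nat.card (𝓞 K ⧸ v.asIdeal) ≤ q → ∀ x : K, v.valuation K x ≤ 1 →
      ∃ θ ∈ TT C p (p ^ q.factorial), ‖φ (σ' x) - θ‖ ≤ ‖(p : C)‖ ^ 2 := by
  obtain ⟨C, _, _, _, _, _, -, hpn⟩ := exists_padic p
  have hpR : (1 : ℝ) < p := by exact_mod_cast hpf.out.one_lt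
  have hp0 : 0 < ‖(p : C)‖ := by rw [hpn]; exact inv_pos.2 (by linarith)
  have hp1 : ‖(p : C)‖ < 1 := by rw [hpn]; exact inv_lt_one_of_one_lt₀ hpR
  obtain ⟨k, _, _, _, red, hker, hsurj⟩ := exists_residue3 (C := C) (p := p) hp1
  obtain ⟨𝕜, _, _, _, ρ, ι, hρ, hι⟩ := exists_res_Nr (C := C) (p := p) hp1 red hker hsurj
  refine ⟨C, inferInstance, inferInstance, inferInstance, inferInstance, inferInstance, k,
    inferInstance, inferInstance, inferInstance, red, 𝕜, inferInstance, inferInstance,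
    inferInstance, ρ, ι, hp0, hp1, hker, hρ, hι, ?_⟩
  intro K _ _ σ v hpv hpv2
  have halgσ : ∀ x : K, IsAlgebraic ℚ (σ x) := fun x =>
    (Algebra.IsAlgebraic.isAlgebraic (R := ℚ) x).algHom σ.toRatAlgHom
  let σ' : K →+* QA :=
    { toFun := fun x => ⟨σ x, mem_QA.2 (halgσ x)⟩
      map_one' := Subtype.ext (map_one σ)
      map_mul' := fun x y => Subtype.ext (map_mul σ x y)
      map_zero' := Subtype.ext (map_zero σ)
      map_add' := fun x y => Subtype.ext (map_add σ x y) }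
  have hσ' : ∀ x, rA (σ' x) = σ x := fun x => rfl
  obtain ⟨τ, hτ⟩ := exists_embedding hp1 v hpv
  obtain ⟨φ, hφ⟩ := exists_phi σ' τ
  have hint : ∀ x : K, v.valuation K x ≤ 1 → ‖τ x‖ ≤ 1 := by
    intro x hx
    obtain ⟨n, d, hnd⟩ := v.exists_primeCompl_mul_eq_of_integer x hx
    have hd : (d : 𝓞 K) ∉ v.asIdeal := d.2
    have h := congrArg (fun y => ‖τ y‖) hnd
    simp only [map_mul, norm_mul] at h
    rw [norm_unit hτ hd, mul_one] at h
    rw [h]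
    exact int_norm_le _ _
  have hval : ∀ (x : K) (m : ℤ), v.valuation K x = WithZero.exp m → ‖τ x‖ = ‖(p : C)‖ ^ (-m) :=
    fun x m hx => norm_of_val hp0 hpv hpv2 hτ hx
  refine ⟨φ, σ', hσ', ?_, ?_, ?_, ?_⟩
  · intro x hx
    rw [hφ]
    refine ⟨hint x hx, (Nat.card (𝓞 K ⧸ v.asIdeal)).factorial, Nat.factorial_pos _, ?_⟩
    exact unr_range hp0 hp1 hpv hpv2 hτ le_rfl (τ x) ⟨x, rfl⟩ (hint x hx)
  · intro x
    rw [hφ]
    exact hτ x
  · intro x m hx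
    rw [hφ]
    exact hval x m hx
  · intro q hq x hx
    rw [hφ]
    refine approx hp0 hp1 (Nat.factorial_pos q) (τ '' {x : K | v.valuation K x ≤ 1}) ?_ ⟨x, hx, rfl⟩
    rintro _ ⟨y, hy, rfl⟩
    have hy' : v.valuation K y ≤ 1 := hy
    have h1 : ‖τ y ^ p ^ q.factorial - τ y‖ ≤ ‖(p : C)‖ :=
      unr_range hp0 hp1 hpv hpv2 hτ hq (τ y) ⟨y, rfl⟩ (hint y hy')
    refine ⟨hint y hy', h1, (y - y ^ p ^ q.factorial) / p, ?_, ?_⟩
    · -- the quotient is integral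
      show v.valuation K ((y - y ^ p ^ q.factorial) / p) ≤ 1
      by_cases h0 : y - y ^ p ^ q.factorial = 0
      · rw [h0, zero_div, map_zero]
        exact zero_le_one
      · obtain ⟨c, hc⟩ : ∃ c : ℤ, v.valuation K (y - y ^ p ^ q.factorial) = WithZero.exp c :=
          ⟨WithZero.log (v.valuation K (y - y ^ p ^ q.factorial)),
            (WithZero.exp_log ((_root_.map_ne_zero _).2 h0)).symm⟩
        have h2 := hval _ _ hc
        rw [map_sub, map_pow, norm_sub_rev] at h2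
        rw [h2] at h1
        have h3 : 1 ≤ -c := by
          by_contra hcon
          push Not at hcon
          have h4 : ‖(p : C)‖ ^ (0 : ℤ) ≤ ‖(p : C)‖ ^ (-c) :=
            (zpow_right_anti₀ hp0 hp1.le) (by omega)
          rw [zpow_zero] at h4
          exact absurd (h4.trans h1) (not_le.2 hp1)
        rw [map_div₀, hc, val_p hpv hpv2, ← WithZero.exp_sub, ← WithZero.exp_zero,
          WithZero.exp_le_exp]
        omega
    · rw [map_div₀, map_sub, map_pow, map_natCast]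

end Pool.Agent.Q170.UZ
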