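import Pool.Agent.Y226.ZM.Tate3

/-!
# Project UZ: no atypical points for one hundred percent of the members (statements)

The families are those of `MP_e573c6_ag.OneDegenerateHypersurface`. `QA` is the field of the
algebraic numbers, `rA : QA →+* ℂ` the embedding, `PsiE ιZ (mP N) (mD N) x x' = 0` the modular
equation of level `N` (`Pool.Agent.Y226.ZP.Modular`).
-/

set_option autoImplicit false
set_option linter.unusedSectionVars false

open UpperHalfPlane H294ZP IsDedekindDomain NumberField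

namespace Pool.Agent.Q170.UZ

open Pool.Agent.Y226 Pool.Agent.Y226.ZG Pool.Agent.Y226.ZM

/-- Block SPR (spreading out the Nullstellensatz). Plan: `1 = ∑ c i * map π (h i)` over `𝒦`
(Nullstellensatz). Let `k₀` be the fraction field of the image of `π`; by
`Pool.Agent.Q170.FP.contr` (module `Pool.Agent.Q170.FP.Ext`) the `c i` can be taken over `k₀`, and
after multiplication with `π E ≠ 0` in the image of `π`. So
`map π (C E - ∑ c' i * h i) = 0`, i.e. `C E = ∑ c' i * h i + C P * c''` over `MvPolynomial (Fin r) QA`.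
For large `p` all coefficients of all polynomials are integral (`nr_large`, used in
`Pool.Agent.Q170.FP.Loc`: for each `x : QA` there is `D` such that `φ x ∈ Nr C p` for all `p > D`,
all `C` and all `φ`; `Nr_le`), and evaluation at `s` and `z` gives the claim. -/
def S_SPR : Prop := ∀ (r : ℕ) (τ ι : Type) [Finite τ] [Finite ι] (𝒦 : Type) [Field 𝒦]
  [IsAlgClosed 𝒦] (π : MvPolynomial (Fin r) QA →+* 𝒦) (P : MvPolynomial (Fin r) QA),
  (∀ f, π f = 0 → P ∣ f) → ∀ (h : ι → MvPolynomial τ (MvPolynomial (Fin r) QA)),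
  (∀ z : τ → 𝒦, ∃ i, MvPolynomial.eval₂ π z (h i) ≠ 0) →
  ∃ (Q : ℕ) (E : MvPolynomial (Fin r) QA), π E ≠ 0 ∧
  ∀ (C : Type) [NormedField C] [IsUltrametricDist C] [CompleteSpace C] [CharZero C]
    [IsAlgClosed C] (p : ℕ) [Fact p.Prime], Q < p → ‖(p : C)‖ < 1 →
  ∀ (φ : QA →+* C) (s : Fin r → QA), (∀ l, ‖φ (s l)‖ ≤ 1) →
    ‖φ (MvPolynomial.eval s P)‖ < 1 → ‖φ (MvPolynomial.eval s E)‖ = 1 →
  ∀ z : τ → C, (∀ j, ‖z j‖ ≤ 1) →
    ∃ i, 1 ≤ ‖MvPolynomial.eval₂ (φ.comp (MvPolynomial.eval s)) z (h i)‖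

/-- Block TAT (the Tate parameters of isogenous elliptic curves). Plan: as in `tate_rel3`
(`Pool.Agent.Y226.ZM.Tate3`), with `ψ = φ.comp iA`, `psi_norm`, `rA_comp`: transfer the modular
equation to `C`, `psi_roots` gives `φ X' = JC ψ (ψ (eZ β δ hδ) * Q ^ (α ^ 2))`, `α * δ = N`,
`Q ^ N = qT ψ (φ X)`; then `qT ψ (φ X') ^ δ = qT ψ (φ X) ^ α` since `eZ β δ hδ ^ δ = 1`. -/
def S_TAT : Prop := ∀ (C : Type) [NormedField C] [IsUltrametricDist C] [CompleteSpace C]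
  [CharZero C] [IsAlgClosed C] (φ : QA →+* C) (N : ℕ), 0 < N → ∀ X X' : QA, 1 < ‖φ X‖ →
  PsiE ιZ (mP N) (mD N) (rA X) (rA X') = 0 → 1 < ‖φ X'‖ ∧
  ∃ a b : ℕ, 0 < a ∧ 0 < b ∧ a ≤ N ∧ b ≤ N ∧
    qT (φ.comp iA) (φ X') ^ a = qT (φ.comp iA) (φ X) ^ b

/-- Block REL (the relation between two good coordinates). Plan: `qT (φ.comp iA) (φ X) * φ X` is
congruent to `1` modulo the maximal ideal (`qT_expand`, `qT_norm`, see `tate_lin` in
`Pool.Agent.Y226.ZG.Info2`). Norms give `a * w' = b * w`. With `w = g * w₁`, `w' = g * w₁'`,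
`w₁`, `w₁'` coprime, `a = w₁ * s`, `b = w₁' * s`, `s ≤ G`, so `s ∣ G.factorial`. -/
def S_REL : Prop := ∀ (C : Type) [NormedField C] [IsUltrametricDist C] [CompleteSpace C]
  [CharZero C] [IsAlgClosed C] (φ : QA →+* C) (ϖ : C), ϖ ≠ 0 → ‖ϖ‖ < 1 → ∀ (w w' : ℕ), 0 < w →
  0 < w' → ∀ (G a b : ℕ), 0 < a → 0 < b → a ≤ G → b ≤ G → ∀ (x x' z z' : C), ‖z‖ = 1 → ‖z'‖ = 1 →
  x = z / ϖ ^ w → x' = z' / ϖ ^ w' → qT (φ.comp iA) x' ^ a = qT (φ.comp iA) x ^ b →
  ‖z' ^ (w * G.factorial) - z ^ (w' * G.factorial)‖ < 1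

/-- Block COMB (combinatorics of the three places). `I₁`, `I₂`: isogenous with bounded degree,
`b₁`, `b₂`, `b₃`: the bad coordinates at the three places. Plan: `n - 1` coordinates in `n - 2`
classes give a pair in one class (`coll` in `Pool.Agent.Y226.ZU`). If there is a constant
coordinate, it is the bad one at all places, and a pair which is good at the first place contradicts
the second place. Otherwise take a pair `{j, l}` which is good at the first place. If no coordinate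
is bad at the second place, all pairs in the same class are in `I₂`: contradiction at the third
place. If `b` is bad at the second place, `b ∈ {j, l}`, take a pair `{j', l'}` without `b` in the
same class (it is in `I₂`), and look at the bad coordinate `a` at the third place; the only
remaining case is `{j, l} = {a, b}`, `{j', l'} = {a, m}`. -/
def S_COMB : Prop := ∀ (n r : ℕ) (cls : Fin n → Option (Fin r)), r + 2 ≤ n →
  ∀ (I₁ I₂ : Fin n → Fin n → Prop), (∀ j l, I₁ j l → I₂ j l) →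
  ∀ (b₁ b₂ b₃ : Fin n → Prop),
  (∀ j l, b₁ j → b₁ l → j = l) → (∀ j l, b₂ j → b₂ l → j = l) →
  (∀ j l, b₃ j → b₃ l → j = l) →
  (∀ i, cls i = none → b₁ i ∧ b₂ i ∧ b₃ i) →
  (∀ j l c, j ≠ l → cls j = some c → cls l = some c → ¬ b₁ j → ¬ b₁ l → I₁ j l) →
  (∀ j l c, j ≠ l → cls j = some c → cls l = some c → ¬ b₂ j → ¬ b₂ l → I₂ j l) →
  (∀ a j l, b₂ a → j ≠ l → j ≠ a → l ≠ a → ¬ I₁ j l) →
  (∀ a j l, b₃ a → j ≠ l → j ≠ a → l ≠ a → ¬ I₂ j l) →
  (∀ a j l, b₃ a → j ≠ l → j ≠ a → l ≠ a → I₂ j a → ¬ I₂ l a) →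
  ((∀ a, ¬ b₃ a) → ∀ j l j' l', j ≠ l → j' ≠ l' → I₂ j l → I₂ j' l' →
    (j = j' ∧ l = l') ∨ (j = l' ∧ l = j')) → False

/-- Block PRS: the sum of the reciprocals of the primes with an unramified place of degree one
diverges. Plan: `Pool.Agent.TH861.GL3.not_summable_inv` (module `Pool.Agent.TH861.GL3.Count`); the
sum over the places of degree at least two converges, there are at most `[K : ℚ]` places over `p`,
and almost all primes are unramified. -/
def S_PRS : Prop := ∀ (K : Type) [Field K] [NumberField K] (Q : ℕ) (c : ℝ), ∃ S : Finset ℕ,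
  (∀ p ∈ S, p.Prime ∧ Q < p ∧ ∃ v : HeightOneSpectrum (𝓞 K), (p : 𝓞 K) ∈ v.asIdeal ∧
    (p : 𝓞 K) ∉ v.asIdeal ^ 2 ∧ Nat.card (𝓞 K ⧸ v.asIdeal) = p) ∧ c ≤ ∑ p ∈ S, (1 / p : ℝ)

/-- Block PTS: points modulo `p` of the hypersurface `A t_l + B = 0` outside `E = 0`. Plan: for
large `p` all coefficients are integral at `v` and `A`, `R` are not zero modulo `v`; the residue field
is `ZMod p`. For `t'` with `A (t') R (t') ≠ 0` modulo `v` (Schwartz-Zippel,
`MvPolynomial.schwartz_zippel_totalDegree`) take `t_l = - B (t') / A (t')`; `E (t) ≠ 0` follows from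
the Bezout relation. -/
def S_PTS : Prop := ∀ (K : Type) [Field K] [NumberField K] (r : ℕ) (l : Fin r)
  (A B R : MvPolynomial {i : Fin r // i ≠ l} K) (P E U V : MvPolynomial (Fin r) K), A ≠ 0 → R ≠ 0 →
  P = MvPolynomial.rename Subtype.val A * MvPolynomial.X l + MvPolynomial.rename Subtype.val B →
  U * P + V * E = MvPolynomial.rename Subtype.val R →
  ∃ Q : ℕ, ∀ (p : ℕ), p.Prime → Q < p → ∀ v : HeightOneSpectrum (𝓞 K), (p : 𝓞 K) ∈ v.asIdeal →
    Nat.card (𝓞 K ⧸ v.asIdeal) = p → ∃ T : Finset (Fin r → ZMod p), p ^ (r - 1) ≤ 2 * T.card ∧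
    ∀ t : Fin r → ℤ, (fun j => (t j : ZMod p)) ∈ T →
      v.valuation K (MvPolynomial.eval (fun j => (t j : K)) P) < 1 ∧
      v.valuation K (MvPolynomial.eval (fun j => (t j : K)) E) = 1

/-- Block CRT: integral points which avoid many classes. Plan: Chinese remainder theorem and
`1 - x ≤ exp (-x)`; the box of side `2 H + 1` meets each class modulo `M` in at most
`((2 H + 1) / M + 1) ^ r` points. -/
def S_CRT : Prop := ∀ (r : ℕ) (S : Finset ℕ) (T : (p : ℕ) → Finset (Fin r → ZMod p)), 0 < r →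
  (∀ p ∈ S, p.Prime ∧ p ^ (r - 1) ≤ 2 * (T p).card) → ∀ ε : ℝ, 0 < ε → ∃ H₀ : ℕ, ∀ H : ℕ, H₀ ≤ H →
  ({t : Fin r → ℤ | (∀ j, |t j| ≤ H) ∧ ∀ p ∈ S, (fun j => (t j : ZMod p)) ∉ T p}.ncard : ℝ) ≤
    (Real.exp (-(∑ p ∈ S, (1 / p : ℝ)) / 2) + ε) * (2 * H + 1) ^ r

/-- Block ZER: zeros of a polynomial have density zero (Schwartz-Zippel). -/
def S_ZER : Prop := ∀ (K : Type) [Field K] [CharZero K] (r : ℕ) (P : MvPolynomial (Fin r) K),
  P ≠ 0 → ∀ ε : ℝ, 0 < ε → ∃ H₀ : ℕ, ∀ H : ℕ, H₀ ≤ H →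
  ({t : Fin r → ℤ | (∀ j, |t j| ≤ H) ∧ MvPolynomial.eval (fun j => (t j : K)) P = 0}.ncard : ℝ) ≤
    ε * (2 * H + 1) ^ r

/-- Block DEN (assembly of PRS, PTS, CRT, ZER): almost all integral points are on the hypersurface
`P = 0` outside `E = 0` modulo a place with bounded residue field. -/
def S_DEN : Prop := ∀ (K : Type) [Field K] [NumberField K] (r : ℕ) (l : Fin r)
  (A B R : MvPolynomial {i : Fin r // i ≠ l} K) (P E U V : MvPolynomial (Fin r) K), A ≠ 0 → R ≠ 0 →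
  P = MvPolynomial.rename Subtype.val A * MvPolynomial.X l + MvPolynomial.rename Subtype.val B →
  U * P + V * E = MvPolynomial.rename Subtype.val R → ∀ (Q : ℕ) (ε : ℝ), 0 < ε →
  ∃ B₁ H₀ : ℕ, ∀ H : ℕ, H₀ ≤ H →
  ({t : Fin r → ℤ | (∀ j, |t j| ≤ H) ∧ ¬ (MvPolynomial.eval (fun j => (t j : K)) P ≠ 0 ∧
    ∃ (v : HeightOneSpectrum (𝓞 K)) (p : ℕ), p.Prime ∧ Q < p ∧ (p : 𝓞 K) ∈ v.asIdeal ∧
      (p : 𝓞 K) ∉ v.asIdeal ^ 2 ∧ Nat.card (𝓞 K ⧸ v.asIdeal) ≤ B₁ ∧
      v.valuation K (MvPolynomial.eval (fun j => (t j : K)) P) < 1 ∧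
      v.valuation K (MvPolynomial.eval (fun j => (t j : K)) E) = 1)}.ncard : ℝ) ≤
    ε * (2 * H + 1) ^ r

end Pool.Agent.Q170.UZ
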