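import Pool.Agent.Q170.UZ.Plc
import Pool.Agent.Q170.UZ.StmN

/-!
# No relations near the degenerate curve
-/

set_option autoImplicit false
set_option linter.unusedSectionVars false

open UpperHalfPlane H294ZP Polynomial IsDedekindDomain NumberField

namespace Pool.Agent.Q170.UZ

open Pool.Agent.Y226 Pool.Agent.Y226.ZG Pool.Agent.Y226.ZM Pool.Agent.Y226.ZU Pool.Agent.Y92.ZX
open Pool.Agent.Q170.FP

/-- the multiplicative condition at the points with nonzero coordinates -/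
def MA {A L : Type} [CommRing A] [Field L] {n : ℕ} {κ : Type} (π : A →+* L)
    (F : κ → MvPolynomial (Fin n × Bool) A) (f g : Fin n → A) (w : Fin n → ℕ) : Prop :=
  ∀ y : Fin n → L, (∀ k, MvPolynomial.eval₂ π (chv none y) (F k) = 0) → (∀ i, y i ≠ 0) →
    ∀ b, 0 < b → ∀ j l j' l', j ≠ l → j' ≠ l' →
    (π (f l) / π (g l) * y l) ^ (w j * b) = (π (f j) / π (g j) * y j) ^ (w l * b) →
    (π (f l') / π (g l') * y l') ^ (w j' * b) = (π (f j') / π (g j') * y j') ^ (w l' * b) →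
    (j = j' ∧ l = l') ∨ (j = l' ∧ l = j')

/-- the multiplicative condition at the points on the boundary -/
def MB {A L : Type} [CommRing A] [Field L] {n : ℕ} {κ : Type} (π : A →+* L)
    (F : κ → MvPolynomial (Fin n × Bool) A) (f g : Fin n → A) (w : Fin n → ℕ) : Prop :=
  ∀ (c : Option (Fin n)) (a : Fin n), (c = none ∨ c = some a) → ∀ y : Fin n → L,
    (∀ k, MvPolynomial.eval₂ π (chv c y) (F k) = 0) → y a = 0 → (∀ i, i ≠ a → y i ≠ 0) →
    ∀ b, 0 < b → ∀ j l, j ≠ l → j ≠ a → l ≠ a →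
    (π (f l) / π (g l) * y l) ^ (w j * b) ≠ (π (f j) / π (g j) * y j) ^ (w l * b)

section sys

variable {A : Type} [CommRing A] {n : ℕ} {κ : Type}

/-- the polynomial of a relation -/
noncomputable def relp (f g : Fin n → A) (w : Fin n → ℕ) (b : ℕ) (j l : Fin n) :
    MvPolynomial (Option (Fin n)) A :=
  (MvPolynomial.C (f l) * MvPolynomial.X (some l)) ^ (w j * b) *
      MvPolynomial.C (g j) ^ (w l * b) -
    (MvPolynomial.C (f j) * MvPolynomial.X (some j)) ^ (w l * b) *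
      MvPolynomial.C (g l) ^ (w j * b)

theorem relp_eval {L : Type} [CommRing L] (ψ : A →+* L) (z : Option (Fin n) → L) (f g : Fin n → A)
    (w : Fin n → ℕ) (b : ℕ) (j l : Fin n) : MvPolynomial.eval₂ ψ z (relp f g w b j l) =
      (ψ (f l) * z (some l)) ^ (w j * b) * ψ (g j) ^ (w l * b) -
        (ψ (f j) * z (some j)) ^ (w l * b) * ψ (g l) ^ (w j * b) := by
  unfold relp
  simp only [MvPolynomial.eval₂_sub, MvPolynomial.eval₂_mul, MvPolynomial.eval₂_pow,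
    MvPolynomial.eval₂_C, MvPolynomial.eval₂_X]

theorem relp_field {L : Type} [Field L] (ψ : A →+* L) (z : Option (Fin n) → L) (f g : Fin n → A)
    (w : Fin n → ℕ) (b : ℕ) (j l : Fin n) (hg : ∀ i, ψ (g i) ≠ 0) :
    MvPolynomial.eval₂ ψ z (relp f g w b j l) =
      ((ψ (f l) / ψ (g l) * z (some l)) ^ (w j * b) -
        (ψ (f j) / ψ (g j) * z (some j)) ^ (w l * b)) *
        (ψ (g l) ^ (w j * b) * ψ (g j) ^ (w l * b)) := by
  rw [relp_eval]
  have e : ∀ i, ψ (f i) / ψ (g i) * z (some i) = ψ (f i) * z (some i) / ψ (g i) := fun i => by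
    ring
  rw [e, e, div_pow, div_pow, sub_mul]
  have h1 := pow_ne_zero (w j * b) (hg l)
  have h2 := pow_ne_zero (w l * b) (hg j)
  field_simp

/-- the systems -/
noncomputable def sysc (F : κ → MvPolynomial (Fin n × Bool) A) (c : Option (Fin n))
    (q : Fin 3 → MvPolynomial (Option (Fin n)) A) :
    κ ⊕ Fin 3 → MvPolynomial (Option (Fin n)) A :=
  Sum.elim (fun k => MvPolynomial.eval₂ MvPolynomial.C
    (chv c fun i => MvPolynomial.X (some i)) (F k)) q

theorem sysc_eval {L : Type} [CommRing L] (ψ : A →+* L) (z : Option (Fin n) → L)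
    (F : MvPolynomial (Fin n × Bool) A) (c : Option (Fin n)) :
    MvPolynomial.eval₂ ψ z (MvPolynomial.eval₂ MvPolynomial.C
      (chv c fun i => MvPolynomial.X (some i)) F) =
      MvPolynomial.eval₂ ψ (chv c fun i => z (some i)) F := by
  have h : (MvPolynomial.eval₂Hom ψ z).comp (MvPolynomial.eval₂Hom
      (MvPolynomial.C : A →+* MvPolynomial (Option (Fin n)) A)
      (chv c fun i => MvPolynomial.X (some i))) =
      MvPolynomial.eval₂Hom ψ (chv c fun i => z (some i)) := by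
    refine MvPolynomial.ringHom_ext ?_ ?_
    · intro r
      simp
    · intro q
      rw [RingHom.comp_apply, MvPolynomial.eval₂Hom_X', MvPolynomial.eval₂Hom_X']
      unfold chv
      split_ifs <;> simp
  exact congrArg (fun θ => θ F) h

end sys

section

variable {C : Type} [NormedField C] [IsUltrametricDist C] [CompleteSpace C] [CharZero C]
  [IsAlgClosed C]

/-- the relation of two good coordinates with bounded isogeny degree -/
theorem rel_dir (hTAT : S_TAT) (hREL : S_REL) (φ : QA →+* C) {ϖ : C} (hϖ0 : ϖ ≠ 0)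
    (hϖ1 : ‖ϖ‖ < 1) {w w' : ℕ} (hw : 0 < w) (hw' : 0 < w') {G N : ℕ} (hN0 : 0 < N) (hN : N ≤ G)
    {X X' : QA} {z z' : C} (hz : ‖z‖ = 1) (hz' : ‖z'‖ = 1) (hX : φ X = z / ϖ ^ w)
    (hX' : φ X' = z' / ϖ ^ w') (h : PsiE ιZ (mP N) (mD N) (rA X) (rA X') = 0) :
    ‖z' ^ (w * (G * G).factorial) - z ^ (w' * (G * G).factorial)‖ < 1 := by
  have hX1 : 1 < ‖φ X‖ := by
    rw [hX, norm_div, hz, norm_pow, one_div]
    exact (one_lt_inv₀ (pow_pos (norm_pos_iff.2 hϖ0) _)).2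
      (pow_lt_one₀ (norm_nonneg _) hϖ1 hw.ne')
  obtain ⟨-, a, b, ha, hb, haN, hbN, hq⟩ := hTAT C φ N hN0 X X' hX1 h
  have hGG : G ≤ G * G := Nat.le_mul_self G
  exact hREL C φ ϖ hϖ0 hϖ1 w w' hw hw' (G * G) a b ha hb (haN.trans (hN.trans hGG))
    (hbN.trans (hN.trans hGG)) _ _ z z' hz hz' hX hX' hq

/-- the relation of two good coordinates which are connected by a third one -/
theorem rel_mid (hTAT : S_TAT) (hREL : S_REL) (φ : QA →+* C) {ϖ : C} (hϖ0 : ϖ ≠ 0)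
    (hϖ1 : ‖ϖ‖ < 1) {w w' : ℕ} (hw : 0 < w) (hw' : 0 < w') {G N N' : ℕ} (hN0 : 0 < N) (hN : N ≤ G)
    (hN'0 : 0 < N') (hN' : N' ≤ G) {X X' X'' : QA} {z z' : C} (hz : ‖z‖ = 1) (hz' : ‖z'‖ = 1)
    (hX : φ X = z / ϖ ^ w) (hX' : φ X' = z' / ϖ ^ w')
    (h : PsiE ιZ (mP N) (mD N) (rA X) (rA X'') = 0)
    (h' : PsiE ιZ (mP N') (mD N') (rA X') (rA X'') = 0) :
    ‖z' ^ (w * (G * G).factorial) - z ^ (w' * (G * G).factorial)‖ < 1 := by
  have hX1 : ∀ {X : QA} {z : C} {w : ℕ}, ‖z‖ = 1 → 0 < w → φ X = z / ϖ ^ w → 1 < ‖φ X‖ := by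
    intro X z w hz hw hX
    rw [hX, norm_div, hz, norm_pow, one_div]
    exact (one_lt_inv₀ (pow_pos (norm_pos_iff.2 hϖ0) _)).2
      (pow_lt_one₀ (norm_nonneg _) hϖ1 hw.ne')
  obtain ⟨-, a₁, b₁, ha₁, hb₁, ha₁N, hb₁N, hq₁⟩ := hTAT C φ N hN0 X X'' (hX1 hz hw hX) h
  obtain ⟨-, a₂, b₂, ha₂, hb₂, ha₂N, hb₂N, hq₂⟩ := hTAT C φ N' hN'0 X' X'' (hX1 hz' hw' hX') h'
  refine hREL C φ ϖ hϖ0 hϖ1 w w' hw hw' (G * G) (b₂ * a₁) (b₁ * a₂) (Nat.mul_pos hb₂ ha₁)
    (Nat.mul_pos hb₁ ha₂) (Nat.mul_le_mul (hb₂N.trans hN') (ha₁N.trans hN))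
    (Nat.mul_le_mul (hb₁N.trans hN) (ha₂N.trans hN')) _ _ z z' hz hz' hX hX' ?_
  rw [pow_mul, ← hq₂, ← pow_mul, pow_mul _ b₁, ← hq₁, ← pow_mul, mul_comm]

end

/-- each factor has norm one -/
theorem one_of_prod {C : Type} [NormedField C] {τ : Type} (S : Finset τ) (x : τ → C)
    (h1 : ∀ i ∈ S, ‖x i‖ ≤ 1) (h : ‖∏ i ∈ S, x i‖ = 1) : ∀ i ∈ S, ‖x i‖ = 1 := by
  classical
  induction S using Finset.induction_on with
  | empty => intro i hi; exact absurd hi (by simp)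
  | insert i S hi ih =>
    rw [Finset.prod_insert hi, norm_mul] at h
    have h2 : ‖x i‖ ≤ 1 := h1 i (Finset.mem_insert_self _ _)
    have h3 : ‖∏ j ∈ S, x j‖ ≤ 1 := by
      rw [norm_prod]
      exact Finset.prod_le_one (fun _ _ => norm_nonneg _)
        fun j hj => h1 j (Finset.mem_insert_of_mem hj)
    have h4 : ‖x i‖ = 1 := by
      have := norm_nonneg (x i)
      have := norm_nonneg (∏ j ∈ S, x j)
      nlinarith
    have h5 : ‖∏ j ∈ S, x j‖ = 1 := by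
      rw [h4, one_mul] at h
      exact h
    intro j hj
    rcases Finset.mem_insert.1 hj with rfl | hj
    · exact h4
    · exact ih (fun k hk => h1 k (Finset.mem_insert_of_mem hk)) h5 j hj

end Pool.Agent.Q170.UZ
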