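import Pool.Agent.Q170.UZ.NoRel

/-!
# No relations near the degenerate curve: the theorem
-/

set_option autoImplicit false
set_option linter.unusedSectionVars false

open UpperHalfPlane H294ZP Polynomial IsDedekindDomain NumberField

namespace Pool.Agent.Q170.UZ

open Pool.Agent.Y226 Pool.Agent.Y226.ZG Pool.Agent.Y226.ZM Pool.Agent.Y226.ZU Pool.Agent.Y92.ZX
open Pool.Agent.Q170.FP

/-- spreading out for finitely many systems -/
theorem spr_many (hSPR : S_SPR) {r : ℕ} {τ ι J : Type} [Finite τ] [Finite ι] [Finite J] {𝒦 : Type}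
    [Field 𝒦] [IsAlgClosed 𝒦] (π : MvPolynomial (Fin r) QA →+* 𝒦) (P : MvPolynomial (Fin r) QA)
    (hP : ∀ f, π f = 0 → P ∣ f) (h : J → ι → MvPolynomial τ (MvPolynomial (Fin r) QA))
    (c : J → Prop) (hno : ∀ j, c j → ∀ z : τ → 𝒦, ∃ i, MvPolynomial.eval₂ π z (h j i) ≠ 0) :
    ∃ (Q : ℕ) (E : MvPolynomial (Fin r) QA), π E ≠ 0 ∧
    ∀ (C : Type) [NormedField C] [IsUltrametricDist C] [CompleteSpace C] [CharZero C]
      [IsAlgClosed C] (p : ℕ) [Fact p.Prime], Q < p → ‖(p : C)‖ < 1 →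
    ∀ (φ : QA →+* C) (s : Fin r → QA), (∀ l, ‖φ (s l)‖ ≤ 1) →
      ‖φ (MvPolynomial.eval s P)‖ < 1 → ‖φ (MvPolynomial.eval s E)‖ = 1 →
    ∀ j, c j → ∀ z : τ → C, (∀ j, ‖z j‖ ≤ 1) →
      ∃ i, 1 ≤ ‖MvPolynomial.eval₂ (φ.comp (MvPolynomial.eval s)) z (h j i)‖ := by
  classical
  have := Fintype.ofFinite J
  have key : ∀ j, ∃ (Q : ℕ) (E : MvPolynomial (Fin r) QA), π E ≠ 0 ∧
      ∀ (C : Type) [NormedField C] [IsUltrametricDist C] [CompleteSpace C] [CharZero C]
        [IsAlgClosed C] (p : ℕ) [Fact p.Prime], Q < p → ‖(p : C)‖ < 1 →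
      ∀ (φ : QA →+* C) (s : Fin r → QA), (∀ l, ‖φ (s l)‖ ≤ 1) →
        ‖φ (MvPolynomial.eval s P)‖ < 1 → ‖φ (MvPolynomial.eval s E)‖ = 1 →
      c j → ∀ z : τ → C, (∀ j, ‖z j‖ ≤ 1) →
        ∃ i, 1 ≤ ‖MvPolynomial.eval₂ (φ.comp (MvPolynomial.eval s)) z (h j i)‖ := by
    intro j
    by_cases hj : c j
    · obtain ⟨Q, E, hE, h1⟩ := hSPR r τ ι 𝒦 π P hP (h j) (hno j hj)
      exact ⟨Q, E, hE, fun C _ _ _ _ _ p _ hp hp1 φ s hs hPs hEs _ =>
        h1 C p hp hp1 φ s hs hPs hEs⟩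
    · exact ⟨0, 1, by rw [map_one]; exact one_ne_zero,
        fun C _ _ _ _ _ p _ hp hp1 φ s hs hPs hEs hc => absurd hc hj⟩
  choose Q E hE hQ using key
  choose Dn hDn using nr_large
  let S : Finset QA := Finset.univ.biUnion fun j => (E j).support.image (E j).coeff
  refine ⟨∑ j, Q j + S.sup Dn, ∏ j, E j, ?_, ?_⟩
  · rw [map_prod]
    exact Finset.prod_ne_zero_iff.2 fun j _ => hE j
  intro C _ _ _ _ _ p hpf hp hp1 φ s hs hPs hEs j hj z hz
  have hQj : Q j ≤ ∑ j, Q j := Finset.single_le_sum (f := Q) (fun _ _ => Nat.zero_le _)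
    (Finset.mem_univ j)
  have hint : ∀ j m, ‖φ ((E j).coeff m)‖ ≤ 1 := by
    intro j m
    by_cases h0 : (E j).coeff m = 0
    · rw [h0, map_zero, norm_zero]
      exact zero_le_one
    · have h2 : (E j).coeff m ∈ S := by
        simp only [S, Finset.mem_biUnion, Finset.mem_univ, true_and, Finset.mem_image]
        exact ⟨j, m, MvPolynomial.mem_support_iff.2 h0, rfl⟩
      have h3 : Dn ((E j).coeff m) ≤ S.sup Dn := Finset.le_sup h2
      exact Nr_le (hDn _ p (by omega) C φ hp1)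
  have hEj : ‖φ (MvPolynomial.eval s (E j))‖ = 1 := by
    refine one_of_prod Finset.univ (fun j => φ (MvPolynomial.eval s (E j)))
      (fun j _ => norm_eval_le φ (E j) (hint j) s hs) ?_ j (Finset.mem_univ j)
    rw [← hEs, map_prod, map_prod]
  exact hQ j C p (by omega) hp1 φ s hs hPs hEj hj z hz

/-- the conclusion at a place -/
structure NR {C : Type} [NormedField C] {n : ℕ} (φ : QA →+* C) (G : ℕ) (X Y : Fin n → QA) :
    Prop where
  b1 : ∀ a j l, ‖φ (Y a)‖ ≠ 1 → j ≠ l → j ≠ a → l ≠ a → ¬ ∃ N, 0 < N ∧ N ≤ G ∧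
    PsiE ιZ (mP N) (mD N) (rA (X j)) (rA (X l)) = 0
  b2 : ∀ a j l, ‖φ (Y a)‖ ≠ 1 → j ≠ l → j ≠ a → l ≠ a →
    (∃ N, 0 < N ∧ N ≤ G ∧ PsiE ιZ (mP N) (mD N) (rA (X j)) (rA (X a)) = 0) →
    ¬ ∃ N, 0 < N ∧ N ≤ G ∧ PsiE ιZ (mP N) (mD N) (rA (X l)) (rA (X a)) = 0
  b3 : (∀ i, ‖φ (Y i)‖ = 1) → ∀ j l j' l', j ≠ l → j' ≠ l' →
    (∃ N, 0 < N ∧ N ≤ G ∧ PsiE ιZ (mP N) (mD N) (rA (X j)) (rA (X l)) = 0) →
    (∃ N, 0 < N ∧ N ≤ G ∧ PsiE ιZ (mP N) (mD N) (rA (X j')) (rA (X l')) = 0) →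
    (j = j' ∧ l = l') ∨ (j = l' ∧ l = j')

/-- There are no relations with bounded degrees near the degenerate curve. -/
theorem noRel (hSPR : S_SPR) (hTAT : S_TAT) (hREL : S_REL) {n r : ℕ} {κ : Type} [Finite κ]
    (F : κ → MvPolynomial (Fin n × Bool) (MvPolynomial (Fin r) QA))
    (f g : Fin n → MvPolynomial (Fin r) QA) (w : Fin n → ℕ) (hw : ∀ i, 0 < w i)
    (hhom : ∀ k, MHom (F k)) {𝒦 : Type} [Field 𝒦] [IsAlgClosed 𝒦]
    (π : MvPolynomial (Fin r) QA →+* 𝒦) (P : MvPolynomial (Fin r) QA)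
    (hP : ∀ f, π f = 0 → P ∣ f) (hg : ∀ i, π (g i) ≠ 0)
    (h1 : MA π F f g w) (h2 : MB π F f g w) (G : ℕ) :
    ∃ (Q : ℕ) (E : MvPolynomial (Fin r) QA), π E ≠ 0 ∧
    ∀ (C : Type) [NormedField C] [IsUltrametricDist C] [CompleteSpace C] [CharZero C]
      [IsAlgClosed C] (p : ℕ) [Fact p.Prime], Q < p → ‖(p : C)‖ < 1 →
    ∀ (φ : QA →+* C) (s : Fin r → QA), (∀ l, ‖φ (s l)‖ ≤ 1) →
      MvPolynomial.eval s P ≠ 0 → ‖φ (MvPolynomial.eval s P)‖ < 1 →
      ‖φ (MvPolynomial.eval s E)‖ = 1 → (∀ i, ‖φ (MvPolynomial.eval s (f i))‖ = 1) →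
      (∀ i, ‖φ (MvPolynomial.eval s (g i))‖ = 1) → ∀ X Y : Fin n → QA,
      (∀ i, X i = MvPolynomial.eval s (f i) /
        (MvPolynomial.eval s P ^ w i * MvPolynomial.eval s (g i)) * Y i) →
      (∀ k, MvPolynomial.eval (chv none Y) (MvPolynomial.map (MvPolynomial.eval s) (F k)) = 0) →
      (∀ i j, i ≠ j → ‖φ (Y i)‖ = 1 ∨ ‖φ (Y j)‖ = 1) → NR φ G X Y := by
  classical
  set b := (G * G).factorial with hb
  have hb0 : 0 < b := Nat.factorial_pos _
  -- the systems
  let A := MvPolynomial (Fin r) QA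
  let sA : (Fin n × Fin n) × (Fin n × Fin n) → κ ⊕ Fin 3 → MvPolynomial (Option (Fin n)) A :=
    fun q => sysc F none ![MvPolynomial.X none * ∏ i, MvPolynomial.X (some i) - 1,
      relp f g w b q.1.1 q.1.2, relp f g w b q.2.1 q.2.2]
  let sB : (Option (Fin n) × Fin n) × (Fin n × Fin n) →
      κ ⊕ Fin 3 → MvPolynomial (Option (Fin n)) A :=
    fun q => sysc F q.1.1 ![MvPolynomial.X none * ∏ i ∈ Finset.univ.erase q.1.2,
      MvPolynomial.X (some i) - 1, relp f g w b q.2.1 q.2.2, MvPolynomial.X (some q.1.2)]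
  let cA : (Fin n × Fin n) × (Fin n × Fin n) → Prop := fun q => q.1.1 ≠ q.1.2 ∧ q.2.1 ≠ q.2.2 ∧
    ¬ ((q.1.1 = q.2.1 ∧ q.1.2 = q.2.2) ∨ (q.1.1 = q.2.2 ∧ q.1.2 = q.2.1))
  let cB : (Option (Fin n) × Fin n) × (Fin n × Fin n) → Prop := fun q =>
    (q.1.1 = none ∨ q.1.1 = some q.1.2) ∧ q.2.1 ≠ q.2.2 ∧ q.2.1 ≠ q.1.2 ∧ q.2.2 ≠ q.1.2
  have hnoA : ∀ q, cA q → ∀ z : Option (Fin n) → 𝒦, ∃ i, MvPolynomial.eval₂ π z (sA q i) ≠ 0 := by
    rintro ⟨⟨j, l⟩, ⟨j', l'⟩⟩ ⟨hjl, hjl', hne⟩ z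
    by_contra hcon
    push Not at hcon
    have hF : ∀ k, MvPolynomial.eval₂ π (chv none fun i => z (some i)) (F k) = 0 := by
      intro k
      rw [← sysc_eval]
      exact hcon (Sum.inl k)
    have hu := hcon (Sum.inr 0)
    have hr1 := hcon (Sum.inr 1)
    have hr2 := hcon (Sum.inr 2)
    have hu' : z none * ∏ i, z (some i) - 1 = 0 := by
      rw [← hu]
      show _ = MvPolynomial.eval₂ π z (MvPolynomial.X none * ∏ i, MvPolynomial.X (some i) - 1)
      rw [MvPolynomial.eval₂_sub, MvPolynomial.eval₂_mul, MvPolynomial.eval₂_X,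
        MvPolynomial.eval₂_prod, MvPolynomial.eval₂_one]
      simp only [MvPolynomial.eval₂_X]
    have hne0 : ∀ i, z (some i) ≠ 0 := by
      intro i h0
      rw [Finset.prod_eq_zero (Finset.mem_univ i) h0, mul_zero, zero_sub, neg_eq_zero] at hu'
      exact one_ne_zero hu'
    have hrel : ∀ j l : Fin n, MvPolynomial.eval₂ π z (relp f g w b j l) = 0 →
        (π (f l) / π (g l) * z (some l)) ^ (w j * b) =
          (π (f j) / π (g j) * z (some j)) ^ (w l * b) := by
      intro j l h0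
      rw [relp_field π z f g w b j l hg] at h0
      rcases mul_eq_zero.1 h0 with h | h
      · exact sub_eq_zero.1 h
      · exact absurd h (mul_ne_zero (pow_ne_zero _ (hg l)) (pow_ne_zero _ (hg j)))
    exact hne (h1 (fun i => z (some i)) hF hne0 b hb0 j l j' l' hjl hjl' (hrel j l hr1)
      (hrel j' l' hr2))
  have hnoB : ∀ q, cB q → ∀ z : Option (Fin n) → 𝒦, ∃ i, MvPolynomial.eval₂ π z (sB q i) ≠ 0 := by
    rintro ⟨⟨c, a⟩, ⟨j, l⟩⟩ ⟨hc, hjl, hja, hla⟩ z
    by_contra hcon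
    push Not at hcon
    have hF : ∀ k, MvPolynomial.eval₂ π (chv c fun i => z (some i)) (F k) = 0 := by
      intro k
      rw [← sysc_eval]
      exact hcon (Sum.inl k)
    have hu := hcon (Sum.inr 0)
    have hr1 := hcon (Sum.inr 1)
    have hr2 := hcon (Sum.inr 2)
    have hu' : z none * ∏ i ∈ Finset.univ.erase a, z (some i) - 1 = 0 := by
      rw [← hu]
      show _ = MvPolynomial.eval₂ π z (MvPolynomial.X none * ∏ i ∈ Finset.univ.erase a,
        MvPolynomial.X (some i) - 1)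
      rw [MvPolynomial.eval₂_sub, MvPolynomial.eval₂_mul, MvPolynomial.eval₂_X,
        MvPolynomial.eval₂_prod, MvPolynomial.eval₂_one]
      simp only [MvPolynomial.eval₂_X]
    have ha0 : z (some a) = 0 := by
      rw [← hr2]
      show _ = MvPolynomial.eval₂ π z (MvPolynomial.X (some a))
      rw [MvPolynomial.eval₂_X]
    have hne0 : ∀ i, i ≠ a → z (some i) ≠ 0 := by
      intro i hi h0
      rw [Finset.prod_eq_zero (Finset.mem_erase.2 ⟨hi, Finset.mem_univ i⟩) h0, mul_zero, zero_sub,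
        neg_eq_zero] at hu'
      exact one_ne_zero hu'
    have hr1' : MvPolynomial.eval₂ π z (relp f g w b j l) = 0 := hr1
    rw [relp_field π z f g w b j l hg] at hr1'
    rcases mul_eq_zero.1 hr1' with h | h
    · exact h2 c a hc (fun i => z (some i)) hF ha0 hne0 b hb0 j l hjl hja hla (sub_eq_zero.1 h)
    · exact absurd h (mul_ne_zero (pow_ne_zero _ (hg l)) (pow_ne_zero _ (hg j)))
  obtain ⟨QA', EA, hEA, hA⟩ := spr_many hSPR π P hP sA cA hnoA
  obtain ⟨QB', EB, hEB, hB⟩ := spr_many hSPR π P hP sB cB hnoB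
  choose Dn hDn using nr_large
  let S : Finset QA := EA.support.image EA.coeff ∪ EB.support.image EB.coeff
  refine ⟨QA' + QB' + S.sup Dn, EA * EB, by rw [map_mul]; exact mul_ne_zero hEA hEB, ?_⟩
  intro C _ _ _ _ _ p hpf hp hp1 φ s hs hP0 hPs hEs hfs hgs X Y hXY hYF hob
  have hSD : ∀ x ∈ S, ‖φ x‖ ≤ 1 := by
    intro x hx
    have h3 : Dn x ≤ S.sup Dn := Finset.le_sup hx
    exact Nr_le (hDn _ p (by omega) C φ hp1)
  have hint : ∀ E : MvPolynomial (Fin r) QA, (∀ x ∈ E.support.image E.coeff, x ∈ S) →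
      ∀ m, ‖φ (E.coeff m)‖ ≤ 1 := by
    intro E hE m
    by_cases h0 : E.coeff m = 0
    · rw [h0, map_zero, norm_zero]
      exact zero_le_one
    · exact hSD _ (hE _ (Finset.mem_image_of_mem _ (MvPolynomial.mem_support_iff.2 h0)))
  have hEA1 : ‖φ (MvPolynomial.eval s EA)‖ ≤ 1 := norm_eval_le φ EA (hint EA fun x hx => by
    simp only [S, Finset.mem_union]; exact Or.inl hx) s hs
  have hEB1 : ‖φ (MvPolynomial.eval s EB)‖ ≤ 1 := norm_eval_le φ EB (hint EB fun x hx => by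
    simp only [S, Finset.mem_union]; exact Or.inr hx) s hs
  rw [map_mul, map_mul, norm_mul] at hEs
  have hEAs : ‖φ (MvPolynomial.eval s EA)‖ = 1 := by
    have := norm_nonneg (φ (MvPolynomial.eval s EA))
    have := norm_nonneg (φ (MvPolynomial.eval s EB))
    nlinarith
  have hEBs : ‖φ (MvPolynomial.eval s EB)‖ = 1 := by
    rw [hEAs, one_mul] at hEs
    exact hEs
  set ψ : A →+* C := φ.comp (MvPolynomial.eval s) with hψ
  set ϖ : C := φ (MvPolynomial.eval s P) with hϖ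
  have hϖ0 : ϖ ≠ 0 := by
    rw [hϖ]
    exact (map_ne_zero φ).2 hP0
  have hgψ : ∀ i, ψ (g i) ≠ 0 := by
    intro i h0
    have h3 := hgs i
    have h4 : φ (MvPolynomial.eval s (g i)) = 0 := h0
    rw [h4, norm_zero] at h3
    exact zero_ne_one h3
  let z : Fin n → C := fun i => ψ (f i) / ψ (g i) * φ (Y i)
  have hz1 : ∀ i, ‖φ (Y i)‖ = 1 → ‖z i‖ = 1 := by
    intro i hi
    show ‖ψ (f i) / ψ (g i) * φ (Y i)‖ = 1
    rw [norm_mul, norm_div, hi, mul_one]
    have h3 : ‖ψ (f i)‖ = 1 := hfs i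
    have h4 : ‖ψ (g i)‖ = 1 := hgs i
    rw [h3, h4, div_one]
  have hX : ∀ i, φ (X i) = z i / ϖ ^ w i := by
    intro i
    rw [hXY, map_mul, map_div₀, map_mul, map_pow]
    show ψ (f i) / (ϖ ^ w i * ψ (g i)) * φ (Y i) = ψ (f i) / ψ (g i) * φ (Y i) / ϖ ^ w i
    have h3 := hgψ i
    have h4 := pow_ne_zero (w i) hϖ0
    field_simp
  -- the forms
  have hYC : ∀ k, MvPolynomial.eval₂ ψ (chv none fun i => φ (Y i)) (F k) = 0 := by
    intro k
    have h3 := congrArg φ (hYF k)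
    rw [map_zero, MvPolynomial.eval_map, MvPolynomial.eval₂_comp_left] at h3
    rw [chv_map φ none Y, ← h3]
    rfl
  -- norms of the relations
  have hrel : ∀ (zz : Option (Fin n) → C) (j l : Fin n), zz (some j) = φ (Y j) →
      zz (some l) = φ (Y l) → ‖z l ^ (w j * b) - z j ^ (w l * b)‖ < 1 →
      ‖MvPolynomial.eval₂ ψ zz (relp f g w b j l)‖ < 1 := by
    intro zz j l hj hl h3
    rw [relp_field ψ zz f g w b j l hgψ, hj, hl, norm_mul, norm_mul, norm_pow, norm_pow]
    have h4 : ∀ i, ‖ψ (g i)‖ = 1 := hgs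
    rw [h4, h4, one_pow, one_pow, one_mul, mul_one]
    exact h3
  have hprodn : ∀ S' : Finset (Fin n), (∀ i ∈ S', ‖φ (Y i)‖ = 1) → ‖∏ i ∈ S', φ (Y i)‖ = 1 := by
    intro S' hS'
    rw [norm_prod]
    exact Finset.prod_eq_one hS'
  -- the main step on the boundary
  have hbd : ∀ a j l, ‖φ (Y a)‖ ≠ 1 → j ≠ l → j ≠ a → l ≠ a →
      ¬ ‖z l ^ (w j * b) - z j ^ (w l * b)‖ < 1 := by
    intro a j l ha hjl hja hla h3
    have hgood : ∀ i, i ≠ a → ‖φ (Y i)‖ = 1 := fun i hi => (hob i a hi).resolve_right ha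
    have hpr := hprodn (Finset.univ.erase a) fun i hi => hgood i (Finset.mem_erase.1 hi).1
    have hpr0 : ∏ i ∈ Finset.univ.erase a, φ (Y i) ≠ 0 := norm_pos_iff.1 (by rw [hpr]; exact one_pos)
    rcases lt_or_gt_of_ne ha with hlt | hgt
    · -- a zero
      let zz : Option (Fin n) → C := fun o => o.elim (∏ i ∈ Finset.univ.erase a, φ (Y i))⁻¹
        fun i => φ (Y i)
      obtain ⟨i, hi⟩ := hB C p (by omega) hp1 φ s hs hPs hEBs ((none, a), (j, l))
        ⟨Or.inl rfl, hjl, hja, hla⟩ zz (by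
          intro o
          rcases o with _ | i
          · show ‖(∏ i ∈ Finset.univ.erase a, φ (Y i))⁻¹‖ ≤ 1
            rw [norm_inv, hpr, inv_one]
          · show ‖φ (Y i)‖ ≤ 1
            by_cases hia : i = a
            · rw [hia]; exact hlt.le
            · exact (hgood i hia).le)
      rcases i with k | i
      · have h4 : MvPolynomial.eval₂ ψ zz (sB ((none, a), (j, l)) (Sum.inl k)) = 0 := by
          show MvPolynomial.eval₂ ψ zz (MvPolynomial.eval₂ MvPolynomial.C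
            (chv none fun i => MvPolynomial.X (some i)) (F k)) = 0
          rw [sysc_eval]
          exact hYC k
        rw [h4, norm_zero] at hi
        exact absurd hi (by norm_num)
      · fin_cases i
        · have h4 : MvPolynomial.eval₂ ψ zz (MvPolynomial.X none *
              ∏ i ∈ Finset.univ.erase a, MvPolynomial.X (some i) - 1) = 0 := by
            rw [MvPolynomial.eval₂_sub, MvPolynomial.eval₂_mul, MvPolynomial.eval₂_X,
              MvPolynomial.eval₂_prod, MvPolynomial.eval₂_one]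
            simp only [MvPolynomial.eval₂_X]
            show (∏ i ∈ Finset.univ.erase a, φ (Y i))⁻¹ *
              ∏ i ∈ Finset.univ.erase a, φ (Y i) - 1 = 0
            rw [inv_mul_cancel₀ hpr0, sub_self]
          have h5 : 1 ≤ ‖MvPolynomial.eval₂ ψ zz (MvPolynomial.X none *
              ∏ i ∈ Finset.univ.erase a, MvPolynomial.X (some i) - 1)‖ := hi
          rw [h4, norm_zero] at h5
          exact absurd h5 (by norm_num)
        · have h5 : 1 ≤ ‖MvPolynomial.eval₂ ψ zz (relp f g w b j l)‖ := hi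
          exact absurd (hrel zz j l rfl rfl h3) (not_lt.2 h5)
        · have h5 : 1 ≤ ‖MvPolynomial.eval₂ ψ zz
            (MvPolynomial.X (some a) : MvPolynomial (Option (Fin n)) A)‖ := hi
          rw [MvPolynomial.eval₂_X] at h5
          exact absurd hlt (not_lt.2 h5)
    · -- a pole
      have ha0 : φ (Y a) ≠ 0 := norm_pos_iff.1 (one_pos.trans hgt)
      let η : Fin n → C := Function.update (fun i => φ (Y i)) a (φ (Y a))⁻¹
      let zz : Option (Fin n) → C := fun o => o.elim (∏ i ∈ Finset.univ.erase a, φ (Y i))⁻¹ η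
      have hηa : η a = (φ (Y a))⁻¹ := Function.update_self _ _ _
      have hηi : ∀ i, i ≠ a → η i = φ (Y i) := fun i hi => Function.update_of_ne hi _ _
      have hηlt : ‖η a‖ < 1 := by
        rw [hηa, norm_inv]
        exact inv_lt_one_of_one_lt₀ hgt
      obtain ⟨i, hi⟩ := hB C p (by omega) hp1 φ s hs hPs hEBs ((some a, a), (j, l))
        ⟨Or.inr rfl, hjl, hja, hla⟩ zz (by
          intro o
          rcases o with _ | i
          · show ‖(∏ i ∈ Finset.univ.erase a, φ (Y i))⁻¹‖ ≤ 1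
            rw [norm_inv, hpr, inv_one]
          · show ‖η i‖ ≤ 1
            by_cases hia : i = a
            · rw [hia]; exact hηlt.le
            · rw [hηi i hia]; exact (hgood i hia).le)
      rcases i with k | i
      · have h4 : MvPolynomial.eval₂ ψ zz (sB ((some a, a), (j, l)) (Sum.inl k)) = 0 := by
          show MvPolynomial.eval₂ ψ zz (MvPolynomial.eval₂ MvPolynomial.C
            (chv (some a) fun i => MvPolynomial.X (some i)) (F k)) = 0
          rw [sysc_eval]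
          show MvPolynomial.eval₂ ψ (chv (some a) η) (F k) = 0
          have h5 := Pool.Agent.Y151.ZX.scale ψ (F k) (hhom k)
            (fun i => if i = a then (φ (Y a))⁻¹ else 1) _ (hYC k)
          have hfun : (fun q => (if q.1 = a then (φ (Y a))⁻¹ else 1) *
              chv none (fun i => φ (Y i)) q) = chv (some a) η := by
            funext q
            unfold chv
            by_cases hq : q.1 = a
            · simp only [hq, if_true, hηa, reduceCtorEq, if_false]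
              by_cases hb' : q.2
              · simp [hb']
              · simp only [hb', if_false, Bool.false_eq_true]
                exact inv_mul_cancel₀ ha0
            · have hq' : ¬ (some a = some q.1) := fun h => hq (Option.some_injective _ h).symm
              simp only [hq, if_false, hq', hηi _ hq, reduceCtorEq, one_mul]
          rw [hfun] at h5
          exact h5
        rw [h4, norm_zero] at hi
        exact absurd hi (by norm_num)
      · fin_cases i
        · have h4 : MvPolynomial.eval₂ ψ zz (MvPolynomial.X none *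
              ∏ i ∈ Finset.univ.erase a, MvPolynomial.X (some i) - 1) = 0 := by
            rw [MvPolynomial.eval₂_sub, MvPolynomial.eval₂_mul, MvPolynomial.eval₂_X,
              MvPolynomial.eval₂_prod, MvPolynomial.eval₂_one]
            simp only [MvPolynomial.eval₂_X]
            show (∏ i ∈ Finset.univ.erase a, φ (Y i))⁻¹ *
              ∏ i ∈ Finset.univ.erase a, η i - 1 = 0
            have h6 : ∏ i ∈ Finset.univ.erase a, η i = ∏ i ∈ Finset.univ.erase a, φ (Y i) :=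
              Finset.prod_congr rfl fun i hi => hηi i (Finset.mem_erase.1 hi).1
            rw [h6, inv_mul_cancel₀ hpr0, sub_self]
          have h5 : 1 ≤ ‖MvPolynomial.eval₂ ψ zz (MvPolynomial.X none *
              ∏ i ∈ Finset.univ.erase a, MvPolynomial.X (some i) - 1)‖ := hi
          rw [h4, norm_zero] at h5
          exact absurd h5 (by norm_num)
        · have h5 : 1 ≤ ‖MvPolynomial.eval₂ ψ zz (relp f g w b j l)‖ := hi
          exact absurd (hrel zz j l (hηi j hja) (hηi l hla) h3) (not_lt.2 h5)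
        · have h5 : 1 ≤ ‖MvPolynomial.eval₂ ψ zz
            (MvPolynomial.X (some a) : MvPolynomial (Option (Fin n)) A)‖ := hi
          rw [MvPolynomial.eval₂_X] at h5
          exact absurd hηlt (not_lt.2 h5)
  refine ⟨?_, ?_, ?_⟩
  · rintro a j l ha hjl hja hla ⟨N, hN0, hN, hΨ⟩
    have hgood : ∀ i, i ≠ a → ‖φ (Y i)‖ = 1 := fun i hi => (hob i a hi).resolve_right ha
    exact hbd a j l ha hjl hja hla (rel_dir hTAT hREL φ hϖ0 hPs (hw j) (hw l) hN0 hN
      (hz1 j (hgood j hja)) (hz1 l (hgood l hla)) (hX j) (hX l) hΨ)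
  · rintro a j l ha hjl hja hla ⟨N, hN0, hN, hΨ⟩ ⟨N', hN0', hN', hΨ'⟩
    have hgood : ∀ i, i ≠ a → ‖φ (Y i)‖ = 1 := fun i hi => (hob i a hi).resolve_right ha
    exact hbd a j l ha hjl hja hla (rel_mid hTAT hREL φ hϖ0 hPs (hw j) (hw l) hN0 hN hN0' hN'
      (hz1 j (hgood j hja)) (hz1 l (hgood l hla)) (hX j) (hX l) hΨ hΨ')
  · rintro hall j l j' l' hjl hjl' ⟨N, hN0, hN, hΨ⟩ ⟨N', hN0', hN', hΨ'⟩
    by_contra hne
    have hr1 := rel_dir hTAT hREL φ hϖ0 hPs (hw j) (hw l) hN0 hN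
      (hz1 j (hall j)) (hz1 l (hall l)) (hX j) (hX l) hΨ
    have hr2 := rel_dir hTAT hREL φ hϖ0 hPs (hw j') (hw l') hN0' hN'
      (hz1 j' (hall j')) (hz1 l' (hall l')) (hX j') (hX l') hΨ'
    have hpr := hprodn Finset.univ fun i _ => hall i
    have hpr0 : ∏ i, φ (Y i) ≠ 0 := norm_pos_iff.1 (by rw [hpr]; exact one_pos)
    let zz : Option (Fin n) → C := fun o => o.elim (∏ i, φ (Y i))⁻¹ fun i => φ (Y i)
    obtain ⟨i, hi⟩ := hA C p (by omega) hp1 φ s hs hPs hEAs ((j, l), (j', l'))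
      ⟨hjl, hjl', hne⟩ zz (by
        intro o
        rcases o with _ | i
        · show ‖(∏ i, φ (Y i))⁻¹‖ ≤ 1
          rw [norm_inv, hpr, inv_one]
        · exact (hall i).le)
    rcases i with k | i
    · have h4 : MvPolynomial.eval₂ ψ zz (sA ((j, l), (j', l')) (Sum.inl k)) = 0 := by
        show MvPolynomial.eval₂ ψ zz (MvPolynomial.eval₂ MvPolynomial.C
          (chv none fun i => MvPolynomial.X (some i)) (F k)) = 0
        rw [sysc_eval]
        exact hYC k
      rw [h4, norm_zero] at hi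
      exact absurd hi (by norm_num)
    · fin_cases i
      · have h4 : MvPolynomial.eval₂ ψ zz (MvPolynomial.X none *
            ∏ i, MvPolynomial.X (some i) - 1) = 0 := by
          rw [MvPolynomial.eval₂_sub, MvPolynomial.eval₂_mul, MvPolynomial.eval₂_X,
            MvPolynomial.eval₂_prod, MvPolynomial.eval₂_one]
          simp only [MvPolynomial.eval₂_X]
          show (∏ i, φ (Y i))⁻¹ * ∏ i, φ (Y i) - 1 = 0
          rw [inv_mul_cancel₀ hpr0, sub_self]
        have h5 : 1 ≤ ‖MvPolynomial.eval₂ ψ zz (MvPolynomial.X none *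
            ∏ i, MvPolynomial.X (some i) - 1)‖ := hi
        rw [h4, norm_zero] at h5
        exact absurd h5 (by norm_num)
      · have h5 : 1 ≤ ‖MvPolynomial.eval₂ ψ zz (relp f g w b j l)‖ := hi
        exact absurd (hrel zz j l rfl rfl hr1) (not_lt.2 h5)
      · have h5 : 1 ≤ ‖MvPolynomial.eval₂ ψ zz (relp f g w b j' l')‖ := hi
        exact absurd (hrel zz j' l' rfl rfl hr2) (not_lt.2 h5)

end Pool.Agent.Q170.UZ
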