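import Pool.Agent.Q170.UZ.Apx

/-!
# The points on special subvarieties at one place
-/

set_option autoImplicit false
set_option linter.unusedSectionVars false

open UpperHalfPlane H294ZP Polynomial IsDedekindDomain NumberField

namespace Pool.Agent.Q170.UZ

open Pool.Agent.Y226 Pool.Agent.Y226.ZG Pool.Agent.Y226.ZM Pool.Agent.Y226.ZU Pool.Agent.Y92.ZX
open Pool.Agent.Q170.FP

/-- The local theorem at one place, uniformly. -/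
theorem placeC (n r W : ℕ) (κ : Type) [Finite κ] (d₀ : ℕ)
    (F : κ → MvPolynomial (Fin n × Bool) (MvPolynomial (Fin r) QA)) (𝒦 : Type) [Field 𝒦]
    [IsAlgClosed 𝒦] [CharZero 𝒦] (π : MvPolynomial (Fin r) QA →+* 𝒦)
    (halg : ∀ x : 𝒦, ∃ E, π E ≠ 0 ∧ π.IsIntegralElem (π E * x))
    (P : MvPolynomial (Fin r) QA) (hP0 : P ≠ 0) (hP : ∀ f, π f = 0 → P ∣ f) (hF : GM d₀ π F) :
    ∃ (Q : ℕ) (E : MvPolynomial (Fin r) QA), π E ≠ 0 ∧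
    ∀ (C : Type) [NormedField C] [IsUltrametricDist C] [CompleteSpace C] [CharZero C]
      [IsAlgClosed C] (p : ℕ) [Fact p.Prime] (k : Type) [Field k] [CharP k p] [IsAlgClosed k]
      (red : OO C →+* k) (𝕜 : Type) [Field 𝕜] [IsAlgClosed 𝕜] (ρ : Nr C p →+* 𝕜) (ι : 𝕜 →+* k),
      (∀ x : OO C, red x = 0 ↔ ‖(x : C)‖ < 1) → 0 < ‖(p : C)‖ → ‖(p : C)‖ < 1 →
      Function.Surjective ρ → (∀ r : Nr C p, ι (ρ r) = red ⟨r, Nr_le r.2⟩) → Q < p →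
    ∀ T : Finset C, ∃ G : ℕ,
    ∀ (φ : QA →+* C) (s : Fin r → QA), (∀ l, φ (s l) ∈ Nr C p) →
      (∀ l, ∃ θ ∈ T, ‖φ (s l) - θ‖ ≤ ‖(p : C)‖ ^ 2) →
      ‖φ (MvPolynomial.eval s P)‖ < 1 → ‖φ (MvPolynomial.eval s E)‖ = 1 →
    ∀ (w : Fin n → ℕ), (∀ i, 0 < w i ∧ w i ≤ W) → ∀ e : ℕ, 0 < e → ∀ lam : Fin n → QA,
      (∀ i, ‖φ (lam i)‖ = ‖(p : C)‖ ^ (-((w i * e : ℕ) : ℤ)) ∧
        φ (lam i) * (p : C) ^ (w i * e) ∈ Nr C p ∧
        ∃ θ ∈ T, ‖φ (lam i) * (p : C) ^ (w i * e) - θ‖ ≤ ‖(p : C)‖ ^ 2) →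
    ∀ (Γ : Set ℂ), (∀ γ ∈ Γ, ∃ c : QA, rA c = γ ∧ ‖φ c‖ ≤ 1) →
    (∀ (r' : ℕ) (Z : SV Γ n r'), r' < n →
      {y | y ∈ VF (fun t => MvPolynomial.map (MvPolynomial.eval s) (F t)) ∧
        (fun i => rA (lam i) * y i) ∈ Z.locus}.Finite) ∧
    ∀ (r' : ℕ) (Z : SV Γ n r'), r' + 2 ≤ n →
    ∀ y : Fin n → ℂ, y ∈ VF (fun t => MvPolynomial.map (MvPolynomial.eval s) (F t)) →
      (fun i => rA (lam i) * y i) ∈ Z.locus →
    ∃ Y : Fin n → QA, (∀ i, rA (Y i) = y i) ∧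
      (∀ i j, i ≠ j → ‖φ (Y i)‖ = 1 ∨ ‖φ (Y j)‖ = 1) ∧
      (∀ i, Z.cls i = none → ‖φ (Y i)‖ ≠ 1) ∧
      ∀ j l c, j ≠ l → Z.cls j = some c → Z.cls l = some c → ‖φ (Y j)‖ = 1 → ‖φ (Y l)‖ = 1 →
        ∃ N', 0 < N' ∧ N' ≤ G ∧
          PsiE ιZ (mP N') (mD N') (rA (lam j * Y j)) (rA (lam l * Y l)) = 0 := by
  classical
  obtain ⟨Q₁, B, E, hB, hE, hbQ, hfam⟩ := famC n r W κ d₀ F 𝒦 π halg P hP0 hP hF
  obtain ⟨Q₂, δ, hapx⟩ := apx_fam F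
  refine ⟨Q₁ + Q₂, E, hE, ?_⟩
  intro C _ _ _ _ _ p hpf k _ _ _ red 𝕜 _ _ ρ ι hker hp0 hp1 hρs hι hp T
  obtain ⟨Θ, hTΘ, hΘ⟩ := hapx C p (by omega) hp1 T
  set pu : Cˣ := Units.mk0 (p : C) (norm_pos_iff.1 hp0) with hpu
  obtain ⟨G, hG⟩ := unifC red hker hp0 hp1 ρ hρs ι hι n W B δ hB (by omega) Θ pu rfl
  refine ⟨G, ?_⟩
  intro φ s hs hsT hPs hEs w hw e he lam hlam Γ hΓ
  obtain ⟨FN, hFN, hgood, hHG⟩ := hfam C p k red 𝕜 ρ ι hker hp0 hp1 hι (by omega) φ s hs hPs hEs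
  have hA : Apx Θ δ FN := hΘ φ s (fun l => Nr_le (hs l)) hsT FN hFN
  have hlam0 : ∀ i, lam i ≠ 0 := by
    intro i h0
    have h1 := (hlam i).1
    rw [h0, map_zero, norm_zero] at h1
    exact (zpow_pos hp0 _).ne h1
  obtain ⟨-, hF2⟩ := Y219.ZX.fin n κ _ hHG lam hlam0
  have hconst : ∀ {r' : ℕ} (Z : SV Γ n r') i, ∃ c : QA, rA c = Z.const i := fun Z i =>
    int_algS (fun γ hγ => by
      obtain ⟨c, hc, -⟩ := hΓ γ hγ
      exact ⟨c, hc⟩) _ (Z.int i)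
  refine ⟨fun r' Z hr => (hF2 Γ r' Z hr (hconst Z)).1, ?_⟩
  intro r' Z hr y hy hyZ
  obtain ⟨Y, hY⟩ := (hF2 Γ r' Z (by omega) (hconst Z)).2 y hy hyZ
  have hYF : ∀ t, MvPolynomial.eval (chv none Y)
      (MvPolynomial.map (MvPolynomial.eval s) (F t)) = 0 := by
    intro t
    apply rA.injective
    have h1 := hy t
    have h2 : (fun i => rA (Y i)) = y := funext hY
    rw [← h2] at h1
    have h3 : chv none (fun i => rA (Y i)) = fun q => rA (chv none Y q) := chv_map rA none Y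
    rw [h3] at h1
    rw [map_zero, ← h1, MvPolynomial.eval_eq', map_sum, MvPolynomial.eval₂_eq']
    refine Finset.sum_congr rfl fun m _ => ?_
    rw [map_mul, map_prod]
    simp only [map_pow]
  have hYN : ∀ t, MvPolynomial.eval₂ (Nr C p).subtype (chv none fun i => φ (Y i)) (FN t) = 0 := by
    intro t
    have h1 := congrArg φ (hYF t)
    rw [map_zero, MvPolynomial.eval_map, MvPolynomial.eval₂_comp_left] at h1
    have h2 : MvPolynomial.eval₂ (Nr C p).subtype (chv none fun i => φ (Y i)) (FN t) =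
        MvPolynomial.eval (chv none fun i => φ (Y i))
          (MvPolynomial.map (Nr C p).subtype (FN t)) := by
      rw [MvPolynomial.eval_map]
    rw [h2, hFN, MvPolynomial.eval_map, chv_map φ none Y, ← h1]
    rfl
  refine ⟨Y, hY, ?_, ?_⟩
  · obtain ⟨hhom, hcor, N, M, d, D, 𝓡, hN, hNB, hM, hMB, hdB, hDB, hRB, hmem⟩ := hgood
    have hρ0 : ∀ r : Nr C p, ρ r = 0 ↔ ‖(r : C)‖ < 1 := by
      intro r
      rw [← map_eq_zero ι, hι, hker]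
    obtain ⟨ht, rho, hht, hpt⟩ := (Y427.ZX.pt2 Y151.ZX.eva) C p 𝕜 ρ hρs hp0 hp1 hρ0 n κ FN hhom
      hcor N W M d D 𝓡 hmem
    exact (hpt _ hYN).ob
  · have hΛex : ∀ i, ∃ Λ : Cˣ, (Λ : C) = φ (lam i) ∧
        Λ * pu ^ (w i * e) ∈ GG C p 0 le_rfl one_pos := fun i =>
      Lam_unit2 hp0 (hlam i).1 (hlam i).2.1 rfl
    choose Λ hΛ1 hΛ2 using hΛex
    obtain ⟨h1, h2⟩ := hG κ FN hgood hA w hw e he Λ hΛ2 (fun i => by
      obtain ⟨θ, hθ, hθ'⟩ := (hlam i).2.2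
      refine ⟨θ, hTΘ hθ, ?_⟩
      rw [Units.val_mul, Units.val_pow_eq_pow_val, hΛ1]
      exact hθ') φ (fun i => lam i * Y i) (fun i => φ (Y i)) hYN
      (fun i => by rw [map_mul, hΛ1]) r' Z.cls hr (by
        intro i hi
        refine norm_le_one_of_adjoin φ hΓ ?_
        have h1 : rA (lam i * Y i) = Z.const i := by
          obtain ⟨z, hz⟩ := hyZ
          rw [map_mul, hY]
          exact (hz i).1 hi
        rw [h1]
        exact Z.int i) (by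
        intro j l c _ hcj hcl
        obtain ⟨a', b', c', d', hdet, hrel⟩ := Z.rel_unif hcj hcl
        obtain ⟨w, w', hww, hw, hw'⟩ := hrel _ hyZ
        refine ⟨w, w', a', b', c', d', hdet, hww, ?_, ?_⟩
        · rw [← hw, map_mul, hY]
        · rw [← hw', map_mul, hY])
    exact ⟨h1, fun j l c hjl hj hl hj1 hl1 => h2 j l hjl ⟨c, hj, hl⟩ hj1 hl1⟩

end Pool.Agent.Q170.UZ
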