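import Pool.Agent.Y948.ZX.Tame
import Pool.Agent.Y92.ZX.Main

/-!
# The tame solutions for all curves near a given one

Adapted from `Pool.Agent.Y948.ZX.Tame` (helper948, helper226): the exact relation `r3` is replaced by
a relation modulo the square of `p`.
-/

set_option autoImplicit false
set_option linter.unusedSectionVars false

open UpperHalfPlane H294ZP Polynomial

namespace Pool.Agent.Q170.UZ

open Pool.Agent.Y226 Pool.Agent.Y226.ZG Pool.Agent.Y226.ZM Pool.Agent.Y226.ZU Pool.Agent.Y92.ZX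
open Pool.Agent.Y948.ZX

/-- The relations at a point with unit coordinates, modulo the square of `p`. -/
structure PtB {C : Type} [NormedField C] [IsUltrametricDist C] {p : ℕ} [Fact p.Prime]
    {𝕜 : Type} [Field 𝕜] {n N W M d D : ℕ} (ρ : Nr C p →+* 𝕜) (𝓡 : RD 𝕜 n N W M d D)
    (ht : (Fin n → ℤ) → (Fin n → ℤ) → (Nr C p)[X][X])
    (rho : (Fin n → ℤ) → (Fin n → ℤ) → MvPolynomial (Fin n × Bool) (OO C)) (x : Fin n → C) :
    Prop where
  r1 : ∀ (i j : Fin n), i ≠ j →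
    ∀ g' : (Nr C p)[X][X], g'.map (mapRingHom ρ) = 𝓡.g i false j →
      ‖E2 (Nr C p).subtype (x i) (x j) g'‖ ≤ ‖(p : C)‖
  r2 : ∀ v w, Bv M v → Bv M w → LI v w →
    ‖E2 (Nr C p).subtype (∏ i, x i ^ v i) (∏ i, x i ^ w i) (ht v w)‖ ≤ ‖(p : C)‖
  r3 : ∀ v w, Bv M v → Bv M w → LI v w →
    ‖E2 (Nr C p).subtype (∏ i, x i ^ v i) (∏ i, x i ^ w i) (ht v w) -
      p * MvPolynomial.eval₂ (OO C).subtype (xx x) (rho v w)‖ ≤ ‖(p : C)‖ ^ 2

/-- The tame solutions for two pairs. -/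
def S_TAMEB : Prop := ∀ (C : Type) [NormedField C] [IsUltrametricDist C] [CharZero C]
  [IsAlgClosed C] (p : ℕ) [Fact p.Prime] (k 𝕜 : Type) [Field k] [CharP k p] [IsAlgClosed k]
  [Field 𝕜] (n N W M d D B : ℕ) (𝓛 : LB C p k 𝕜 n N W M d D B) (κ : Fin n → OO C)
  (j l j' l' : Fin n) (A B₁ A' B₁' : ℕ), j ≠ l → j' ≠ l' →
    ¬ ((j' = j ∧ l' = l) ∨ (j' = l ∧ l' = j)) → 0 < A → 0 < B₁ → 0 < B₁' →
    A ≤ W → B₁ ≤ W → A' ≤ W → B₁' ≤ W →
    𝓛.Λ l ^ B₁ * (𝓛.Λ j ^ A)⁻¹ ∈ GG C p 0 le_rfl one_pos →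
    𝓛.Λ l' ^ B₁' * (𝓛.Λ j' ^ A')⁻¹ ∈ GG C p 0 le_rfl one_pos →
    ∃ T : Set (Fin n → k), T.Finite ∧ ∀ (x : Fin n → C), PtB 𝓛.ρ 𝓛.𝓡 𝓛.ht 𝓛.rho x →
      ∀ (xO : Fin n → OO C)
      (Y : Fin n → Cˣ), (∀ i, (xO i : C) = x i) → (∀ i, (Y i : C) = xO i) →
      (∀ i, ‖(xO i : C)‖ = 1) →
      ∀ (ζ ζ' : Cˣ) (f f' : ℕ), 0 < f → (ζ : C) ^ p ^ f = ζ → 0 < f' → (ζ' : C) ^ p ^ f' = ζ' →
      ‖((𝓛.Λ l ^ B₁ * (𝓛.Λ j ^ A)⁻¹ * (Y l ^ B₁ * (Y j ^ A)⁻¹) * ζ : Cˣ) : C) -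
        (1 + p * (B₁ * (κ l * ((Y l : Cˣ) : C)⁻¹) - A * (κ j * ((Y j : Cˣ) : C)⁻¹)))‖ ≤
          ‖(p : C)‖ ^ 2 →
      ‖((𝓛.Λ l' ^ B₁' * (𝓛.Λ j' ^ A')⁻¹ * (Y l' ^ B₁' * (Y j' ^ A')⁻¹) * ζ' : Cˣ) : C) -
        (1 + p * (B₁' * (κ l' * ((Y l' : Cˣ) : C)⁻¹) -
          A' * (κ j' * ((Y j' : Cˣ) : C)⁻¹)))‖ ≤ ‖(p : C)‖ ^ 2 →
      (fun i => 𝓛.red (xO i)) ∈ T

/-- Block TAME: the tame solutions for two pairs. -/
theorem tameB : S_TAMEB := by
  intro C _ _ _ _ p hpf k 𝕜 _ _ _ _ n N W M d D B 𝓛 κ j l j' l' A B₁ A' B₁' hjl hjl' hne hA hB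
    hB' hAW hBW hAW' hBW' hμ hμ'
  classical
  have hM := 𝓛.hM
  set v := vec j l A B₁ with hvdef
  set w := vec j' l' A' B₁' with hwdef
  have hv : Bv M v := Bv_vec (by omega) (by omega) hjl
  have hw : Bv M w := Bv_vec (by omega) (by omega) hjl'
  have hvw : LI v w := LI_vec hjl hjl' hne hA hB hB'
  obtain ⟨ν, hν⟩ := pair_tame 𝓛 κ hμ
  obtain ⟨ν', hν'⟩ := pair_tame 𝓛 κ hμ'
  obtain ⟨hmap, hBDh⟩ := 𝓛.hht v w hv hw hvw
  set h := 𝓛.ht v w with hh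
  let co : ℕ × ℕ → OO C := fun m => NrO C p (cf h m)
  have hco : ∀ m, ((co m : OO C) : C) = ((cf h m : Nr C p) : C) := fun m => rfl
  have hredco : ∀ m, 𝓛.red (co m) = 𝓛.ι (cf (𝓛.𝓡.h v w) m) := by
    intro m
    rw [← hmap, cf_map]
    exact (𝓛.hι _).symm
  choose τ vv hc hτ using fun m => teichO 𝓛.hp0 𝓛.hp1 (c := co m) (cf h m).2
  -- the polynomials
  let P₁ : MvPolynomial (Fin n × Bool) k := MvPolynomial.C (𝓛.red ν) +
    ((B₁ : MvPolynomial (Fin n × Bool) k) * (MvPolynomial.C (𝓛.red (κ l)) * MvPolynomial.X (l, true)) -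
    (A : MvPolynomial (Fin n × Bool) k) * (MvPolynomial.C (𝓛.red (κ j)) * MvPolynomial.X (j, true)))
  let P₂ : MvPolynomial (Fin n × Bool) k := MvPolynomial.C (𝓛.red ν') +
    ((B₁' : MvPolynomial (Fin n × Bool) k) * (MvPolynomial.C (𝓛.red (κ l')) * MvPolynomial.X (l', true)) -
    (A' : MvPolynomial (Fin n × Bool) k) * (MvPolynomial.C (𝓛.red (κ j')) * MvPolynomial.X (j', true)))
  let 𝓑 : MvPolynomial (Fin n × Bool) k := (∑ m ∈ box d,
    (MvPolynomial.C (𝓛.red (vv m)) * Mv k v ^ m.1 * Mv k w ^ m.2 +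
      MvPolynomial.C (𝓛.red (co m)) * Mv k v ^ m.1 * Mv k w ^ m.2 *
        ((m.1 : MvPolynomial (Fin n × Bool) k) * P₁ +
          (m.2 : MvPolynomial (Fin n × Bool) k) * P₂))) -
    MvPolynomial.map 𝓛.red (𝓛.rho v w)
  obtain ⟨U, V, r, hr, hUV⟩ := 𝓛.𝓡.hUV v w hv hw hvw
  have hιunit : ∀ r : 𝕜, IsUnit r → 𝓛.ι r ≠ 0 := fun r hr => (hr.map 𝓛.ι).ne_zero
  have hN0 : (N : k) ≠ 0 := by
    intro h0
    have h1 := (CharP.cast_eq_zero_iff k p N).1 h0
    have h2 := Nat.le_of_dvd 𝓛.hN h1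
    have := 𝓛.b3
    omega
  have hfin := tame_fin (k := k) (p := p) 𝓛.hN hN0
    (fun i j => (𝓛.𝓡.g i false j).map (mapRingHom 𝓛.ι))
    (fun i j => Units.map (PowerSeries.map 𝓛.ι).toMonoidHom (𝓛.𝓡.L i false j))
    (fun i j => (𝓛.𝓡.ys i false j).map (Units.map (PowerSeries.map 𝓛.ι).toMonoidHom))
    (fun i j hij => (𝓛.𝓡.fac i false j hij).map 𝓛.ι)
    (by
      intro i j hij y hy
      obtain ⟨y₀, hy₀, rfl⟩ := Multiset.mem_map.1 hy
      obtain ⟨m, hm, hu⟩ := 𝓛.𝓡.yn i false j hij y₀ hy₀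
      refine ⟨m, hm, ?_⟩
      have e1 : ((Units.map (PowerSeries.map 𝓛.ι).toMonoidHom y₀ : (PowerSeries k)ˣ) :
        PowerSeries k) = PowerSeries.map 𝓛.ι (y₀ : PowerSeries 𝕜) := rfl
      rw [e1, PowerSeries.coeff_map]
      exact hιunit _ hu)
    v w (fun c₁ c₂ hc => LI_mod hv hw hvw 𝓛.b6 c₁ c₂ hc)
    (h := (𝓛.𝓡.h v w).map (mapRingHom 𝓛.ι)) (d := d) ((𝓛.𝓡.hBD v w hv hw hvw).map 𝓛.ι)
    (U := U.map (mapRingHom 𝓛.ι)) (V := V.map (mapRingHom 𝓛.ι)) (r := r.map 𝓛.ι)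
    (by
      obtain ⟨i, hi⟩ := hr
      intro h0
      have := congrArg (fun f => coeff f i) h0
      simp only [coeff_map, coeff_zero] at this
      exact hιunit _ hi this)
    (by
      have := congrArg (Polynomial.map (mapRingHom 𝓛.ι)) hUV
      rw [Polynomial.map_add, Polynomial.map_mul, Polynomial.map_mul, Polynomial.map_mul,
        ← derivative_map, Polynomial.map_X, Polynomial.map_C] at this
      exact this) 𝓑
  refine ⟨_, hfin, ?_⟩
  intro x hx xO Y hxO hY hx1 ζ ζ' f f' hf hζ hf' hζ' hexp hexp'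
  obtain ⟨F, e, R, hF, hFe, he, hR, hFr⟩ := hν xO Y hY hx1 ζ f hf hζ hexp
  obtain ⟨F', e', R', hF', hFe', he', hR', hFr'⟩ := hν' xO Y hY hx1 ζ' f' hf' hζ' hexp'
  have hxn : ∀ i, ‖x i‖ = 1 := fun i => by rw [← hxO]; exact hx1 i
  have hx0 : ∀ i, x i ≠ 0 := fun i => norm_pos_iff.1 (by rw [hxn]; exact one_pos)
  set xb : Fin n → k := fun i => 𝓛.red (xO i) with hxb
  have hxb0 : ∀ i, xb i ≠ 0 := fun i => by
    show 𝓛.red (xO i) ≠ 0
    rw [Ne, 𝓛.hker, hx1]; exact lt_irrefl 1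
  have hFv : 𝓛.red F = ∏ i, xb i ^ v i := by
    rw [hvdef, prod_vec xb hjl (hxb0 j), hFr]
  have hFw : 𝓛.red F' = ∏ i, xb i ^ w i := by
    rw [hwdef, prod_vec xb hjl' (hxb0 j'), hFr']
  have hFC : (F : C) = ∏ i, x i ^ v i := by
    rw [hvdef, prod_vec x hjl (hx0 j), hF, Units.val_mul, Units.val_pow_eq_pow_val,
      Units.val_inv_eq_inv_val, Units.val_pow_eq_pow_val, hY, hY, hxO, hxO]
  have hFC' : (F' : C) = ∏ i, x i ^ w i := by
    rw [hwdef, prod_vec x hjl' (hx0 j'), hF', Units.val_mul, Units.val_pow_eq_pow_val,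
      Units.val_inv_eq_inv_val, Units.val_pow_eq_pow_val, hY, hY, hxO, hxO]
  have halg : algebraMap k k = RingHom.id k := rfl
  have hredp : 𝓛.red (p : OO C) = 0 := by
    rw [𝓛.hker]
    simpa using 𝓛.hp1
  refine ⟨hxb0, ?_, ?_, ?_⟩
  · intro i j hij
    obtain ⟨g', hg'⟩ : ∃ g' : (Nr C p)[X][X], g'.map (mapRingHom 𝓛.ρ) = 𝓛.𝓡.g i false j :=
      Polynomial.map_surjective (mapRingHom 𝓛.ρ) (Polynomial.map_surjective 𝓛.ρ 𝓛.hρs) _
    have h1 := hx.r1 i j hij g' hg'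
    have h2 := push_rel 𝓛 (xO i) (xO j) g' (by rw [hxO, hxO]; exact h1)
    rw [hg'] at h2
    exact h2
  · have h1 := hx.r2 v w hv hw hvw
    rw [← hFC, ← hFC'] at h1
    have h2 := push_rel 𝓛 F F' _ h1
    rw [hmap, hFv, hFw] at h2
    exact h2
  · -- the value of the error term
    obtain ⟨yi, hyi, hyi'⟩ := exists_inv 𝓛 hx1
    set z : Fin n × Bool → OO C := fun q => if q.2 then yi q.1 else xO q.1 with hz
    set R1 : OO C := MvPolynomial.eval₂ (RingHom.id (OO C)) z (𝓛.rho v w) with hR1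
    have hzC : (fun q => ((z q : OO C) : C)) = xx x := by
      funext q
      obtain ⟨i, b⟩ := q
      cases b with
      | true => simp [hz, xx, hyi, hxO]
      | false => simp [hz, xx, hxO]
    have hzr : (fun q => 𝓛.red (z q)) = xx xb := by
      funext q
      obtain ⟨i, b⟩ := q
      cases b with
      | true => simp [hz, xx, hyi', hxb]
      | false => simp [hz, xx, hxb]
    have hR1C : (R1 : C) = MvPolynomial.eval₂ (OO C).subtype (xx x) (𝓛.rho v w) := by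
      have h1 := MvPolynomial.eval₂_comp_left (OO C).subtype (RingHom.id (OO C)) z (𝓛.rho v w)
      rw [RingHom.comp_id] at h1
      rw [← hzC]
      exact h1
    obtain ⟨R0, hR0E⟩ := divp 𝓛.hp0 (hx.r2 v w hv hw hvw)
    have hR01 : 𝓛.red R0 = 𝓛.red R1 := by
      rw [← sub_eq_zero, ← map_sub, 𝓛.hker]
      have h3 := hx.r3 v w hv hw hvw
      rw [hR0E, ← hR1C, ← mul_sub, norm_mul, pow_two] at h3
      have h4 : ‖(R0 : C) - R1‖ ≤ ‖(p : C)‖ := le_of_mul_le_mul_left h3 𝓛.hp0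
      exact h4.trans_lt 𝓛.hp1
    have hR0r : 𝓛.red R0 = MvPolynomial.aeval (xx xb) (MvPolynomial.map 𝓛.red (𝓛.rho v w)) := by
      have h1 := MvPolynomial.eval₂_comp_left 𝓛.red (RingHom.id (OO C)) z (𝓛.rho v w)
      rw [RingHom.comp_id] at h1
      rw [hR01, hR1, h1, MvPolynomial.aeval_def, MvPolynomial.eval₂_map, halg, RingHom.id_comp,
        ← hzr]
      rfl
    have hrel0 : ∑ m ∈ box d, co m * F ^ m.1 * F' ^ m.2 = p * R0 := by
      apply Subtype.ext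
      have h1 := hR0E
      rw [E2_eq_sum hBDh, ← hFC, ← hFC'] at h1
      have h2 : (((∑ m ∈ box d, co m * F ^ m.1 * F' ^ m.2 : OO C)) : C) =
          ∑ m ∈ box d, ((co m : OO C) : C) * (F : C) ^ m.1 * (F' : C) ^ m.2 := by
        push_cast
        rfl
      rw [h2]
      refine h1.trans ?_
      push_cast
      rfl
    have h00 : ((0, 0) : ℕ × ℕ) ∈ box d := by
      simp [box]
    set c' : ℕ × ℕ → OO C := fun m => if m = (0, 0) then co m - p * R0 else co m with hc'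
    set v' : ℕ × ℕ → OO C := fun m => if m = (0, 0) then vv m - R0 else vv m with hv'
    have hcv' : ∀ m, c' m = τ m + p * v' m := by
      intro m
      simp only [hc', hv']
      split_ifs
      · rw [hc m]; ring
      · exact hc m
    have hredc' : ∀ m, 𝓛.red (c' m) = 𝓛.red (co m) := by
      intro m
      simp only [hc']
      split_ifs
      · rw [map_sub, map_mul, hredp, zero_mul, sub_zero]
      · rfl
    have hrel : ∑ m ∈ box d, c' m * F ^ m.1 * F' ^ m.2 = 0 := by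
      have h1 : ∀ m ∈ box d, c' m * F ^ m.1 * F' ^ m.2 =
          co m * F ^ m.1 * F' ^ m.2 - (if m = (0, 0) then p * R0 else 0) := by
        intro m _
        simp only [hc']
        split_ifs with hm
        · rw [hm, pow_zero, pow_zero]; ring
        · rw [sub_zero]
      rw [Finset.sum_congr rfl h1, Finset.sum_sub_distrib, hrel0, Finset.sum_ite_eq' (box d),
        if_pos h00, sub_self]
    have h1 := tame_eq2 𝓛.red (pO_ne 𝓛) c' τ v' hcv' hτ he he' hFe hFe' hrel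
    have hL : (fun m : Bx d => cf ((𝓛.𝓡.h v w).map (mapRingHom 𝓛.ι)) m.1 *
        (∏ i, xb i ^ v i) ^ m.1.1 * (∏ i, xb i ^ w i) ^ m.1.2) =
        fun m : Bx d => 𝓛.red (c' m.1) * 𝓛.red F ^ m.1.1 * 𝓛.red F' ^ m.1.2 := by
      funext m
      rw [cf_map, hredc', hredco, hFv, hFw]
    rw [hL]
    refine h1.trans ?_
    congr 1
    have e1 : MvPolynomial.aeval (xx xb) P₁ = 𝓛.red R := by
      rw [hR]
      show MvPolynomial.aeval (xx xb) (MvPolynomial.C (𝓛.red ν) +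
        ((B₁ : MvPolynomial (Fin n × Bool) k) * (MvPolynomial.C (𝓛.red (κ l)) * MvPolynomial.X (l, true)) -
        (A : MvPolynomial (Fin n × Bool) k) * (MvPolynomial.C (𝓛.red (κ j)) * MvPolynomial.X (j, true)))) = _
      simp only [map_add, map_sub, map_mul, map_natCast, MvPolynomial.aeval_X,
        MvPolynomial.aeval_C]
      simp [xx, hxb]
    have e2 : MvPolynomial.aeval (xx xb) P₂ = 𝓛.red R' := by
      rw [hR']
      show MvPolynomial.aeval (xx xb) (MvPolynomial.C (𝓛.red ν') +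
        ((B₁' : MvPolynomial (Fin n × Bool) k) * (MvPolynomial.C (𝓛.red (κ l')) * MvPolynomial.X (l', true)) -
        (A' : MvPolynomial (Fin n × Bool) k) * (MvPolynomial.C (𝓛.red (κ j')) * MvPolynomial.X (j', true)))) = _
      simp only [map_add, map_sub, map_mul, map_natCast, MvPolynomial.aeval_X,
        MvPolynomial.aeval_C]
      simp [xx, hxb]
    have e3 : MvPolynomial.aeval (xx xb) 𝓑 = (∑ m ∈ box d,
        (𝓛.red (vv m) * 𝓛.red F ^ m.1 * 𝓛.red F' ^ m.2 +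
          𝓛.red (co m) * 𝓛.red F ^ m.1 * 𝓛.red F' ^ m.2 *
            (m.1 * 𝓛.red R + m.2 * 𝓛.red R'))) - 𝓛.red R0 := by
      show MvPolynomial.aeval (xx xb) ((∑ m ∈ box d,
        (MvPolynomial.C (𝓛.red (vv m)) * Mv k v ^ m.1 * Mv k w ^ m.2 +
          MvPolynomial.C (𝓛.red (co m)) * Mv k v ^ m.1 * Mv k w ^ m.2 *
          ((m.1 : MvPolynomial (Fin n × Bool) k) * P₁ +
            (m.2 : MvPolynomial (Fin n × Bool) k) * P₂))) -
        MvPolynomial.map 𝓛.red (𝓛.rho v w)) = _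
      rw [map_sub, ← hR0r, map_sum]
      congr 1
      refine Finset.sum_congr rfl fun m _ => ?_
      rw [map_add, map_mul, map_mul, map_mul, map_mul, map_mul, map_add, map_mul, map_mul,
        map_natCast, map_natCast, map_pow, map_pow, aeval_Mv hxb0, aeval_Mv hxb0, e1, e2,
        MvPolynomial.aeval_C, MvPolynomial.aeval_C, ← hFv, ← hFw, halg]
      rfl
    rw [e3]
    have e4 : ∀ m ∈ box d, 𝓛.red (v' m) * 𝓛.red F ^ m.1 * 𝓛.red F' ^ m.2 +
        𝓛.red (c' m) * 𝓛.red F ^ m.1 * 𝓛.red F' ^ m.2 * (m.1 * 𝓛.red R + m.2 * 𝓛.red R') =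
        (𝓛.red (vv m) * 𝓛.red F ^ m.1 * 𝓛.red F' ^ m.2 +
          𝓛.red (co m) * 𝓛.red F ^ m.1 * 𝓛.red F' ^ m.2 *
            (m.1 * 𝓛.red R + m.2 * 𝓛.red R')) - (if m = (0, 0) then 𝓛.red R0 else 0) := by
      intro m _
      rw [hredc']
      simp only [hv']
      split_ifs with hm
      · rw [hm, map_sub, pow_zero, pow_zero]; ring
      · rw [sub_zero]
    rw [Finset.sum_congr rfl e4, Finset.sum_sub_distrib, Finset.sum_ite_eq' (box d), if_pos h00]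

end Pool.Agent.Q170.UZ
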